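import Pool.Agent.H336R5.PS.Defs

/-!
# `TaskB`: `W ≤ f log f`
-/

set_option autoImplicit false

namespace Pool.Agent.H658R3.PS

open Pool.Agent.H336R5.PS

theorem scalar {x : ℝ} (h0 : 0 ≤ x) (h2 : x ≤ 2) :
    (x - 1) + (x - 1) ^ 2 / 6 ≤ x * Real.log x := by
  rcases h0.eq_or_lt with h | h
  · rw [← h]; norm_num
  · obtain ⟨y, hy, rfl⟩ : ∃ y : ℝ, 0 < y ∧ x = y ^ 2 :=
      ⟨√x, Real.sqrt_pos.2 h, (Real.sq_sqrt h0).symm⟩
    have hl : Real.log (y ^ 2) = 2 * Real.log y := by rw [Real.log_pow]; norm_num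
    have h1 := Real.one_sub_inv_le_log_of_pos hy
    have h3 : y * (1 - y⁻¹) = y - 1 := by field_simp
    have h4 : y - 1 ≤ y * Real.log y := by
      rw [← h3]; exact mul_le_mul_of_nonneg_left h1 hy.le
    have h5 : 2 * y * (y - 1) ≤ y ^ 2 * (2 * Real.log y) := by nlinarith
    have h6 : y ≤ 1.42 := by nlinarith
    have h7 : (y + 1) ^ 2 ≤ 6 := by nlinarith
    have h8 : (y ^ 2 - 1) ^ 2 ≤ 6 * (y - 1) ^ 2 := by
      have : (y ^ 2 - 1) ^ 2 = (y + 1) ^ 2 * (y - 1) ^ 2 := by ring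
      rw [this]
      exact mul_le_mul_of_nonneg_right h7 (sq_nonneg _)
    rw [hl]
    nlinarith

theorem taskB : TaskB := by
  intro P t
  have hu0 : ∀ p, 0 ≤ u p t := fun p => by
    unfold u; linarith [Real.neg_one_le_cos (t * Real.log p)]
  have hu2 : ∀ p, u p t ≤ 2 := fun p => by
    unfold u; linarith [Real.cos_le_one (t * Real.log p)]
  have h1 : W P t ≤ ∑ p ∈ P, (∏ q ∈ P.erase p, u q t) * (u p t * Real.log (u p t)) := by
    unfold W
    refine Finset.sum_le_sum fun p _ => mul_le_mul_of_nonneg_left (scalar (hu0 p) (hu2 p)) ?_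
    exact Finset.prod_nonneg fun q _ => hu0 q
  refine h1.trans (le_of_eq ?_)
  have h2 : ∀ p ∈ P, (∏ q ∈ P.erase p, u q t) * (u p t * Real.log (u p t)) =
      f P t * Real.log (u p t) := by
    intro p hp
    rw [← mul_assoc, Finset.prod_erase_mul P _ hp]
    rfl
  rw [Finset.sum_congr rfl h2, ← Finset.mul_sum]
  by_cases h : f P t = 0
  · rw [h]; simp
  · congr 1
    unfold f at h ⊢
    rw [Real.log_prod]
    exact fun p hp h' => h (Finset.prod_eq_zero hp h')

end Pool.Agent.H658R3.PS
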