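import Pool.Agent.H43R3.DG.Stmts

/-!
# `TaskMAX`: a self-centralizing abelian normal subgroup of a finite `p`-group

(Adapted from the starting file `Results/MP_518c18_al/SolubleRank.lean`.)
-/

set_option autoImplicit false

namespace Pool.Agent.H658R3.DGMAX

/-- a nontrivial normal subgroup of a finite `p`-group meets the centre nontrivially -/
theorem meet_center {p : ℕ} [Fact p.Prime] {P : Type*} [Group P] [Finite P] (hP : IsPGroup p P)
    (M : Subgroup P) [hM : M.Normal] (hne : M ≠ ⊥) : ∃ x ∈ M, x ≠ 1 ∧ ∀ g : P, g * x = x * g := by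
  let _ : MulAction P M := MulAction.compHom M (MulAut.conjNormal : P →* MulAut M)
  have hp : p ∣ Nat.card M := by
    have h1 : Nontrivial M := (Subgroup.nontrivial_iff_ne_bot M).2 hne
    obtain ⟨n, hn, h2⟩ := (hP.to_subgroup M).nontrivial_iff_card.1 h1
    rw [h2]
    exact dvd_pow_self p hn.ne'
  have h1 : (1 : M) ∈ MulAction.fixedPoints P M := by
    intro g
    exact map_one (MulAut.conjNormal g : MulAut M)
  obtain ⟨b, hb, hb'⟩ := hP.exists_fixed_point_of_prime_dvd_card_of_fixed_point M hp h1
  refine ⟨b, b.2, ?_, ?_⟩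
  · intro h
    exact hb' (Subtype.ext h.symm)
  · intro g
    have h2 : (MulAut.conjNormal g b : M) = b := hb g
    have h3 : (g * (b : P) * g⁻¹) = b := by
      rw [← MulAut.conjNormal_apply, h2]
    calc g * (b : P) = (g * (b : P) * g⁻¹) * g := by group
      _ = b * g := by rw [h3]

theorem taskMAX : Pool.Agent.H43R3.DG.TaskMAX := by
  intro p _ P _ _ hP
  let S : Set (Subgroup P) := {N | N.Normal ∧ ∀ a ∈ N, ∀ b ∈ N, a * b = b * a}
  have hSne : S.Nonempty := ⟨⊥, inferInstance, by
    intro a ha b hb
    rw [Subgroup.mem_bot] at ha hb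
    rw [ha, hb]⟩
  obtain ⟨N, ⟨hNn, hNc⟩, hNmax⟩ := Set.Finite.exists_maximal S.toFinite hSne
  -- self-centralising
  have hself : Subgroup.centralizer (N : Set P) ≤ N := by
    by_contra hcon
    have hCn : (Subgroup.centralizer (N : Set P)).Normal := by
      constructor
      intro x hx g
      rw [Subgroup.mem_centralizer_iff] at hx ⊢
      intro h hh
      have h4 := hx (g⁻¹ * h * g) (by
        have := hNn.conj_mem h hh g⁻¹
        rwa [inv_inv] at this)
      calc h * (g * x * g⁻¹) = g * ((g⁻¹ * h * g) * x) * g⁻¹ := by group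
        _ = g * (x * (g⁻¹ * h * g)) * g⁻¹ := by rw [h4]
        _ = g * x * g⁻¹ * h := by group
    have hCn' : ((Subgroup.centralizer (N : Set P)).map (QuotientGroup.mk' N)).Normal :=
      hCn.map _ (QuotientGroup.mk'_surjective _)
    have hne : (Subgroup.centralizer (N : Set P)).map (QuotientGroup.mk' N) ≠ ⊥ := by
      intro h
      rw [Subgroup.map_eq_bot_iff, QuotientGroup.ker_mk'] at h
      exact hcon h
    obtain ⟨y, hy, hy1, hy2⟩ := meet_center (hP.to_quotient N) _ hne
    obtain ⟨c, hcC, rfl⟩ := hy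
    let N' : Subgroup P := (Subgroup.zpowers (QuotientGroup.mk' N c)).comap (QuotientGroup.mk' N)
    have hN'n : N'.Normal := by
      have : (Subgroup.zpowers (QuotientGroup.mk' N c)).Normal := by
        constructor
        intro n hn g
        obtain ⟨k, rfl⟩ := Subgroup.mem_zpowers_iff.1 hn
        have h5 : g * (QuotientGroup.mk' N c) ^ k * g⁻¹ = (QuotientGroup.mk' N c) ^ k := by
          have h4 : Commute g ((QuotientGroup.mk' N c) ^ k) :=
            (show Commute g (QuotientGroup.mk' N c) from hy2 g).zpow_right k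
          rw [h4.eq, mul_inv_cancel_right]
        rw [h5]; exact hn
      exact this.comap _
    have hform : ∀ x ∈ N', ∃ n ∈ N, ∃ k : ℤ, x = n * c ^ k := by
      intro x hx
      obtain ⟨k, hk⟩ := Subgroup.mem_zpowers_iff.1 (show QuotientGroup.mk' N x ∈
        Subgroup.zpowers (QuotientGroup.mk' N c) from hx)
      refine ⟨x * (c ^ k)⁻¹, ?_, k, by group⟩
      rw [← QuotientGroup.eq_one_iff]
      show QuotientGroup.mk' N (x * (c ^ k)⁻¹) = 1
      rw [map_mul, map_inv, map_zpow, hk, mul_inv_cancel]
    have hcc : ∀ n ∈ N, Commute n c := by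
      intro n hn
      exact (Subgroup.mem_centralizer_iff.1 hcC n hn)
    have hN'c : ∀ a ∈ N', ∀ b ∈ N', a * b = b * a := by
      intro a ha b hb
      obtain ⟨n, hn, k, rfl⟩ := hform a ha
      obtain ⟨m, hm, l, rfl⟩ := hform b hb
      have e1 : Commute n m := hNc n hn m hm
      have e2 : Commute n (c ^ l) := (hcc n hn).zpow_right l
      have e3 : Commute (c ^ k) m := ((hcc m hm).zpow_right k).symm
      have e4 : Commute (c ^ k) (c ^ l) := (Commute.refl c).zpow_zpow k l
      exact ((e1.mul_right e2).mul_left (e3.mul_right e4)).eq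
    have hle : N ≤ N' := by
      intro x hx
      show QuotientGroup.mk' N x ∈ Subgroup.zpowers (QuotientGroup.mk' N c)
      have : QuotientGroup.mk' N x = 1 := (QuotientGroup.eq_one_iff x).2 hx
      rw [this]; exact Subgroup.one_mem _
    have hge := hNmax ⟨hN'n, hN'c⟩ hle
    apply hy1
    show QuotientGroup.mk' N c = 1
    apply (QuotientGroup.eq_one_iff c).2
    apply hge
    show QuotientGroup.mk' N c ∈ Subgroup.zpowers (QuotientGroup.mk' N c)
    exact Subgroup.mem_zpowers _
  exact ⟨N, hNn, hNc, hself⟩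

end Pool.Agent.H658R3.DGMAX
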