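import Pool.Agent.H647R3.EDef

/-! Mycielski's theorem (task M of project H647-GDS). -/

open Set Topology Filter

namespace Pool.Agent.H658R3.Myc

universe u v
variable {Y : Type u} [MetricSpace Y] {I : Type v}

/-- a family of nonempty open subsets of `O` -/
def Good (O : Set Y) (V : I → Set Y) : Prop :=
  ∀ i, IsOpen (V i) ∧ (V i).Nonempty ∧ V i ⊆ O

theorem pairs [DecidableEq I] {O : Set Y} {W : Set (Y × Y)} (hW : IsOpen W)
    (hd : O ×ˢ O ⊆ closure W) (S : Finset (I × I)) (hS : ∀ p ∈ S, p.1 ≠ p.2)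
    (V : I → Set Y) (hV : Good O V) :
    ∃ V' : I → Set Y, Good O V' ∧ (∀ i, V' i ⊆ V i) ∧ ∀ p ∈ S, V' p.1 ×ˢ V' p.2 ⊆ W := by
  induction S using Finset.induction_on with
  | empty => exact ⟨V, hV, fun _ => subset_rfl, by simp⟩
  | insert p S hp ih =>
    obtain ⟨V', h1, h2, h3⟩ := ih (fun q hq => hS q (Finset.mem_insert_of_mem hq))
    have hne : p.1 ≠ p.2 := hS p (Finset.mem_insert_self _ _)
    obtain ⟨a, ha⟩ := (h1 p.1).2.1
    obtain ⟨b, hb⟩ := (h1 p.2).2.1
    have hmem : (a, b) ∈ closure W := hd ⟨(h1 p.1).2.2 ha, (h1 p.2).2.2 hb⟩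
    have hopen : IsOpen (V' p.1 ×ˢ V' p.2) := (h1 p.1).1.prod (h1 p.2).1
    obtain ⟨⟨c, d⟩, hcd, hcdW⟩ := mem_closure_iff.1 hmem _ hopen ⟨ha, hb⟩
    obtain ⟨A, B, hA, hB, hcA, hdB, hAB⟩ := isOpen_prod_iff.1 (hopen.inter hW) c d ⟨hcd, hcdW⟩
    have hAV : A ⊆ V' p.1 := fun x hx => (hAB (show (x, d) ∈ A ×ˢ B from ⟨hx, hdB⟩)).1.1
    have hBV : B ⊆ V' p.2 := fun x hx => (hAB (show (c, x) ∈ A ×ˢ B from ⟨hcA, hx⟩)).1.2
    have e1 : Function.update (Function.update V' p.1 A) p.2 B p.1 = A := by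
      rw [Function.update_of_ne hne, Function.update_self]
    have e2 : Function.update (Function.update V' p.1 A) p.2 B p.2 = B := by
      rw [Function.update_self]
    have e3 : ∀ i, i ≠ p.1 → i ≠ p.2 →
        Function.update (Function.update V' p.1 A) p.2 B i = V' i := by
      intro i hi1 hi2
      rw [Function.update_of_ne hi2, Function.update_of_ne hi1]
    generalize Function.update (Function.update V' p.1 A) p.2 B = V'' at e1 e2 e3
    have hsub : ∀ i, V'' i ⊆ V' i := by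
      intro i
      by_cases hi1 : i = p.1
      · subst hi1; rw [e1]; exact hAV
      · by_cases hi2 : i = p.2
        · subst hi2; rw [e2]; exact hBV
        · rw [e3 i hi1 hi2]
    refine ⟨V'', ?_, fun i => (hsub i).trans (h2 i), ?_⟩
    · intro i
      by_cases hi1 : i = p.1
      · subst hi1; rw [e1]; exact ⟨hA, ⟨c, hcA⟩, hAV.trans (h1 _).2.2⟩
      · by_cases hi2 : i = p.2
        · subst hi2; rw [e2]; exact ⟨hB, ⟨d, hdB⟩, hBV.trans (h1 _).2.2⟩
        · rw [e3 i hi1 hi2]; exact h1 i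
    · intro q hq
      rcases Finset.mem_insert.1 hq with rfl | hq
      · rw [e1, e2]
        exact fun x hx => (hAB hx).2
      · exact (prod_mono (hsub _) (hsub _)).trans (h3 q hq)

theorem pairsN [DecidableEq I] {O : Set Y} {W : ℕ → Set (Y × Y)} (hW : ∀ n, IsOpen (W n))
    (hd : ∀ n, O ×ˢ O ⊆ closure (W n)) (S : Finset (I × I)) (hS : ∀ p ∈ S, p.1 ≠ p.2)
    (n : ℕ) (V : I → Set Y) (hV : Good O V) :
    ∃ V' : I → Set Y, Good O V' ∧ (∀ i, V' i ⊆ V i) ∧
      ∀ k < n, ∀ p ∈ S, V' p.1 ×ˢ V' p.2 ⊆ W k := by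
  induction n with
  | zero => exact ⟨V, hV, fun _ => subset_rfl, by simp⟩
  | succ n ih =>
    obtain ⟨V', h1, h2, h3⟩ := ih
    obtain ⟨V'', g1, g2, g3⟩ := pairs (hW n) (hd n) S hS V' h1
    refine ⟨V'', g1, fun i => (g2 i).trans (h2 i), ?_⟩
    intro k hk p hp
    rcases Nat.lt_succ_iff_lt_or_eq.1 hk with hk | rfl
    · exact (prod_mono (g2 _) (g2 _)).trans (h3 k hk p hp)
    · exact g3 p hp

theorem singlesN {O : Set Y} {D : ℕ → Set Y} (hD : ∀ n, IsOpen (D n))
    (hd : ∀ n, O ⊆ closure (D n)) (n : ℕ) (V : I → Set Y) (hV : Good O V) :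
    ∃ V' : I → Set Y, Good O V' ∧ (∀ i, V' i ⊆ V i) ∧ ∀ k < n, ∀ i, V' i ⊆ D k := by
  induction n with
  | zero => exact ⟨V, hV, fun _ => subset_rfl, by simp⟩
  | succ n ih =>
    obtain ⟨V', h1, h2, h3⟩ := ih
    refine ⟨fun i => V' i ∩ D n, ?_, fun i => inter_subset_left.trans (h2 i), ?_⟩
    · intro i
      obtain ⟨a, ha⟩ := (h1 i).2.1
      refine ⟨(h1 i).1.inter (hD n), ?_, inter_subset_left.trans (h1 i).2.2⟩
      exact mem_closure_iff.1 (hd n ((h1 i).2.2 ha)) _ (h1 i).1 ha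
    · intro k hk i
      rcases Nat.lt_succ_iff_lt_or_eq.1 hk with hk | rfl
      · exact inter_subset_left.trans (h3 k hk i)
      · exact inter_subset_right

theorem shrink {O : Set Y} {ε : ℝ} (hε : 0 < ε) (V : I → Set Y) (hV : Good O V) :
    ∃ V' : I → Set Y, Good O V' ∧ (∀ i, closure (V' i) ⊆ V i) ∧
      ∀ i, Metric.ediam (V' i) ≤ ENNReal.ofReal ε := by
  have : ∀ i, ∃ U : Set Y, IsOpen U ∧ U.Nonempty ∧ closure U ⊆ V i ∧
      Metric.ediam U ≤ ENNReal.ofReal ε := by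
    intro i
    obtain ⟨a, ha⟩ := (hV i).2.1
    obtain ⟨r, hr, hrV⟩ := Metric.isOpen_iff.1 (hV i).1 a ha
    have hs : 0 < min (r / 2) (ε / 2) := by positivity
    refine ⟨Metric.ball a (min (r / 2) (ε / 2)), Metric.isOpen_ball,
      ⟨a, Metric.mem_ball_self hs⟩, ?_, ?_⟩
    · refine (Metric.closure_ball_subset_closedBall).trans ?_
      refine (Metric.closedBall_subset_ball ?_).trans hrV
      exact (min_le_left _ _).trans_lt (by linarith)
    · rw [Metric.ediam_le_iff]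
      intro x hx y hy
      rw [edist_dist]
      apply ENNReal.ofReal_le_ofReal
      rw [Metric.mem_ball] at hx hy
      have h1 := dist_triangle_right x y a
      have h2 : min (r / 2) (ε / 2) ≤ ε / 2 := min_le_right _ _
      linarith
  choose U h1 h2 h3 h4 using this
  exact ⟨U, fun i => ⟨h1 i, h2 i, (subset_closure.trans (h3 i)).trans (hV i).2.2⟩, h3, h4⟩

theorem step {O : Set Y} (hO : IsOpen O) (hOne : O.Nonempty)
    {D : ℕ → Set Y} (hD : ∀ n, IsOpen (D n)) (hDd : ∀ n, O ⊆ closure (D n))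
    {W : ℕ → Set (Y × Y)} (hW : ∀ n, IsOpen (W n)) (hWd : ∀ n, O ×ˢ O ⊆ closure (W n))
    (n : ℕ) (V : List Bool → Set Y) (hV : Good O V) :
    ∃ V' : List Bool → Set Y, Good O V' ∧ (∀ b l, closure (V' (b :: l)) ⊆ V l) ∧
      (∀ l, Metric.ediam (V' l) ≤ ENNReal.ofReal ((1 / 2 : ℝ) ^ n)) ∧
      (∀ k < n + 1, ∀ l, V' l ⊆ D k) ∧
      (∀ k < n + 1, ∀ l l' : List Bool, l.length = n + 1 → l'.length = n + 1 → l ≠ l' →
        V' l ×ˢ V' l' ⊆ W k) := by
  classical
  let V0 : List Bool → Set Y := fun l => match l with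
    | [] => O
    | (_ :: l) => V l
  have hV0 : Good O V0 := by
    intro l
    cases l with
    | nil => exact ⟨hO, hOne, subset_rfl⟩
    | cons b l => exact hV l
  have hfin : {p : List Bool × List Bool | (p.1.length = n + 1 ∧ p.2.length = n + 1) ∧
      p.1 ≠ p.2}.Finite := by
    refine Finite.subset ((List.finite_length_eq Bool (n + 1)).prod
      (List.finite_length_eq Bool (n + 1))) ?_
    intro p hp
    exact ⟨hp.1.1, hp.1.2⟩
  obtain ⟨V1, a1, a2, a3⟩ := pairsN hW hWd hfin.toFinset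
    (fun p hp => (hfin.mem_toFinset.1 hp).2) (n + 1) V0 hV0
  obtain ⟨V2, b1, b2, b3⟩ := singlesN hD hDd (n + 1) V1 a1
  obtain ⟨V3, c1, c2, c3⟩ := shrink (ε := (1 / 2 : ℝ) ^ n) (by positivity) V2 b1
  have c2' : ∀ i, V3 i ⊆ V2 i := fun i => subset_closure.trans (c2 i)
  refine ⟨V3, c1, ?_, c3, ?_, ?_⟩
  · intro b l
    exact ((c2 _).trans (b2 _)).trans (a2 (b :: l))
  · intro k hk l
    exact (c2' l).trans (b3 k hk l)
  · intro k hk l l' hl hl' hne
    exact (prod_mono ((c2' l).trans (b2 l)) ((c2' l').trans (b2 l'))).trans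
      (a3 k hk (l, l') (hfin.mem_toFinset.2 ⟨⟨hl, hl'⟩, hne⟩))

open CantorScheme PiNat in
theorem mycielski [CompleteSpace Y] {O : Set Y} (hO : IsOpen O) (hOne : O.Nonempty)
    {D : ℕ → Set Y} (hD : ∀ n, IsOpen (D n)) (hDd : ∀ n, O ⊆ closure (D n))
    {W : ℕ → Set (Y × Y)} (hW : ∀ n, IsOpen (W n)) (hWd : ∀ n, O ×ˢ O ⊆ closure (W n)) :
    ∃ z : (ℕ → Bool) → Y, Continuous z ∧ (∀ σ, z σ ∈ O) ∧ (∀ σ n, z σ ∈ D n) ∧
      (∀ σ σ', σ ≠ σ' → ∀ n, (z σ, z σ') ∈ W n) := by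
  choose! N h1 h2 h3 h4 h5 using
    fun n (V : List Bool → Set Y) (hV : Good O V) => step hO hOne hD hDd hW hWd n V hV
  let F : ℕ → List Bool → Set Y := fun n => Nat.rec (fun _ => O) (fun n V => N n V) n
  have hF : ∀ n, Good O (F n) := by
    intro n
    induction n with
    | zero => exact fun l => ⟨hO, hOne, subset_rfl⟩
    | succ n ih => exact h1 n (F n) ih
  let A : List Bool → Set Y := fun l => F l.length l
  have hA1 : ∀ x : ℕ → Bool, ∀ n, A (res x (n + 1)) = N n (F n) (res x (n + 1)) := by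
    intro x n
    show F (res x (n + 1)).length _ = _
    rw [res_length]
  have hanti : ClosureAntitone A := by
    intro l a
    exact h2 l.length (F l.length) (hF _) a l
  have hdiam : VanishingDiam A := by
    intro x
    have hlim : Tendsto (fun n : ℕ => ENNReal.ofReal ((1 / 2 : ℝ) ^ n)) atTop (𝓝 0) := by
      rw [← ENNReal.ofReal_zero]
      exact (ENNReal.continuous_ofReal.tendsto 0).comp
        (tendsto_pow_atTop_nhds_zero_of_lt_one (by norm_num) (by norm_num))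
    rw [← tendsto_add_atTop_iff_nat 1]
    refine tendsto_of_tendsto_of_tendsto_of_le_of_le tendsto_const_nhds hlim
      (fun n => zero_le) ?_
    intro n
    show Metric.ediam (A (res x (n + 1))) ≤ _
    rw [hA1]
    exact h3 n (F n) (hF n) _
  have hne : ∀ l, (A l).Nonempty := fun l => (hF l.length l).2.1
  have hdom : ∀ {x : ℕ → Bool}, x ∈ (inducedMap A).1 := fun {x} => by
    rw [hanti.map_of_vanishingDiam hdiam hne]
    apply mem_univ
  have hz : ∀ σ n, (inducedMap A).2 ⟨σ, hdom⟩ ∈ A (res σ n) := fun σ n => map_mem ⟨σ, hdom⟩ n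
  refine ⟨fun x => (inducedMap A).2 ⟨x, hdom⟩, ?_, ?_, ?_, ?_⟩
  · apply hdiam.map_continuous.comp
    fun_prop
  · intro σ
    exact (hF 0 []).2.2 (hz σ 0)
  · intro σ n
    have := hz σ (n + 1)
    rw [hA1] at this
    exact h4 n (F n) (hF n) n (Nat.lt_succ_self n) _ this
  · intro σ σ' hne n
    set m := max n (firstDiff σ σ') with hm
    have e1 := hz σ (m + 1)
    have e2 := hz σ' (m + 1)
    rw [hA1] at e1 e2
    refine h5 m (F m) (hF m) n (Nat.lt_succ_of_le (le_max_left _ _)) _ _ (res_length _ _)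
      (res_length _ _) ?_ ⟨e1, e2⟩
    intro h
    rw [res_eq_res] at h
    exact apply_firstDiff_ne hne (h (Nat.lt_succ_of_le (le_max_right _ _)))

end Pool.Agent.H658R3.Myc

namespace Pool.Agent.H658R3

universe u

theorem taskM : H647R3.GDS.TaskM.{u} := by
  intro Y _ _ O hO hOne D hD hDd W hW hWd
  exact Myc.mycielski hO hOne hD hDd hW hWd

end Pool.Agent.H658R3
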