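import Mathlib

set_option autoImplicit false
set_option linter.style.haveILetI false
set_option linter.unusedSectionVars false

open Filter Topology
open scoped Manifold ContDiff

noncomputable section

namespace H658.LG

variable {A : Type} [NormedRing A] [NormedAlgebra ℝ A] [FiniteDimensional ℝ A] [CompleteSpace A]

theorem exp_cont : Continuous (NormedSpace.exp : A → A) :=
  continuous_iff_continuousAt.2 fun x => (NormedSpace.exp_analytic (𝕂 := ℝ) x).continuousAt

/-- analytic logarithm near the identity -/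
theorem exists_log : ∃ (Λ : A → A) (S T : Set A), IsOpen S ∧ (0 : A) ∈ S ∧ IsOpen T ∧ (1 : A) ∈ T ∧
    (∀ y ∈ T, ContDiffAt ℝ ω Λ y) ∧ (∀ X ∈ S, Λ (NormedSpace.exp X) = X) ∧
    (∀ y ∈ T, Λ y ∈ S ∧ NormedSpace.exp (Λ y) = y) := by
  have hf : ContDiffAt ℝ ω (NormedSpace.exp : A → A) 0 :=
    (NormedSpace.exp_analytic (𝕂 := ℝ) (0 : A)).contDiffAt
  have hf' : HasFDerivAt (NormedSpace.exp : A → A)
      ((ContinuousLinearEquiv.refl ℝ A : A ≃L[ℝ] A) : A →L[ℝ] A) 0 :=
    hasFDerivAt_exp_zero (𝕂 := ℝ)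
  let Φ := hf.toOpenPartialHomeomorph _ hf' (by simp)
  have hΦ : ∀ x, Φ x = NormedSpace.exp x := fun x => rfl
  have h0 : (0 : A) ∈ Φ.source := hf.mem_toOpenPartialHomeomorph_source hf' (by simp)
  have h1 : (1 : A) ∈ Φ.target := by
    have := Φ.map_source h0
    rwa [hΦ, NormedSpace.exp_zero] at this
  have hΛ1 : ContDiffAt ℝ ω Φ.symm (1 : A) := by
    have h2 : Φ.symm 1 = 0 := by
      have := Φ.left_inv h0
      rwa [hΦ, NormedSpace.exp_zero] at this
    refine Φ.contDiffAt_symm h1 (f₀' := ContinuousLinearEquiv.refl ℝ A) ?_ ?_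
    · rw [h2]; exact hf'
    · rw [h2]; exact hf
  have hev := hΛ1.eventually (by simp)
  obtain ⟨T0, hT0, hT0o, h1T0⟩ := eventually_nhds_iff.1 hev
  refine ⟨Φ.symm, Φ.source, T0 ∩ Φ.target, Φ.open_source, h0, hT0o.inter Φ.open_target, ⟨h1T0, h1⟩,
    fun y hy => hT0 y hy.1, fun X hX => ?_, fun y hy => ⟨Φ.map_target hy.2, ?_⟩⟩
  · exact Φ.left_inv hX
  · exact Φ.right_inv hy.2

variable {G : Type} [Group G] [TopologicalSpace G] [IsTopologicalGroup G]

/-- A topological group with an embedding into a finite-dimensional algebra for which the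
exponential map of a subspace `V` is locally surjective is a real analytic Lie group. -/
theorem exists_lieGroup (ρ : G →* A) (hρ : IsInducing ρ) (hinj : Function.Injective ρ)
    (V : Submodule ℝ A) (hV : ∀ X ∈ V, ∃ g : G, ρ g = NormedSpace.exp X)
    (hloc : ∀ W ∈ 𝓝 (0 : A), ∃ O ∈ 𝓝 (1 : G), ∀ u ∈ O, ∃ X ∈ V, X ∈ W ∧ NormedSpace.exp X = ρ u) :
    ∃ _ : ChartedSpace V G, LieGroup 𝓘(ℝ, V) ω G := by
  classical
  obtain ⟨Λ, S, T, hS, h0S, hT, h1T, hΛ, hΛe, heΛ⟩ := exists_log (A := A)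
  obtain ⟨P0, hP0⟩ := V.subtype.exists_leftInverse_of_injective (by
    rw [LinearMap.ker_eq_bot]; exact V.injective_subtype)
  let P : A →L[ℝ] V := LinearMap.toContinuousLinearMap P0
  have hP : ∀ X : V, P (X : A) = X := fun X => LinearMap.congr_fun hP0 X
  choose inv hinv using fun X : V => hV X X.2
  have hexpc : Continuous fun X : V => NormedSpace.exp (X : A) :=
    exp_cont.comp continuous_subtype_val
  have hinvc : Continuous inv := by
    rw [hρ.continuous_iff]
    have : ρ ∘ inv = fun X : V => NormedSpace.exp (X : A) := funext hinv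
    rw [this]
    exact hexpc
  obtain ⟨O, hO, hOX⟩ := hloc (S ∩ NormedSpace.exp ⁻¹' T) (by
    refine inter_mem (hS.mem_nhds h0S) ?_
    have hc : ContinuousAt (NormedSpace.exp : A → A) 0 := exp_cont.continuousAt
    apply hc
    rw [NormedSpace.exp_zero]
    exact hT.mem_nhds h1T)
  obtain ⟨O1, hO1O, hO1o, h1O1⟩ := mem_nhds_iff.1 hO
  let O' : Set G := O1 ∩ ρ ⁻¹' T
  have hO'o : IsOpen O' := hO1o.inter (hT.preimage hρ.continuous)
  have h1O' : (1 : G) ∈ O' := ⟨h1O1, by
    change ρ 1 ∈ T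
    rw [map_one]; exact h1T⟩
  -- the logarithm of elements of `O'`
  have hlog : ∀ u ∈ O', ∃ X : V, Λ (ρ u) = X ∧ (X : A) ∈ S ∧ inv X = u := by
    intro u hu
    obtain ⟨X, hXV, hXS, hXu⟩ := hOX u (hO1O hu.1)
    refine ⟨⟨X, hXV⟩, ?_, hXS.1, ?_⟩
    · rw [← hXu]; exact hΛe X hXS.1
    · apply hinj
      rw [hinv]
      exact hXu
  let φ : OpenPartialHomeomorph G V :=
    { toFun := fun u => P (Λ (ρ u))
      invFun := inv
      source := O'
      target := {X : V | (X : A) ∈ S ∧ inv X ∈ O'}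
      map_source' := by
        intro u hu
        obtain ⟨X, hX, hXS, hXu⟩ := hlog u hu
        have : P (Λ (ρ u)) = X := by rw [hX, hP]
        change ((P (Λ (ρ u)) : V) : A) ∈ S ∧ inv (P (Λ (ρ u))) ∈ O'
        rw [this]
        exact ⟨hXS, by rw [hXu]; exact hu⟩
      map_target' := fun X hX => hX.2
      left_inv' := by
        intro u hu
        obtain ⟨X, hX, hXS, hXu⟩ := hlog u hu
        have : P (Λ (ρ u)) = X := by rw [hX, hP]
        change inv (P (Λ (ρ u))) = u
        rw [this, hXu]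
      right_inv' := by
        intro X hX
        change P (Λ (ρ (inv X))) = X
        rw [hinv, hΛe _ hX.1, hP]
      open_source := hO'o
      open_target := (hS.preimage continuous_subtype_val).inter (hO'o.preimage hinvc)
      continuousOn_toFun := by
        intro u hu
        refine ContinuousAt.continuousWithinAt ?_
        have h1 : ContinuousAt Λ (ρ u) := (hΛ (ρ u) hu.2).continuousAt
        exact P.continuous.continuousAt.comp (h1.comp hρ.continuous.continuousAt)
      continuousOn_invFun := hinvc.continuousOn }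
  have hφ : ∀ u, φ u = P (Λ (ρ u)) := fun u => rfl
  have hφs : ∀ X, φ.symm X = inv X := fun u => rfl
  have hφsrc : φ.source = O' := rfl
  let ch : G → OpenPartialHomeomorph G V := fun g =>
    (Homeomorph.mulLeft g⁻¹).toOpenPartialHomeomorph.trans φ
  have hch : ∀ g u, ch g u = P (Λ (ρ (g⁻¹ * u))) := fun g u => rfl
  have hchs : ∀ g X, (ch g).symm X = g * inv X := by
    intro g X
    change (Homeomorph.mulLeft g⁻¹).symm (φ.symm X) = g * inv X
    rw [hφs]
    simp [Homeomorph.mulLeft]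
  have hsrc : ∀ g u, u ∈ (ch g).source ↔ g⁻¹ * u ∈ O' := by
    intro g u
    simp [ch, hφsrc]
  have hmem : ∀ g, g ∈ (ch g).source := by
    intro g
    rw [hsrc, inv_mul_cancel]
    exact h1O'
  let cs : ChartedSpace V G :=
    { atlas := Set.range ch
      chartAt := ch
      mem_chart_source := hmem
      chart_mem_atlas := fun g => ⟨g, rfl⟩ }
  refine ⟨cs, ?_⟩
  have hexp : ∀ X : A, ContDiffAt ℝ ω (NormedSpace.exp : A → A) X := fun X =>
    (NormedSpace.exp_analytic (𝕂 := ℝ) X).contDiffAt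
  have hexpV : ∀ X : V, ContDiffAt ℝ ω (fun X : V => NormedSpace.exp (X : A)) X := fun X =>
    (hexp X).comp X (V.subtypeL.contDiff.contDiffAt)
  have hman : IsManifold 𝓘(ℝ, V) ω G := by
    apply isManifold_of_contDiffOn
    rintro _ _ ⟨g, rfl⟩ ⟨h, rfl⟩
    intro X hX
    apply ContDiffAt.contDiffWithinAt
    have hX' : (ch h).source ((ch g).symm X) := by
      have h1 : X ∈ ((ch g).symm ≫ₕ ch h).source := hX.1
      rw [OpenPartialHomeomorph.trans_source] at h1
      exact h1.2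
    have hX2 : h⁻¹ * (g * inv X) ∈ O' := by
      rw [← hchs, ← hsrc]
      exact hX'
    have hfun : (𝓘(ℝ, V) ∘ (ch g).symm ≫ₕ ch h ∘ 𝓘(ℝ, V).symm : V → V) =
        fun X : V => P (Λ (ρ (h⁻¹ * g) * NormedSpace.exp (X : A))) := by
      funext X
      change ch h ((ch g).symm X) = _
      rw [hchs, hch, ← mul_assoc, map_mul, hinv]
    rw [hfun]
    have h3 : ContDiffAt ℝ ω (fun X : V => ρ (h⁻¹ * g) * NormedSpace.exp (X : A)) X :=
      contDiffAt_const.mul (hexpV X)
    have h4 : ContDiffAt ℝ ω Λ (ρ (h⁻¹ * g) * NormedSpace.exp (X : A)) := by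
      apply hΛ
      rw [← hinv, ← map_mul, mul_assoc]
      exact hX2.2
    exact P.contDiff.contDiffAt.comp X (h4.comp X h3)
  -- the embedding is analytic
  have hρs : ContMDiff 𝓘(ℝ, V) 𝓘(ℝ, A) ω ρ := by
    intro g
    have h1 : ContMDiffAt 𝓘(ℝ, V) 𝓘(ℝ, V) ω (ch g) g :=
      contMDiffAt_of_mem_maximalAtlas (IsManifold.subset_maximalAtlas ⟨g, rfl⟩) (hmem g)
    have h2 : ContMDiffAt 𝓘(ℝ, V) 𝓘(ℝ, A) ω (fun X : V => ρ g * NormedSpace.exp (X : A)) (ch g g) :=
      (contDiffAt_const.mul (hexpV _)).contMDiffAt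
    have h3 := ContMDiffAt.comp g h2 h1
    refine h3.congr_of_eventuallyEq ?_
    filter_upwards [(ch g).open_source.mem_nhds (hmem g)] with u hu
    obtain ⟨X, hX, hXS, hXu⟩ := hlog _ ((hsrc g u).1 hu)
    change ρ u = ρ g * NormedSpace.exp ((P (Λ (ρ (g⁻¹ * u))) : V) : A)
    rw [hX, hP, ← hinv, hXu, ← map_mul, mul_inv_cancel_left]
  -- maps into the group
  have hinto : ∀ {E' H' M : Type} [NormedAddCommGroup E'] [NormedSpace ℝ E'] [TopologicalSpace H']
      (I' : ModelWithCorners ℝ E' H') [TopologicalSpace M] [ChartedSpace H' M] (f : M → G),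
      Continuous f → ContMDiff I' 𝓘(ℝ, A) ω (ρ ∘ f) → ContMDiff I' 𝓘(ℝ, V) ω f := by
    intro E' H' M _ _ _ I' _ _ f hf hρf m
    rw [contMDiffAt_iff_target]
    refine ⟨hf.continuousAt, ?_⟩
    have hfun : (extChartAt 𝓘(ℝ, V) (f m) ∘ f) = (fun y : A => P (Λ (ρ (f m)⁻¹ * y))) ∘ (ρ ∘ f) := by
      funext x
      change ch (f m) (f x) = P (Λ (ρ (f m)⁻¹ * ρ (f x)))
      rw [hch, map_mul]
    rw [hfun]
    refine ContMDiffAt.comp m ?_ (hρf m)
    apply ContDiffAt.contMDiffAt
    have h4 : ContDiffAt ℝ ω Λ (ρ (f m)⁻¹ * (ρ ∘ f) m) := by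
      apply hΛ
      change ρ (f m)⁻¹ * ρ (f m) ∈ T
      rw [← map_mul, inv_mul_cancel, map_one]
      exact h1T
    have h5 : ContDiffAt ℝ ω (fun y : A => ρ (f m)⁻¹ * y) ((ρ ∘ f) m) :=
      contDiffAt_const.mul contDiffAt_id
    exact P.contDiff.contDiffAt.comp _ (h4.comp _ h5)
  refine { toIsManifold := hman, contMDiff_mul := ?_, contMDiff_inv := ?_ }
  · apply hinto _ _ continuous_mul
    have h1 : (ρ ∘ fun p : G × G => p.1 * p.2) = (fun q : A × A => q.1 * q.2) ∘
        fun p : G × G => (ρ p.1, ρ p.2) := by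
      funext p
      exact map_mul ρ _ _
    rw [h1]
    exact (contDiff_mul.contMDiff).comp ((hρs.comp contMDiff_fst).prodMk_space (hρs.comp contMDiff_snd))
  · apply hinto _ _ continuous_inv
    have h1 : (ρ ∘ fun g : G => g⁻¹) = Ring.inverse ∘ ρ := by
      funext g
      let u : Aˣ := ⟨ρ g, ρ g⁻¹, by rw [← map_mul, mul_inv_cancel, map_one],
        by rw [← map_mul, inv_mul_cancel, map_one]⟩
      change ρ g⁻¹ = Ring.inverse (u : A)
      rw [Ring.inverse_unit]
      rfl
    rw [h1]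
    intro g
    refine ContMDiffAt.comp g ?_ (hρs g)
    apply ContDiffAt.contMDiffAt
    let u : Aˣ := ⟨ρ g, ρ g⁻¹, by rw [← map_mul, mul_inv_cancel, map_one],
        by rw [← map_mul, inv_mul_cancel, map_one]⟩
    exact contDiffAt_ringInverse ℝ u

end H658.LG
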