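import Pool.Agent.H658R3.LG
import Pool.Agent.Helper472.Lat_CST1
import Pool.Agent.Helper472.Lat_CST2

set_option autoImplicit false
set_option linter.style.haveILetI false
set_option linter.unusedSectionVars false

open Filter Topology
open scoped Manifold ContDiff

noncomputable section

namespace H658.LG

open Pool.LatH472

variable {G : Type} [Group G] [TopologicalSpace G] [IsTopologicalGroup G]

/-- the Lie algebra as a subspace -/
def lieSub {n : ℕ} (L : Subgroup (Matrix.unitaryGroup (Fin n) ℂ))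
    (hL : IsClosed (L : Set (Matrix.unitaryGroup (Fin n) ℂ))) :
    Submodule ℝ (Matrix (Fin n) (Fin n) ℂ) where
  carrier := LieAlg L
  add_mem' := fun {X Y} hX hY => (CST1 (Fin n) L hL X hX Y hY).1
  zero_mem' := ⟨by simp, fun t => ⟨1, one_mem _, by
    rw [smul_zero, NormedSpace.exp_zero]; rfl⟩⟩
  smul_mem' := by
    rintro c X ⟨hX1, hX2⟩
    refine ⟨by rw [Matrix.conjTranspose_smul, hX1, star_trivial, smul_neg], fun t => ?_⟩
    obtain ⟨u, hu, hu2⟩ := hX2 (t * c)
    exact ⟨u, hu, by rw [hu2, smul_smul]⟩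

/-- compact linear groups are real analytic Lie groups -/
theorem lieGroup_of_closedEmbedding (n : ℕ) (ρ : G →* Matrix.unitaryGroup (Fin n) ℂ)
    (hρ : IsClosedEmbedding ρ) :
    ∃ (E : Type) (_ : NormedAddCommGroup E) (_ : NormedSpace ℝ E) (_ : FiniteDimensional ℝ E)
      (_ : ChartedSpace E G), LieGroup 𝓘(ℝ, E) ω G := by
  have hL : IsClosed ((ρ.range : Subgroup (Matrix.unitaryGroup (Fin n) ℂ)) :
      Set (Matrix.unitaryGroup (Fin n) ℂ)) := by
    rw [MonoidHom.coe_range]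
    exact hρ.isClosed_range
  let V := lieSub ρ.range hL
  let ρ' : G →* Matrix (Fin n) (Fin n) ℂ := (Matrix.unitaryGroup (Fin n) ℂ).subtype.comp ρ
  have hρ' : IsInducing ρ' := IsInducing.subtypeVal.comp hρ.isInducing
  have hinj : Function.Injective ρ' := Subtype.val_injective.comp hρ.injective
  have hV : ∀ X ∈ V, ∃ g : G, ρ' g = NormedSpace.exp X := by
    rintro X ⟨hX1, hX2⟩
    obtain ⟨u, ⟨g, rfl⟩, hu⟩ := hX2 1
    refine ⟨g, ?_⟩
    rw [one_smul] at hu
    exact hu
  have hloc : ∀ W ∈ 𝓝 (0 : Matrix (Fin n) (Fin n) ℂ), ∃ O ∈ 𝓝 (1 : G), ∀ u ∈ O, ∃ X ∈ V,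
      X ∈ W ∧ NormedSpace.exp X = ρ' u := by
    intro W hW
    obtain ⟨O, hO, h⟩ := CST2 CST1 (Fin n) ρ.range hL W hW
    refine ⟨ρ ⁻¹' O, ?_, fun u hu => ?_⟩
    · apply hρ.continuous.continuousAt
      rw [map_one]
      exact hO
    · exact h (ρ u) ⟨u, rfl⟩ hu
  letI iR : NormedRing (Matrix (Fin n) (Fin n) ℂ) := Matrix.linftyOpNormedRing
  letI iA : NormedAlgebra ℝ (Matrix (Fin n) (Fin n) ℂ) := Matrix.linftyOpNormedAlgebra
  have h := @exists_lieGroup (Matrix (Fin n) (Fin n) ℂ) iR iA inferInstance inferInstance G _ _ _ ρ'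
    hρ' hinj V hV hloc
  exact ⟨V, inferInstance, inferInstance, inferInstance, h⟩

end H658.LG
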