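import Pool.Agent.H505R3.SLM.Stmts

/-!
# The numbers for multiples of the permanent: `TaskE`
-/

set_option autoImplicit false

namespace Pool.Agent.H658R3.SLM

theorem numE (N : ℕ) (hN : 2 ^ 24 ≤ N) : ∃ a p : ℕ, 2 ≤ a ∧
  N = (a + a) * (4 * a + a) + a * (2 * a + a + 2) + (3 * a + a + 1) + p ∧
  ∀ m : ℕ, (a - 1) ^ (a * ((a + a) * (a * a)) - 2) ≤ 2 ^ (3 * m) * 3 ^ (a * ((a + a) * (a * a))) →
    N ^ 2 * Nat.log 2 N ≤ 1000 * m := by
  obtain ⟨b, hb⟩ : ∃ b, b = Nat.sqrt (N / 13) := ⟨_, rfl⟩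
  have hb1 : b * b ≤ N / 13 := by rw [hb]; exact Nat.sqrt_le _
  have hb2 : N / 13 < (b + 1) * (b + 1) := by rw [hb]; exact Nat.lt_succ_sqrt _
  have hb3 : 1136 ≤ b := by
    by_contra h
    push Not at h
    have : (b + 1) * (b + 1) ≤ 1136 * 1136 := Nat.mul_le_mul (by omega) (by omega)
    omega
  obtain ⟨a, rfl⟩ : ∃ a, b = a + 1 := ⟨b - 1, by omega⟩
  have ha : 1135 ≤ a := by omega
  have hN1 : 13 * ((a + 1) * (a + 1)) ≤ N := by omega
  have hN2 : N < 13 * ((a + 2) * (a + 2)) := by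
    have : (a + 1 + 1) * (a + 1 + 1) = (a + 2) * (a + 2) := by ring
    omega
  have e1 : (a + a) * (4 * a + a) + a * (2 * a + a + 2) + (3 * a + a + 1) =
      13 * (a * a) + 6 * a + 1 := by
    ring
  have e2 : 13 * ((a + 1) * (a + 1)) = 13 * (a * a) + 26 * a + 13 := by ring
  refine ⟨a, N - (13 * (a * a) + 6 * a + 1), by omega, by rw [e1]; omega, fun m hm => ?_⟩
  obtain ⟨ℓ, hℓ⟩ : ∃ ℓ, ℓ = Nat.log 2 (a - 1) := ⟨_, rfl⟩
  have h1 : 2 ^ ℓ ≤ a - 1 := by rw [hℓ]; exact Nat.pow_log_le_self 2 (by omega)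
  have h2 : a - 1 < 2 ^ (ℓ + 1) := by rw [hℓ]; exact Nat.lt_pow_succ_log_self (by norm_num) _
  have h3 : 10 ≤ ℓ := by
    by_contra h
    push Not at h
    have : 2 ^ (ℓ + 1) ≤ 2 ^ 10 := Nat.pow_le_pow_right (by norm_num) (by omega)
    omega
  have e3 : a * ((a + a) * (a * a)) = 2 * (a * (a * (a * a))) := by ring
  obtain ⟨E, hE⟩ : ∃ E, E = a * ((a + a) * (a * a)) := ⟨_, rfl⟩
  rw [← hE] at hm
  have hE3 : E = 2 * (a * (a * (a * a))) := by rw [hE, e3]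
  have hE2 : 1135 ≤ E := by
    have : 1 ≤ a * (a * a) := Nat.one_le_iff_ne_zero.2 (by positivity)
    have : a * 1 ≤ a * (a * (a * a)) := Nat.mul_le_mul_left _ this
    omega
  have h4 : ℓ * (E - 2) ≤ 3 * m + 2 * E := by
    have h5 : 2 ^ (ℓ * (E - 2)) ≤ 2 ^ (3 * m + 2 * E) := by
      rw [pow_mul, pow_add, pow_mul 2 2 E]
      refine (Nat.pow_le_pow_left h1 _).trans (hm.trans (Nat.mul_le_mul_left _ ?_))
      exact Nat.pow_le_pow_left (by norm_num) _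
    exact (Nat.pow_le_pow_iff_right (by norm_num)).mp h5
  have h5 : ℓ * E ≤ 3 * m + 2 * E + 2 * ℓ := by
    obtain ⟨F, hF⟩ : ∃ F, E = F + 2 := ⟨E - 2, by omega⟩
    have : E - 2 = F := by omega
    rw [this] at h4
    have e : ℓ * E = ℓ * F + 2 * ℓ := by rw [hF]; ring
    omega
  have h7 : N < 2 ^ (2 * ℓ + 6) := by
    obtain ⟨x, hx⟩ : ∃ x, x = 2 ^ (ℓ + 1) := ⟨_, rfl⟩
    have hx1 : 2048 ≤ x := by
      have : 2 ^ 11 ≤ 2 ^ (ℓ + 1) := Nat.pow_le_pow_right (by norm_num) (by omega)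
      omega
    have h6 : a + 2 ≤ x + 2 := by omega
    calc N < 13 * ((a + 2) * (a + 2)) := hN2
      _ ≤ 13 * ((x + 2) * (x + 2)) := Nat.mul_le_mul_left _ (Nat.mul_le_mul h6 h6)
      _ ≤ 16 * (x * x) := by
          have e4 : (x + 2) * (x + 2) = x * x + 4 * x + 4 := by ring
          have : 2048 * x ≤ x * x := Nat.mul_le_mul_right _ hx1
          omega
      _ = 2 ^ (2 * ℓ + 6) := by
          rw [hx, show (16 : ℕ) = 2 ^ 4 by norm_num, ← pow_add, ← pow_add]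
          congr 1
          ring
  have h8 : Nat.log 2 N ≤ 2 * ℓ + 5 := by
    have := Nat.log_lt_of_lt_pow (by omega : N ≠ 0) h7
    omega
  have h9 : 57 * ((a + 2) * (a + 2)) ≤ 58 * (a * a) := by
    have : 1135 * a ≤ a * a := Nat.mul_le_mul_right _ ha
    have e : (a + 2) * (a + 2) = a * a + 4 * a + 4 := by ring
    omega
  have h10 : N ^ 2 ≤ 88 * E := by
    have h11 : 57 * N ≤ 13 * (58 * (a * a)) := by omega
    have h12 : (57 * N) * (57 * N) ≤ (13 * (58 * (a * a))) * (13 * (58 * (a * a))) :=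
      Nat.mul_le_mul h11 h11
    have e3 : (57 * N) * (57 * N) = 3249 * N ^ 2 := by ring
    have e4 : (13 * (58 * (a * a))) * (13 * (58 * (a * a))) = 568516 * (a * (a * (a * a))) := by
      ring
    rw [e3, e4] at h12
    omega
  have h13 : N ^ 2 * Nat.log 2 N ≤ (88 * E) * (2 * ℓ + 5) := Nat.mul_le_mul h10 h8
  have e5 : (88 * E) * (2 * ℓ + 5) = 176 * (ℓ * E) + 440 * E := by ring
  have h14 : 10 * E ≤ ℓ * E := Nat.mul_le_mul_right _ h3
  have h15 : ℓ * 1135 ≤ ℓ * E := Nat.mul_le_mul_left _ hE2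
  omega

theorem taskE : Pool.Agent.H505R3.SLM.TaskE := fun N hN => numE N hN

end Pool.Agent.H658R3.SLM
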