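import Pool.Agent.H645R3.MC1
import Pool.Agent.Helper472.Lat_NSS

set_option autoImplicit false
set_option linter.style.haveILetI false
set_option linter.unusedSectionVars false

open Filter Topology Pointwise

noncomputable section

namespace H658.ZM

open H645.MC

variable {K : Type} [Group K] [TopologicalSpace K]

/-- closed normal subgroups -/
structure CN (N : Subgroup K) : Prop where
  closed : IsClosed (N : Set K)
  normal : N.Normal

theorem CN.of_LK {L : Subgroup K} (hL : L ∈ LK K) : CN L := ⟨LK.closed hL, LK.normal hL⟩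

theorem CN.inf {A B : Subgroup K} (hA : CN A) (hB : CN B) : CN (A ⊓ B) := by
  have := hA.normal
  have := hB.normal
  exact ⟨hA.closed.inter hB.closed, inferInstance⟩

theorem CN.sInf {S : Set (Subgroup K)} (h : ∀ A ∈ S, CN A) : CN (sInf S) := by
  refine ⟨?_, ⟨fun a ha b => ?_⟩⟩
  · rw [Subgroup.coe_sInf]
    exact isClosed_biInter fun A hA => (h A hA).closed
  · rw [Subgroup.mem_sInf] at ha ⊢
    intro A hA
    exact (h A hA).normal.conj_mem _ (ha A hA) b

/-- minimal elements -/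
theorem exists_min (S : Set (Subgroup K)) (M0 : Subgroup K) (hM0 : M0 ∈ S)
    (hch : ∀ c ⊆ S, c.Nonempty → IsChain (· ≤ ·) c → sInf c ∈ S) :
    ∃ M ∈ S, M ≤ M0 ∧ ∀ M' ∈ S, M' ≤ M → M' = M := by
  obtain ⟨M, hM0M, hM⟩ := zorn_le_nonempty₀ (α := (Subgroup K)ᵒᵈ) (OrderDual.ofDual ⁻¹' S) (by
    intro c hc hchain y hy
    let c' : Set (Subgroup K) := OrderDual.toDual ⁻¹' c
    have h1 : sInf c' ∈ S := hch c' (fun z hz => hc hz) ⟨y, hy⟩ (by
      intro a ha b hb hab
      rcases hchain ha hb (fun h => hab h) with h | h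
      · exact Or.inr h
      · exact Or.inl h)
    exact ⟨OrderDual.toDual (sInf c'), h1, fun z hz => sInf_le (a := OrderDual.ofDual z) hz⟩)
    (OrderDual.toDual M0) hM0
  refine ⟨OrderDual.ofDual M, hM.1, hM0M, fun M' hM' hle => ?_⟩
  exact le_antisymm hle (hM.2 (y := OrderDual.toDual M') hM' hle)

section
variable {ι : Type} [Fintype ι] [DecidableEq ι]
open Pool.LatH472

theorem nss (L : Subgroup K) (hL : L ∈ LK K) :
    ∃ U ∈ 𝓝 (1 : K), (∀ x ∈ U, ∀ l ∈ L, x * l ∈ U) ∧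
      ∀ H : Subgroup K, (H : Set K) ⊆ U → H ≤ L := by
  obtain ⟨ι, _, _, ρ, hρ, rfl⟩ := hL
  refine ⟨{u | NSS_N (ρ u - 1) < 1 / 2}, ?_, ?_, ?_⟩
  · apply IsOpen.mem_nhds
    · have hc : Continuous fun u : K => NSS_N (ρ u - 1) := by
        unfold NSS_N
        refine continuous_finsetSum _ fun i _ => continuous_finsetSum _ fun j _ => ?_
        apply Continuous.norm
        have h1 : Continuous fun u : K => (ρ u - 1) := hρ.sub continuous_const
        exact h1.matrix_elem i j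
      exact isOpen_lt hc continuous_const
    · show NSS_N (ρ 1 - 1) < 1 / 2
      have : ρ 1 - 1 = 0 := by simp
      rw [this]
      simp [NSS_N]
  · intro x hx l hl
    change NSS_N (ρ (x * l) - 1) < 1 / 2
    rw [map_mul, (MonoidHom.mem_ker).1 hl, mul_one]
    exact hx
  · intro S hS
    have key : ∀ k : ℕ, ∀ s ∈ S, (3 / 2 : ℝ) ^ k * NSS_N (ρ s - 1) ≤ 1 / 2 := by
      intro k
      induction k with
      | zero =>
        intro s hs
        rw [pow_zero, one_mul]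
        exact le_of_lt (hS hs)
      | succ k ih =>
        intro s hs
        have h1 := ih (s * s) (S.mul_mem hs hs)
        have h2 : NSS_N (ρ s - 1) < 1 / 2 := hS hs
        have h3 := NSS_nonneg (ρ s - 1)
        have e : (2:ℂ) • (ρ s - 1) = (ρ (s * s) - 1) - (ρ s - 1) * (ρ s - 1) := by
          rw [map_mul, two_smul]
          noncomm_ring
        have h4 := NSS_sub (ρ (s * s) - 1) ((ρ s - 1) * (ρ s - 1))
        rw [← e, NSS_two] at h4
        have h5 := NSS_mul (ρ s - 1) (ρ s - 1)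
        have h6 : 3 / 2 * NSS_N (ρ s - 1) ≤ NSS_N (ρ (s * s) - 1) := by nlinarith
        rw [pow_succ, mul_assoc]
        refine le_trans (mul_le_mul_of_nonneg_left h6 (by positivity)) h1
    intro s hs
    rw [MonoidHom.mem_ker]
    by_contra hne
    have hpos : 0 < NSS_N (ρ s - 1) := by
      refine lt_of_le_of_ne (NSS_nonneg _) (fun h => hne ?_)
      have := NSS_eq_zero _ h.symm
      rw [sub_eq_zero] at this
      exact this
    obtain ⟨k, hk⟩ := pow_unbounded_of_one_lt (1 / 2 / NSS_N (ρ s - 1))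
      (by norm_num : (1:ℝ) < 3 / 2)
    rw [div_lt_iff₀ hpos] at hk
    have := key k s hs
    linarith

end

variable [IsTopologicalGroup K] [CompactSpace K] [T2Space K]

theorem finset_inf_LK (t : Finset (LK K)) : (t.inf (fun L => L.1)) ∈ LK K := by
  classical
  induction t using Finset.induction_on with
  | empty => exact LK.top
  | insert a s ha ih => rw [Finset.inf_insert]; exact LK.inf a.2 ih

/-- the kernels of representations converge to the trivial group -/
theorem exists_LK_subset (U : Set K) (hU : U ∈ 𝓝 (1 : K)) : ∃ L ∈ LK K, (L : Set K) ⊆ U := by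
  classical
  obtain ⟨V, hVU, hVo, h1V⟩ := mem_nhds_iff.1 hU
  have hcomp : IsCompact (Vᶜ : Set K) := hVo.isClosed_compl.isCompact
  obtain ⟨t, ht⟩ := hcomp.elim_finite_subcover (fun L : LK K => ((L.1 : Set K))ᶜ)
    (fun L => (LK.closed L.2).isOpen_compl) (by
      intro y hy
      have hy1 : y ≠ 1 := by
        rintro rfl
        exact hy h1V
      obtain ⟨L, hL, hyL⟩ := LK.sep hy1
      exact Set.mem_iUnion.2 ⟨⟨L, hL⟩, hyL⟩)
  refine ⟨t.inf (fun L => L.1), finset_inf_LK t, fun x hx => ?_⟩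
  apply hVU
  by_contra hV
  obtain ⟨L, hL, hgL⟩ := Set.mem_iUnion₂.1 (ht hV)
  exact hgL ((Finset.inf_le hL : t.inf (fun L => L.1) ≤ L.1) hx)

/-- closed subgroups satisfy the descending chain condition modulo `L` -/
theorem dcc_le (c : Set (Subgroup K)) (hne : c.Nonempty) (hch : IsChain (· ≤ ·) c)
    (hcl : ∀ N ∈ c, IsClosed (N : Set K)) (L : Subgroup K) (hL : L ∈ LK K)
    (A S : Subgroup K) (hcA : ∀ N ∈ c, N ≤ A) (hLS : L ⊓ A ≤ S) (h : sInf c ≤ S) :
    ∃ N ∈ c, N ≤ S := by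
  obtain ⟨N0, hN0, h0⟩ := dcc c hne hch hcl L hL
  refine ⟨N0, hN0, fun y hy => ?_⟩
  obtain ⟨e, he, heL⟩ := h0 y hy
  have heA : e ∈ A := hcA N0 hN0 ((sInf_le hN0 : sInf c ≤ N0) he)
  have := S.mul_mem (h he) (hLS ⟨heL, A.mul_mem (A.inv_mem heA) (hcA N0 hN0 hy)⟩)
  rwa [mul_inv_cancel_left] at this

/-- minimal closed subgroups which are not contained in a given subgroup containing `L` -/
theorem exists_min_not_le (Q : Subgroup K → Prop) (hQ : ∀ c : Set (Subgroup K), (∀ A ∈ c, Q A) → Q (sInf c))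
    (L : Subgroup K) (hL : L ∈ LK K) (S A : Subgroup K) (hLS : L ⊓ A ≤ S)
    (hA : IsClosed (A : Set K)) (hQA : Q A) (hAS : ¬ A ≤ S) :
    ∃ B ≤ A, IsClosed (B : Set K) ∧ Q B ∧ ¬ B ≤ S ∧
      ∀ B' ≤ B, IsClosed (B' : Set K) → Q B' → ¬ B' ≤ S → B' = B := by
  obtain ⟨B, hB, -, hmin⟩ := exists_min
    {B : Subgroup K | B ≤ A ∧ IsClosed (B : Set K) ∧ Q B ∧ ¬ B ≤ S} A
    ⟨le_rfl, hA, hQA, hAS⟩ (by
      intro c hc hne hch
      refine ⟨?_, ?_, hQ c fun A hA => (hc hA).2.2.1, fun hle => ?_⟩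
      · obtain ⟨N, hN⟩ := hne
        exact (sInf_le hN).trans (hc hN).1
      · rw [Subgroup.coe_sInf]
        exact isClosed_biInter fun A hA => (hc hA).2.1
      · obtain ⟨N, hN, hNS⟩ := dcc_le c hne hch (fun A hA => (hc hA).2.1) L hL A S
          (fun N hN => (hc hN).1) hLS hle
        exact (hc hN).2.2.2 hNS)
  exact ⟨B, hB.1, hB.2.1, hB.2.2.1, hB.2.2.2,
    fun B' hB' h1 h2 h3 => hmin B' ⟨hB'.trans hB.1, h1, h2, h3⟩ hB'⟩

/-- a closed subgroup which is a Lie group meets some kernel trivially -/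
theorem exists_LK_inf_eq_bot (C : Subgroup K)
    (h : (⊥ : Subgroup C) ∈ LK C) : ∃ L ∈ LK K, L ⊓ C = ⊥ := by
  obtain ⟨U, hU, -, hnss⟩ := nss ⊥ h
  rw [nhds_subtype_eq_comap] at hU
  obtain ⟨V, hV, hVU⟩ := mem_comap.1 hU
  obtain ⟨L, hL, hLV⟩ := exists_LK_subset V (by simpa using hV)
  refine ⟨L, hL, ?_⟩
  have h1 := hnss (L.subgroupOf C) (by
    intro x hx
    exact hVU (hLV hx))
  rw [eq_bot_iff]
  intro x hx
  have h2 : (⟨x, hx.2⟩ : C) ∈ (⊥ : Subgroup C) := h1 (by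
    rw [Subgroup.mem_subgroupOf]
    exact hx.1)
  rw [Subgroup.mem_bot] at h2 ⊢
  exact congrArg Subtype.val h2

/-- restriction of kernels -/
theorem LK_restrict (C : Subgroup K) (L : Subgroup K) (hL : L ∈ LK K) : L.subgroupOf C ∈ LK C := by
  obtain ⟨ι, _, _, ρ, hρ, rfl⟩ := hL
  refine ⟨ι, inferInstance, inferInstance, ρ.comp C.subtype, hρ.comp continuous_subtype_val, ?_⟩
  ext x
  rfl

/-- strongly null sequences in a closed subgroup -/
theorem exists_strongly_null_in (C : Subgroup K) (hC : IsClosed (C : Set K))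
    (h : ∀ L ∈ LK K, L ⊓ C ≠ ⊥) :
    ∃ x : ℕ → K, (∀ n, x n ∈ C) ∧ (∀ n, x n ≠ 1) ∧ ∀ L ∈ LK K, ∀ᶠ n in atTop, x n ∈ L := by
  have hCc : CompactSpace C := isCompact_iff_compactSpace.1 hC.isCompact
  obtain ⟨x, hx1, hx⟩ := exists_strongly_null (K := C) (fun hb => by
    obtain ⟨L, hL, hLC⟩ := exists_LK_inf_eq_bot C hb
    exact h L hL hLC)
  refine ⟨fun n => x n, fun n => (x n).2, fun n hn => hx1 n (Subtype.ext hn), fun L hL => ?_⟩
  filter_upwards [hx _ (LK_restrict C L hL)] with n hn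
  exact hn

/-- strongly null sequences of closed normal subgroups -/
theorem exists_null_normal (C : Subgroup K) (hC : CN C) (h : ∀ L ∈ LK K, L ⊓ C ≠ ⊥) :
    ∃ A : ℕ → Subgroup K, (∀ n, A n ≤ C) ∧ (∀ n, A n ≠ ⊥) ∧ (∀ n, CN (A n)) ∧
      ∀ L ∈ LK K, ∀ᶠ n in atTop, A n ≤ L := by
  obtain ⟨x, hxC, hx1, hx⟩ := exists_strongly_null_in C hC.closed h
  refine ⟨fun n => C ⊓ sInf {L | L ∈ LK K ∧ x n ∈ L}, fun n => inf_le_left, fun n hn => ?_,
    fun n => hC.inf (CN.sInf fun L hL => CN.of_LK hL.1), fun L hL => ?_⟩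
  · have : x n ∈ C ⊓ sInf {L | L ∈ LK K ∧ x n ∈ L} := by
      rw [Subgroup.mem_inf, Subgroup.mem_sInf]
      exact ⟨hxC n, fun L hL => hL.2⟩
    have hn' : C ⊓ sInf {L | L ∈ LK K ∧ x n ∈ L} = ⊥ := hn
    rw [hn', Subgroup.mem_bot] at this
    exact hx1 n this
  · filter_upwards [hx L hL] with n hn
    exact inf_le_right.trans (sInf_le ⟨hL, hn⟩)

end H658.ZM
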