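import Pool.Agent.H658R3.ZM0

set_option autoImplicit false
set_option linter.style.haveILetI false
set_option linter.unusedSectionVars false

open Filter Topology Pointwise

noncomputable section

namespace H658.ZM

open H645.MC

section matrix

open Matrix
open scoped Matrix.Norms.Frobenius

variable {ι : Type} [Fintype ι] [DecidableEq ι]

theorem fro_sq (A : Matrix ι ι ℂ) : ‖A‖ ^ 2 = (Matrix.trace (Aᴴ * A)).re := by
  rw [Matrix.frobenius_norm_def, ← Real.sqrt_eq_rpow, Real.sq_sqrt (by positivity)]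
  rw [Matrix.trace, Complex.re_sum, Finset.sum_comm]
  refine Finset.sum_congr rfl fun i _ => ?_
  rw [Matrix.diag_apply, Matrix.mul_apply, Complex.re_sum]
  refine Finset.sum_congr rfl fun j _ => ?_
  rw [Matrix.conjTranspose_apply, Real.rpow_two, ← Complex.normSq_eq_norm_sq]
  simp [Complex.normSq_apply]

theorem fro_mul_left (u : unitaryGroup ι ℂ) (A : Matrix ι ι ℂ) : ‖(u : Matrix ι ι ℂ) * A‖ = ‖A‖ := by
  have h : ‖(u : Matrix ι ι ℂ) * A‖ ^ 2 = ‖A‖ ^ 2 := by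
    rw [fro_sq, fro_sq, Matrix.conjTranspose_mul]
    have h1 := Matrix.mem_unitaryGroup_iff'.1 u.2
    rw [Matrix.star_eq_conjTranspose] at h1
    have h2 : Aᴴ * (u : Matrix ι ι ℂ)ᴴ * ((u : Matrix ι ι ℂ) * A) = Aᴴ * A := by
      calc Aᴴ * (u : Matrix ι ι ℂ)ᴴ * ((u : Matrix ι ι ℂ) * A)
          = Aᴴ * ((u : Matrix ι ι ℂ)ᴴ * (u : Matrix ι ι ℂ)) * A := by
            simp only [Matrix.mul_assoc]
        _ = _ := by rw [h1, Matrix.mul_one]
    rw [h2]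
  exact (sq_eq_sq₀ (norm_nonneg _) (norm_nonneg _)).1 h

theorem fro_mul_right (u : unitaryGroup ι ℂ) (A : Matrix ι ι ℂ) : ‖A * (u : Matrix ι ι ℂ)‖ = ‖A‖ := by
  have h : ‖A * (u : Matrix ι ι ℂ)‖ ^ 2 = ‖A‖ ^ 2 := by
    rw [fro_sq, fro_sq, Matrix.conjTranspose_mul]
    have h1 := Matrix.mem_unitaryGroup_iff.1 u.2
    rw [Matrix.star_eq_conjTranspose] at h1
    rw [Matrix.mul_assoc, Matrix.trace_mul_comm]
    have h2 : Aᴴ * (A * (u : Matrix ι ι ℂ)) * (u : Matrix ι ι ℂ)ᴴ = Aᴴ * A := by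
      calc Aᴴ * (A * (u : Matrix ι ι ℂ)) * (u : Matrix ι ι ℂ)ᴴ
          = Aᴴ * A * ((u : Matrix ι ι ℂ) * (u : Matrix ι ι ℂ)ᴴ) := by
            simp only [Matrix.mul_assoc]
        _ = _ := by rw [h1, Matrix.mul_one]
    rw [h2]
  exact (sq_eq_sq₀ (norm_nonneg _) (norm_nonneg _)).1 h

theorem coe_inv' (u : unitaryGroup ι ℂ) : ((u⁻¹ : unitaryGroup ι ℂ) : Matrix ι ι ℂ) = (u : Matrix ι ι ℂ)ᴴ := rfl

/-- The key lemma. -/
theorem key (p q : unitaryGroup ι ℂ) (hp : ‖(p : Matrix ι ι ℂ) - 1‖ < 1 / 3)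
    (hq : ‖(q : Matrix ι ι ℂ) - 1‖ < 1 / 3)
    (h : (Matrix.trace ((q⁻¹ * p * q * p⁻¹ * q * p * q⁻¹ : unitaryGroup ι ℂ) : Matrix ι ι ℂ)).re ≤
      (Matrix.trace (p : Matrix ι ι ℂ)).re) : p * q = q * p := by
  obtain ⟨e, he⟩ : ∃ e : unitaryGroup ι ℂ, e = q * p * q⁻¹ * p⁻¹ := ⟨_, rfl⟩
  obtain ⟨E, hE⟩ : ∃ E : Matrix ι ι ℂ, E = (e : Matrix ι ι ℂ) - 1 := ⟨_, rfl⟩
  have hEs : Eᴴ = ((e⁻¹ : unitaryGroup ι ℂ) : Matrix ι ι ℂ) - 1 := by
    rw [hE, Matrix.conjTranspose_sub, Matrix.conjTranspose_one]; rfl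
  have hm : ∀ a b : unitaryGroup ι ℂ, ((a * b : unitaryGroup ι ℂ) : Matrix ι ι ℂ) =
    (a : Matrix ι ι ℂ) * (b : Matrix ι ι ℂ) := fun _ _ => rfl
  have ht1 : Matrix.trace ((q⁻¹ * e⁻¹ * q * p : unitaryGroup ι ℂ) : Matrix ι ι ℂ) =
      Matrix.trace (p : Matrix ι ι ℂ) := by
    have e1 : q⁻¹ * e⁻¹ * q * p = q⁻¹ * (e⁻¹ * q * p) := by group
    rw [e1, hm, Matrix.trace_mul_comm, ← hm]
    congr 2
    rw [he]; group
  have ht2 : Matrix.trace ((e * p : unitaryGroup ι ℂ) : Matrix ι ι ℂ) =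
      Matrix.trace (p : Matrix ι ι ℂ) := by
    have e1 : e * p = q * (p * q⁻¹) := by rw [he]; group
    rw [e1, hm, Matrix.trace_mul_comm, ← hm]
    congr 2
    group
  have hb : q⁻¹ * p * q * p⁻¹ * q * p * q⁻¹ = q⁻¹ * e⁻¹ * q * e * p := by rw [he]; group
  have hexp : ((q⁻¹ : unitaryGroup ι ℂ) : Matrix ι ι ℂ) * Eᴴ * (q : Matrix ι ι ℂ) * E * (p : Matrix ι ι ℂ) =
      ((q⁻¹ * e⁻¹ * q * e * p : unitaryGroup ι ℂ) : Matrix ι ι ℂ) -
      ((q⁻¹ * e⁻¹ * q * p : unitaryGroup ι ℂ) : Matrix ι ι ℂ) -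
      ((e * p : unitaryGroup ι ℂ) : Matrix ι ι ℂ) + (p : Matrix ι ι ℂ) := by
    have hqq : ((q⁻¹ : unitaryGroup ι ℂ) : Matrix ι ι ℂ) * (q : Matrix ι ι ℂ) = 1 := by
      rw [← hm, inv_mul_cancel]; rfl
    rw [hEs, hE]
    simp only [hm]
    have h1 : ((q⁻¹ : unitaryGroup ι ℂ) : Matrix ι ι ℂ) * (((e⁻¹ : unitaryGroup ι ℂ) : Matrix ι ι ℂ) - 1) *
        (q : Matrix ι ι ℂ) * ((e : Matrix ι ι ℂ) - 1) * (p : Matrix ι ι ℂ) =
        ((q⁻¹ : unitaryGroup ι ℂ) : Matrix ι ι ℂ) * ((e⁻¹ : unitaryGroup ι ℂ) : Matrix ι ι ℂ) *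
          (q : Matrix ι ι ℂ) * (e : Matrix ι ι ℂ) * (p : Matrix ι ι ℂ) -
        ((q⁻¹ : unitaryGroup ι ℂ) : Matrix ι ι ℂ) * ((e⁻¹ : unitaryGroup ι ℂ) : Matrix ι ι ℂ) *
          (q : Matrix ι ι ℂ) * (p : Matrix ι ι ℂ) -
        (((q⁻¹ : unitaryGroup ι ℂ) : Matrix ι ι ℂ) * (q : Matrix ι ι ℂ)) * (e : Matrix ι ι ℂ) *
          (p : Matrix ι ι ℂ) +
        (((q⁻¹ : unitaryGroup ι ℂ) : Matrix ι ι ℂ) * (q : Matrix ι ι ℂ)) * (p : Matrix ι ι ℂ) := by
      noncomm_ring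
    rw [h1, hqq, one_mul, one_mul]
  obtain ⟨Z, hZ⟩ : ∃ Z : Matrix ι ι ℂ, Z = (q : Matrix ι ι ℂ) * E * ((p * q⁻¹ : unitaryGroup ι ℂ) : Matrix ι ι ℂ) :=
    ⟨_, rfl⟩
  have htr : Matrix.trace (Eᴴ * Z) =
      Matrix.trace ((q⁻¹ * p * q * p⁻¹ * q * p * q⁻¹ : unitaryGroup ι ℂ) : Matrix ι ι ℂ) -
      Matrix.trace (p : Matrix ι ι ℂ) := by
    have e1 : Matrix.trace (Eᴴ * Z) = Matrix.trace (((q⁻¹ : unitaryGroup ι ℂ) : Matrix ι ι ℂ) * Eᴴ * (q : Matrix ι ι ℂ) * E * (p : Matrix ι ι ℂ)) := by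
      rw [hZ, hm]
      have e2 : Eᴴ * ((q : Matrix ι ι ℂ) * E * ((p : Matrix ι ι ℂ) * ((q⁻¹ : unitaryGroup ι ℂ) : Matrix ι ι ℂ))) =
        (Eᴴ * (q : Matrix ι ι ℂ) * E * (p : Matrix ι ι ℂ)) * ((q⁻¹ : unitaryGroup ι ℂ) : Matrix ι ι ℂ) := by
        simp only [Matrix.mul_assoc]
      rw [e2, Matrix.trace_mul_comm]
      simp only [Matrix.mul_assoc]
    rw [e1, hexp, Matrix.trace_add, Matrix.trace_sub, Matrix.trace_sub, ht1, ht2, hb]
    ring
  have hZn : ‖Z‖ = ‖E‖ := by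
    rw [hZ, fro_mul_right, fro_mul_left]
  have hpol : ‖E - Z‖ ^ 2 = ‖E‖ ^ 2 + ‖Z‖ ^ 2 - 2 * (Matrix.trace (Eᴴ * Z)).re := by
    rw [fro_sq, fro_sq, fro_sq]
    have e1 : (E - Z)ᴴ * (E - Z) = Eᴴ * E + Zᴴ * Z - Eᴴ * Z - Zᴴ * E := by
      rw [Matrix.conjTranspose_sub]; noncomm_ring
    have e2 : (Matrix.trace (Zᴴ * E)).re = (Matrix.trace (Eᴴ * Z)).re := by
      have : Zᴴ * E = (Eᴴ * Z)ᴴ := by
        rw [Matrix.conjTranspose_mul, Matrix.conjTranspose_conjTranspose]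
      rw [this, Matrix.trace_conjTranspose]
      simp
    rw [e1, Matrix.trace_sub, Matrix.trace_sub, Matrix.trace_add, Complex.sub_re, Complex.sub_re,
      Complex.add_re, e2]
    ring
  have hEZ : ‖E - Z‖ ≤ ‖E‖ * (2 * ‖(q : Matrix ι ι ℂ) - 1‖ + ‖(p : Matrix ι ι ℂ) - 1‖) := by
    have e1 : E - Z = -(((q : Matrix ι ι ℂ) - 1) * E) +
        (-((q : Matrix ι ι ℂ) * (E * (((p * q⁻¹ : unitaryGroup ι ℂ) : Matrix ι ι ℂ) - 1)))) := by
      rw [hZ]; noncomm_ring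
    have e2 : ‖((p * q⁻¹ : unitaryGroup ι ℂ) : Matrix ι ι ℂ) - 1‖ ≤
        ‖(q : Matrix ι ι ℂ) - 1‖ + ‖(p : Matrix ι ι ℂ) - 1‖ := by
      have e3 : (((p * q⁻¹ : unitaryGroup ι ℂ) : Matrix ι ι ℂ) - 1) * (q : Matrix ι ι ℂ) =
          ((p : Matrix ι ι ℂ) - 1) - ((q : Matrix ι ι ℂ) - 1) := by
        rw [sub_mul, ← hm, inv_mul_cancel_right, one_mul]; abel
      rw [← fro_mul_right q, e3]
      refine (norm_sub_le _ _).trans ?_
      rw [add_comm]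
    rw [e1]
    refine (norm_add_le _ _).trans ?_
    rw [norm_neg, norm_neg, fro_mul_left]
    have e4 := norm_mul_le ((q : Matrix ι ι ℂ) - 1) E
    have e5 := norm_mul_le E (((p * q⁻¹ : unitaryGroup ι ℂ) : Matrix ι ι ℂ) - 1)
    have e6 := mul_le_mul_of_nonneg_left e2 (norm_nonneg E)
    nlinarith
  have hE0 : ‖E‖ = 0 := by
    by_contra hne
    have hpos : 0 < ‖E‖ := lt_of_le_of_ne (norm_nonneg _) (Ne.symm hne)
    have h1 : ‖E - Z‖ < ‖E‖ := by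
      refine lt_of_le_of_lt hEZ ?_
      nlinarith
    have h2 : ‖E - Z‖ ^ 2 < ‖E‖ ^ 2 := by
      have := norm_nonneg (E - Z)
      nlinarith
    have h3 : (Matrix.trace (Eᴴ * Z)).re ≤ 0 := by
      rw [htr, Complex.sub_re]
      linarith
    rw [hZn] at hpol
    nlinarith
  have hE1 : E = 0 := norm_eq_zero.1 hE0
  rw [hE, sub_eq_zero] at hE1
  have he1 : e = 1 := Subtype.ext hE1
  rw [he] at he1
  have : q * p = p * q := by
    have h1 : q * p * q⁻¹ = p := mul_inv_eq_one.1 he1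
    rw [mul_inv_eq_iff_eq_mul] at h1
    exact h1
  exact this.symm

theorem fro_sub_one (u : unitaryGroup ι ℂ) :
    ‖(u : Matrix ι ι ℂ) - 1‖ ^ 2 = 2 * Fintype.card ι - 2 * (Matrix.trace (u : Matrix ι ι ℂ)).re := by
  rw [fro_sq]
  have h1 := Matrix.mem_unitaryGroup_iff'.1 u.2
  rw [Matrix.star_eq_conjTranspose] at h1
  have e1 : ((u : Matrix ι ι ℂ) - 1)ᴴ * ((u : Matrix ι ι ℂ) - 1) =
      (u : Matrix ι ι ℂ)ᴴ * (u : Matrix ι ι ℂ) - (u : Matrix ι ι ℂ)ᴴ - (u : Matrix ι ι ℂ) + 1 := by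
    rw [Matrix.conjTranspose_sub, Matrix.conjTranspose_one]; noncomm_ring
  rw [e1, h1, Matrix.trace_add, Matrix.trace_sub, Matrix.trace_sub, Matrix.trace_conjTranspose,
    Matrix.trace_one]
  simp only [Complex.add_re, Complex.sub_re, Complex.star_def, Complex.conj_re, Complex.natCast_re]
  ring

theorem key' (p q : unitaryGroup ι ℂ)
    (hp : (Fintype.card ι : ℝ) - 1 / 18 < (Matrix.trace (p : Matrix ι ι ℂ)).re)
    (hq : (Fintype.card ι : ℝ) - 1 / 18 < (Matrix.trace (q : Matrix ι ι ℂ)).re)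
    (h : (Matrix.trace ((q⁻¹ * p * q * p⁻¹ * q * p * q⁻¹ : unitaryGroup ι ℂ) : Matrix ι ι ℂ)).re ≤
      (Matrix.trace (p : Matrix ι ι ℂ)).re) : p * q = q * p := by
  have aux : ∀ u : unitaryGroup ι ℂ, (Fintype.card ι : ℝ) - 1 / 18 < (Matrix.trace (u : Matrix ι ι ℂ)).re →
      ‖(u : Matrix ι ι ℂ) - 1‖ < 1 / 3 := by
    intro u hu
    have h1 := fro_sub_one u
    by_contra hcon
    push Not at hcon
    nlinarith [norm_nonneg ((u : Matrix ι ι ℂ) - 1)]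
  exact key p q (aux p hp) (aux q hq) h

end matrix

theorem le_of_preconnected {K : Type} [Group K] [TopologicalSpace K] [IsTopologicalGroup K]
    (R Z : Subgroup K) (hR : IsPreconnected (R : Set K)) (U : Set K) (hU : U ∈ 𝓝 (1 : K))
    (h : ∀ x ∈ R, x ∈ U → x ∈ Z) : R ≤ Z := by
  have hpc : PreconnectedSpace R := isPreconnected_iff_preconnectedSpace.1 hR
  have hopen : IsOpen ((Z.subgroupOf R : Subgroup R) : Set R) := by
    apply Subgroup.isOpen_of_mem_nhds (g := 1)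
    rw [nhds_subtype_eq_comap]
    refine mem_comap.2 ⟨U, by simpa using hU, fun x hx => ?_⟩
    exact h x x.2 hx
  have hclopen : IsClopen ((Z.subgroupOf R : Subgroup R) : Set R) :=
    ⟨Subgroup.isClosed_of_isOpen _ hopen, hopen⟩
  have huniv := hclopen.eq_univ ⟨1, one_mem _⟩
  intro x hx
  have : (⟨x, hx⟩ : R) ∈ ((Z.subgroupOf R : Subgroup R) : Set R) := by rw [huniv]; trivial
  exact this

/-- unitary kernels -/
def UK (K : Type) [Group K] [TopologicalSpace K] : Set (Subgroup K) :=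
  {L | ∃ (ι : Type) (_ : Fintype ι) (_ : DecidableEq ι) (ρ : K →* Matrix.unitaryGroup ι ℂ),
    Continuous ρ ∧ L = ρ.ker}

variable {K : Type} [Group K] [TopologicalSpace K]

theorem UK.sub {L : Subgroup K} (h : L ∈ UK K) : L ∈ LK K := by
  obtain ⟨ι, _, _, ρ, hρ, rfl⟩ := h
  refine ⟨ι, inferInstance, inferInstance, (Matrix.unitaryGroup ι ℂ).subtype.comp ρ,
    continuous_subtype_val.comp hρ, ?_⟩
  ext x
  rw [MonoidHom.mem_ker, MonoidHom.mem_ker]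
  constructor
  · intro h
    change ((ρ x : Matrix.unitaryGroup ι ℂ) : Matrix ι ι ℂ) = 1
    rw [h]; rfl
  · intro h
    exact Subtype.ext h

theorem UK.top : (⊤ : Subgroup K) ∈ UK K := by
  classical
  refine ⟨Fin 0, inferInstance, inferInstance, 1, continuous_const, ?_⟩
  ext x
  simp

theorem UK.inf {L L' : Subgroup K} (hL : L ∈ UK K) (hL' : L' ∈ UK K) : L ⊓ L' ∈ UK K := by
  classical
  obtain ⟨ι, _, _, ρ, hρ, rfl⟩ := hL
  obtain ⟨κ, _, _, σ, hσ, rfl⟩ := hL'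
  have hun : ∀ x, Matrix.fromBlocks (ρ x : Matrix ι ι ℂ) 0 0 (σ x : Matrix κ κ ℂ) ∈
      Matrix.unitaryGroup (ι ⊕ κ) ℂ := by
    intro x
    rw [Matrix.mem_unitaryGroup_iff', Matrix.star_eq_conjTranspose, Matrix.fromBlocks_conjTranspose,
      Matrix.fromBlocks_multiply]
    have h1 := Matrix.mem_unitaryGroup_iff'.1 (ρ x).2
    have h2 := Matrix.mem_unitaryGroup_iff'.1 (σ x).2
    rw [Matrix.star_eq_conjTranspose] at h1 h2
    rw [h1, h2]
    simp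
  refine ⟨ι ⊕ κ, inferInstance, inferInstance,
    { toFun := fun x => ⟨Matrix.fromBlocks (ρ x : Matrix ι ι ℂ) 0 0 (σ x : Matrix κ κ ℂ), hun x⟩
      map_one' := by
        apply Subtype.ext
        change Matrix.fromBlocks (ρ 1 : Matrix ι ι ℂ) 0 0 (σ 1 : Matrix κ κ ℂ) = 1
        rw [map_one, map_one]
        exact Matrix.fromBlocks_one
      map_mul' := fun x y => by
        apply Subtype.ext
        change Matrix.fromBlocks (ρ (x * y) : Matrix ι ι ℂ) 0 0 (σ (x * y) : Matrix κ κ ℂ) =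
          Matrix.fromBlocks (ρ x : Matrix ι ι ℂ) 0 0 (σ x : Matrix κ κ ℂ) *
          Matrix.fromBlocks (ρ y : Matrix ι ι ℂ) 0 0 (σ y : Matrix κ κ ℂ)
        rw [map_mul, map_mul, Matrix.fromBlocks_multiply]
        simp }, ?_, ?_⟩
  · apply Continuous.subtype_mk
    exact Continuous.matrix_fromBlocks (continuous_subtype_val.comp hρ) continuous_const
      continuous_const (continuous_subtype_val.comp hσ)
  · ext x
    rw [Subgroup.mem_inf, MonoidHom.mem_ker, MonoidHom.mem_ker, MonoidHom.mem_ker]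
    constructor
    · rintro ⟨h1, h2⟩
      apply Subtype.ext
      change Matrix.fromBlocks (ρ x : Matrix ι ι ℂ) 0 0 (σ x : Matrix κ κ ℂ) = 1
      rw [h1, h2]
      exact Matrix.fromBlocks_one
    · intro h
      have h1 : Matrix.fromBlocks (ρ x : Matrix ι ι ℂ) 0 0 (σ x : Matrix κ κ ℂ) = 1 :=
        congrArg Subtype.val h
      rw [← Matrix.fromBlocks_one, Matrix.fromBlocks_inj] at h1
      exact ⟨Subtype.ext h1.1, Subtype.ext h1.2.2.2⟩

variable [IsTopologicalGroup K] [CompactSpace K] [T2Space K]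

theorem UK.sep {x : K} (hx : x ≠ 1) : ∃ L ∈ UK K, x ∉ L := by
  obtain ⟨ι, _, _, ρ, hρ, hρx⟩ := Pool.LatH472.PW K x hx
  exact ⟨ρ.ker, ⟨ι, inferInstance, inferInstance, ρ, hρ, rfl⟩, fun h => hρx h⟩

/-- elements near the identity act on a connected normal subgroup as inner automorphisms -/
theorem comm_mod (L : Subgroup K) (hL : L ∈ UK K) (R : Subgroup K) (hR : CN R)
    (hRc : IsPreconnected (R : Set K)) (P : Set K) (hP : IsPreconnected P) (h1P : (1 : K) ∈ P) :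
    ∀ p ∈ P, ∃ r ∈ R, ∀ q ∈ R, (p * r) * q * (p * r)⁻¹ * q⁻¹ ∈ L := by
  obtain ⟨ι, _, _, ρ, hρ, rfl⟩ := hL
  have hRn := hR.normal
  have hcomm : ∀ a b : K, (a * b * a⁻¹ * b⁻¹ ∈ ρ.ker ↔ ρ a * ρ b = ρ b * ρ a) := by
    intro a b
    rw [MonoidHom.mem_ker, map_mul, map_mul, map_mul, map_inv, map_inv, mul_inv_eq_one,
      mul_inv_eq_iff_eq_mul]
  let S : Subgroup K :=
    { carrier := {p | ∃ r ∈ R, ∀ q ∈ R, (p * r) * q * (p * r)⁻¹ * q⁻¹ ∈ ρ.ker}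
      one_mem' := ⟨1, one_mem _, fun q _ => by simp⟩
      mul_mem' := by
        rintro p1 p2 ⟨r1, hr1, h1⟩ ⟨r2, hr2, h2⟩
        refine ⟨p2⁻¹ * r1 * p2 * r2, R.mul_mem (by
          have := hRn.conj_mem r1 hr1 p2⁻¹
          simpa using this) hr2, fun q hq => ?_⟩
        rw [hcomm]
        have e1 : p1 * p2 * (p2⁻¹ * r1 * p2 * r2) = (p1 * r1) * (p2 * r2) := by group
        have h1' := (hcomm _ _).1 (h1 q hq)
        have h2' := (hcomm _ _).1 (h2 q hq)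
        rw [e1, map_mul ρ (p1 * r1), mul_assoc, h2', ← mul_assoc, h1', mul_assoc]
      inv_mem' := by
        rintro p ⟨r, hr, h⟩
        refine ⟨p * r⁻¹ * p⁻¹, hRn.conj_mem _ (R.inv_mem hr) p, fun q hq => ?_⟩
        rw [hcomm]
        have e1 : p⁻¹ * (p * r⁻¹ * p⁻¹) = (p * r)⁻¹ := by group
        have h' := (hcomm _ _).1 (h q hq)
        rw [e1, map_inv, inv_mul_eq_iff_eq_mul, ← mul_assoc, h', mul_assoc, mul_inv_cancel, mul_one] }
  let t : K → ℝ := fun x => (Matrix.trace (ρ x : Matrix ι ι ℂ)).re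
  have ht : Continuous t := by
    have : Continuous fun x => (ρ x : Matrix ι ι ℂ) := continuous_subtype_val.comp hρ
    exact Complex.continuous_re.comp this.matrix_trace
  let U : Set K := {x | (Fintype.card ι : ℝ) - 1 / 18 < t x}
  have hU : U ∈ 𝓝 (1 : K) := by
    apply (isOpen_lt continuous_const ht).mem_nhds
    change (Fintype.card ι : ℝ) - 1 / 18 < (Matrix.trace (ρ 1 : Matrix ι ι ℂ)).re
    rw [map_one]
    have : (Matrix.trace ((1 : Matrix.unitaryGroup ι ℂ) : Matrix ι ι ℂ)).re = Fintype.card ι := by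
      have e : ((1 : Matrix.unitaryGroup ι ℂ) : Matrix ι ι ℂ) = 1 := rfl
      rw [e, Matrix.trace_one]
      simp
    rw [this]
    linarith
  have hUS : ∀ p ∈ U, p ∈ S := by
    intro p hp
    obtain ⟨r, hr, hmax⟩ := (hR.closed.isCompact).exists_isMaxOn ⟨1, R.one_mem⟩
      (f := fun r => t (p * r)) (by
        have : Continuous fun r => t (p * r) := ht.comp (continuous_const_mul p)
        exact this.continuousOn)
    have hmax' : ∀ r' ∈ R, t (p * r') ≤ t (p * r) := fun r' hr' => hmax hr'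
    refine ⟨r, hr, ?_⟩
    let Z : Subgroup K :=
      { carrier := {q | ρ (p * r) * ρ q = ρ q * ρ (p * r)}
        one_mem' := by simp
        mul_mem' := by
          intro a b ha hb
          have ha' : ρ (p * r) * ρ a = ρ a * ρ (p * r) := ha
          have hb' : ρ (p * r) * ρ b = ρ b * ρ (p * r) := hb
          change ρ (p * r) * ρ (a * b) = ρ (a * b) * ρ (p * r)
          rw [map_mul ρ a b, ← mul_assoc, ha', mul_assoc, hb', mul_assoc]
        inv_mem' := by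
          intro a ha
          have ha' : ρ (p * r) * ρ a = ρ a * ρ (p * r) := ha
          change ρ (p * r) * ρ a⁻¹ = ρ a⁻¹ * ρ (p * r)
          rw [map_inv, mul_inv_eq_iff_eq_mul, mul_assoc, ha', inv_mul_cancel_left] }
    have hZ : R ≤ Z := by
      apply le_of_preconnected R Z hRc U hU
      intro q hq hqU
      change ρ (p * r) * ρ q = ρ q * ρ (p * r)
      have hpr : (Fintype.card ι : ℝ) - 1 / 18 < t (p * r) := by
        have := hmax' 1 R.one_mem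
        rw [mul_one] at this
        exact lt_of_lt_of_le hp this
      apply key' _ _ hpr hqU
      obtain ⟨P, hPd⟩ : ∃ P, P = p * r := ⟨_, rfl⟩
      rw [← hPd]
      have e1 : (ρ q)⁻¹ * ρ P * ρ q * (ρ P)⁻¹ * ρ q * ρ P * (ρ q)⁻¹ =
          ρ (p * (r * ((P⁻¹ * q⁻¹ * P) * q) * ((P⁻¹ * q * P) * q⁻¹))) := by
        have e2 : p * (r * ((P⁻¹ * q⁻¹ * P) * q) * ((P⁻¹ * q * P) * q⁻¹)) =
            q⁻¹ * P * q * P⁻¹ * q * P * q⁻¹ := by
          rw [hPd]; group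
        rw [e2]
        simp only [map_mul, map_inv]
      rw [e1, hPd]
      apply hmax'
      have c1 : ∀ x ∈ R, (p * r)⁻¹ * x * (p * r) ∈ R := by
        intro x hx
        have := hRn.conj_mem x hx (p * r)⁻¹
        simpa using this
      exact R.mul_mem (R.mul_mem hr (R.mul_mem (c1 _ (R.inv_mem hq)) hq))
        (R.mul_mem (c1 _ hq) (R.inv_mem hq))
    intro q hq
    rw [hcomm]
    exact hZ hq
  have hSo : IsOpen (S : Set K) := Subgroup.isOpen_of_mem_nhds S (g := 1) (mem_of_superset hU hUS)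
  have hSc : IsClopen (S : Set K) := ⟨Subgroup.isClosed_of_isOpen _ hSo, hSo⟩
  intro p hp
  exact hP.subset_isClopen hSc ⟨1, h1P, one_mem _⟩ hp

/-- connected subsets act on a connected closed normal subgroup by inner automorphisms -/
theorem inner (R : Subgroup K) (hR : CN R) (hRc : IsPreconnected (R : Set K)) (P : Set K)
    (hP : IsPreconnected P) (h1P : (1 : K) ∈ P) :
    ∀ p ∈ P, ∃ r ∈ R, ∀ q ∈ R, (p * r) * q = q * (p * r) := by
  intro p hp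
  let T : UK K → Set K := fun L => {r | r ∈ R ∧ ∀ q ∈ R, (p * r) * q * (p * r)⁻¹ * q⁻¹ ∈ L.1}
  have hTc : ∀ L, IsClosed (T L) := by
    intro L
    have : T L = (R : Set K) ∩ ⋂ q ∈ R, {r | (p * r) * q * (p * r)⁻¹ * q⁻¹ ∈ L.1} := by
      ext r
      simp [T]
    rw [this]
    refine hR.closed.inter (isClosed_biInter fun q _ => ?_)
    have hc : Continuous fun r => (p * r) * q * (p * r)⁻¹ * q⁻¹ := by fun_prop
    exact (LK.closed (UK.sub L.2)).preimage hc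
  have hnn : Nonempty (UK K) := ⟨⟨⊤, UK.top⟩⟩
  obtain ⟨r, hr⟩ := IsCompact.nonempty_iInter_of_directed_nonempty_isCompact_isClosed T (by
    intro L L'
    refine ⟨⟨L.1 ⊓ L'.1, UK.inf L.2 L'.2⟩, fun r hr => ⟨hr.1, fun q hq => (hr.2 q hq).1⟩,
      fun r hr => ⟨hr.1, fun q hq => (hr.2 q hq).2⟩⟩) (by
    intro L
    obtain ⟨r, hr, h⟩ := comm_mod L.1 L.2 R hR hRc P hP h1P p hp
    exact ⟨r, hr, h⟩) (fun L => (hTc L).isCompact) hTc
  rw [Set.mem_iInter] at hr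
  refine ⟨r, (hr ⟨⊤, UK.top⟩).1, fun q hq => ?_⟩
  have h1 : (p * r) * q * (p * r)⁻¹ * q⁻¹ = 1 := by
    by_contra hne
    obtain ⟨L, hL, hLx⟩ := UK.sep hne
    exact hLx ((hr ⟨L, hL⟩).2 q hq)
  rw [mul_inv_eq_one, mul_inv_eq_iff_eq_mul] at h1
  exact h1

end H658.ZM
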