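import Pool.Agent.H658R3.ZM1
import Pool.Agent.H645R3.Char

set_option autoImplicit false
set_option linter.style.haveILetI false
set_option linter.unusedSectionVars false

open Filter Topology Pointwise

noncomputable section

namespace H658.ZM

open H645.MC

/-- closed subgroups of the circle -/
theorem circle_sub (Γ : Subgroup Circle) (hΓ : IsClosed (Γ : Set Circle)) :
    (∃ n : ℕ, 1 ≤ n ∧ ∀ z ∈ Γ, z ^ n = 1) ∨ Γ = ⊤ := by
  let Λ : AddSubgroup ℝ :=
    { carrier := {θ | Circle.exp θ ∈ Γ}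
      zero_mem' := by
        change Circle.exp 0 ∈ Γ
        rw [Circle.exp_zero]
        exact one_mem _
      add_mem' := by
        intro a b ha hb
        change Circle.exp (a + b) ∈ Γ
        rw [Circle.exp_add]
        exact mul_mem ha hb
      neg_mem' := by
        intro a ha
        change Circle.exp (-a) ∈ Γ
        rw [Circle.exp_neg]
        exact inv_mem ha }
  have hcl : IsClosed (Λ : Set ℝ) := hΓ.preimage Circle.exp.continuous
  rcases AddSubgroup.dense_or_cyclic Λ with h | ⟨a, ha⟩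
  · right
    have h1 : (Λ : Set ℝ) = Set.univ := by
      rw [← hcl.closure_eq]
      exact h.closure_eq
    rw [eq_top_iff]
    intro z _
    obtain ⟨θ, rfl⟩ := Circle.exp_surjective z
    have : θ ∈ (Λ : Set ℝ) := by rw [h1]; trivial
    exact this
  · left
    rw [← AddSubgroup.zmultiples_eq_closure] at ha
    have h2π : 2 * Real.pi ∈ Λ := by
      change Circle.exp (2 * Real.pi) ∈ Γ
      rw [Circle.exp_two_pi]
      exact one_mem _
    rw [ha] at h2π
    obtain ⟨n, hn⟩ := AddSubgroup.mem_zmultiples_iff.1 h2π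
    have hn0 : n ≠ 0 := by
      rintro rfl
      rw [zero_smul] at hn
      have := Real.pi_pos
      linarith
    refine ⟨n.natAbs, Int.natAbs_pos.2 hn0, fun z hz => ?_⟩
    obtain ⟨θ, rfl⟩ := Circle.exp_surjective z
    have hθ : θ ∈ Λ := hz
    rw [ha] at hθ
    obtain ⟨k, hk⟩ := AddSubgroup.mem_zmultiples_iff.1 hθ
    have h3 : Circle.exp θ ^ n = 1 := by
      rw [← Circle.exp_zsmul]
      have : n • θ = k * (2 * Real.pi) := by
        rw [← hk, ← hn]
        simp only [zsmul_eq_mul]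
        ring
      rw [this]
      exact Circle.exp_int_mul_two_pi k
    rcases Int.natAbs_eq n with h | h
    · rw [h] at h3
      rwa [zpow_natCast] at h3
    · rw [h] at h3
      rwa [zpow_neg, zpow_natCast, inv_eq_one] at h3

variable {K : Type} [Group K] [TopologicalSpace K] [IsTopologicalGroup K] [CompactSpace K]
  [T2Space K]

theorem powsub (B : Subgroup K) (hc : ∀ x ∈ B, ∀ y ∈ B, x * y = y * x) (E F : Subgroup K)
    (hEB : E ≤ B) (hFB : F ≤ B) (hE : IsClosed (E : Set K)) (hF : IsClosed (F : Set K)) (n : ℕ) :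
    ∃ P : Subgroup K, IsClosed (P : Set K) ∧ ∀ x, x ∈ P ↔ ∃ e ∈ E, ∃ f ∈ F, x = e ^ n * f := by
  have hcl : IsClosed {x : K | ∃ e ∈ E, ∃ f ∈ F, x = e ^ n * f} := by
    have : {x : K | ∃ e ∈ E, ∃ f ∈ F, x = e ^ n * f} =
        (fun p : K × K => p.1 ^ n * p.2) '' ((E : Set K) ×ˢ (F : Set K)) := by
      ext x
      constructor
      · rintro ⟨e, he, f, hf, rfl⟩
        exact ⟨(e, f), ⟨he, hf⟩, rfl⟩
      · rintro ⟨⟨e, f⟩, ⟨he, hf⟩, rfl⟩
        exact ⟨e, he, f, hf, rfl⟩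
    rw [this]
    exact ((hE.isCompact.prod hF.isCompact).image (by fun_prop)).isClosed
  refine ⟨{ carrier := {x : K | ∃ e ∈ E, ∃ f ∈ F, x = e ^ n * f}
            one_mem' := ⟨1, one_mem _, 1, one_mem _, by simp⟩
            mul_mem' := ?_
            inv_mem' := ?_ }, hcl, fun x => Iff.rfl⟩
  · rintro _ _ ⟨e, he, f, hf, rfl⟩ ⟨e', he', f', hf', rfl⟩
    refine ⟨e * e', mul_mem he he', f * f', mul_mem hf hf', ?_⟩
    have h1 : Commute e e' := hc e (hEB he) e' (hEB he')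
    have h2 : Commute f (e' ^ n) := hc f (hFB hf) _ (B.pow_mem (hEB he') n)
    rw [h1.mul_pow, mul_assoc, ← mul_assoc f, h2.eq]
    simp only [mul_assoc]
  · rintro _ ⟨e, he, f, hf, rfl⟩
    refine ⟨e⁻¹, inv_mem he, f⁻¹, inv_mem hf, ?_⟩
    have h2 : Commute f⁻¹ (e⁻¹ ^ n) := hc _ (hFB (inv_mem hf)) _ (B.pow_mem (hEB (inv_mem he)) n)
    rw [mul_inv_rev, ← inv_pow, h2.eq]

theorem tdens_i (L : Subgroup K) (hL : L ∈ LK K) (B S : Subgroup K) (hB : IsClosed (B : Set K))
    (hc : ∀ x ∈ B, ∀ y ∈ B, x * y = y * x) (hS : IsClosed (S : Set K)) (hSB : S ≤ B)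
    (htor : ∀ b ∈ B, ∀ n : ℕ, 1 ≤ n → b ^ n ∈ L → b ∈ S) (x : K) (hx : x ∈ B) (n : ℕ) (hn : 1 ≤ n)
    (hxn : x ^ n ∈ S) : x ∈ S := by
  have hF : IsClosed ((L ⊓ B : Subgroup K) : Set K) := (LK.closed hL).inter hB
  choose P hPc hP using fun m : ℕ => powsub B hc S (L ⊓ B) hSB inf_le_right hS hF m.factorial
  have hdiv : ∀ m m', m ≤ m' → P m' ≤ P m := by
    intro m m' hmm y hy
    obtain ⟨s, hs, f, hf, rfl⟩ := (hP m' y).1 hy
    obtain ⟨k, hk⟩ := Nat.factorial_dvd_factorial hmm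
    refine (hP m _).2 ⟨s ^ k, S.pow_mem hs k, f, hf, ?_⟩
    rw [← pow_mul, mul_comm k, ← hk]
  obtain ⟨_, ⟨m0, rfl⟩, h0⟩ := dcc (Set.range P) ⟨_, 0, rfl⟩ (by
    rintro _ ⟨m, rfl⟩ _ ⟨m', rfl⟩ _
    rcases le_total m m' with h | h
    · exact Or.inr (hdiv _ _ h)
    · exact Or.inl (hdiv _ _ h)) (by
    rintro _ ⟨m, rfl⟩
    exact hPc m) L hL
  have hPB : ∀ m, P m ≤ B := by
    intro m y hy
    obtain ⟨s, hs, f, hf, rfl⟩ := (hP m y).1 hy
    exact B.mul_mem (B.pow_mem (hSB hs) _) hf.2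
  have hle : ∀ m, P m0 ≤ P m := by
    intro m y hy
    obtain ⟨e, he, heL⟩ := h0 y hy
    have he' : e ∈ P m := (Subgroup.mem_sInf.1 he) _ ⟨m, rfl⟩
    obtain ⟨s, hs, f, hf, hef⟩ := (hP m e).1 he'
    refine (hP m y).2 ⟨s, hs, f * (e⁻¹ * y), (L ⊓ B).mul_mem hf ⟨heL, B.mul_mem
      (B.inv_mem (hPB m he')) (hPB m0 hy)⟩, ?_⟩
    rw [← mul_assoc, ← hef, mul_inv_cancel_left]
  obtain ⟨M, hM⟩ : ∃ M, M = m0.factorial := ⟨_, rfl⟩
  have hMpos : 1 ≤ M := hM ▸ Nat.factorial_pos m0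
  have h1 : x ^ (n * M) ∈ P m0 := by
    refine (hP m0 _).2 ⟨x ^ n, hxn, 1, one_mem _, ?_⟩
    rw [mul_one, ← pow_mul, hM]
  obtain ⟨s, hs, f, hf, hxf⟩ := (hP (n * M) _).1 (hle (n * M) h1)
  have hnM : 1 ≤ n * M := Nat.mul_pos hn hMpos
  obtain ⟨k, hk⟩ := Nat.dvd_factorial hnM le_rfl
  have h2 : (x * (s ^ k)⁻¹) ^ (n * M) ∈ L := by
    have hcom : Commute x (s ^ k)⁻¹ := hc x hx _ (B.inv_mem (B.pow_mem (hSB hs) k))
    rw [hcom.mul_pow, hxf, inv_pow, ← pow_mul, mul_comm k, ← hk]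
    have h3 : Commute f (s ^ (n * M).factorial)⁻¹ :=
      hc _ hf.2 _ (B.inv_mem (B.pow_mem (hSB hs) _))
    rw [mul_assoc, h3.eq, mul_inv_cancel_left]
    exact hf.1
  have h4 := htor _ (B.mul_mem hx (B.inv_mem (B.pow_mem (hSB hs) k))) (n * M) hnM h2
  have := S.mul_mem h4 (S.pow_mem hs k)
  rwa [inv_mul_cancel_right] at this

/-- density of torsion elements -/
theorem tdens (L : Subgroup K) (hL : L ∈ LK K) (B S : Subgroup K) (hB : IsClosed (B : Set K))
    (hc : ∀ x ∈ B, ∀ y ∈ B, x * y = y * x) (hS : IsClosed (S : Set K)) (hSB : S ≤ B)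
    (htor : ∀ b ∈ B, ∀ n : ℕ, 1 ≤ n → b ^ n ∈ L → b ∈ S) : B ≤ S := by
  by_contra hBS
  have hLS : L ⊓ B ≤ S := fun x hx => htor x hx.2 1 le_rfl (by simpa using hx.1)
  obtain ⟨E, hEB, hEc, -, hES, hmin⟩ := exists_min_not_le (fun _ => True) (fun _ _ => trivial) L hL
    S B hLS hB trivial hBS
  obtain ⟨x, hxE, hxS⟩ := SetLike.not_le_iff_exists.1 hES
  have hcE : ∀ x ∈ E, ∀ y ∈ E, x * y = y * x := fun x hx y hy => hc x (hEB hx) y (hEB hy)
  have hx1 : x ≠ 1 := by
    rintro rfl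
    exact hxS (one_mem _)
  let _ : CommGroup E := { (inferInstance : Group E) with
    mul_comm := fun a b => Subtype.ext (hcE a a.2 b b.2) }
  have hEcomp : CompactSpace E := isCompact_iff_compactSpace.1 hEc.isCompact
  obtain ⟨χ, hχ, hχx⟩ := H645.char_sep_mul E ⟨x, hxE⟩ (fun h => hx1 (congrArg Subtype.val h))
  -- divisibility
  have hdiv : ∀ n : ℕ, 1 ≤ n → ∀ y ∈ E, ∃ z ∈ E, y = z ^ n := by
    intro n hn
    obtain ⟨P, hPc, hP⟩ := powsub E hcE E ⊥ le_rfl bot_le hEc (by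
      rw [Subgroup.coe_bot]; exact isClosed_singleton) n
    have hPE : P ≤ E := by
      intro y hy
      obtain ⟨e, he, f, hf, rfl⟩ := (hP y).1 hy
      rw [Subgroup.mem_bot.1 hf, mul_one]
      exact E.pow_mem he n
    have hPeq : P = E := hmin P hPE hPc trivial (fun hle => hxS (tdens_i L hL B S hB hc hS hSB htor x
      (hEB hxE) n hn (hle ((hP _).2 ⟨x, hxE, 1, one_mem _, by rw [mul_one]⟩))))
    intro y hy
    rw [← hPeq] at hy
    obtain ⟨e, he, f, hf, rfl⟩ := (hP y).1 hy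
    exact ⟨e, he, by rw [Subgroup.mem_bot.1 hf, mul_one]⟩
  -- kernels of powers
  have hker : ∀ n : ℕ, 1 ≤ n → ∀ e : E, χ e ^ n = 1 → (e : K) ∈ S := by
    intro n hn e he
    let En : Subgroup K := ((χ ^ n).ker).map E.subtype
    have hEnE : En ≤ E := by
      rintro _ ⟨e, _, rfl⟩
      exact e.2
    have hEnc : IsClosed (En : Set K) := by
      have h1 : IsClosed (((χ ^ n).ker : Subgroup E) : Set E) := by
        have : (((χ ^ n).ker : Subgroup E) : Set E) = {e | χ e ^ n = 1} := by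
          ext e
          rw [SetLike.mem_coe, MonoidHom.mem_ker]
          rfl
        rw [this]
        exact isClosed_eq (hχ.pow n) continuous_const
      have h2 : (En : Set K) = Subtype.val '' (((χ ^ n).ker : Subgroup E) : Set E) := rfl
      rw [h2]
      exact (h1.isCompact.image continuous_subtype_val).isClosed
    have hne : En ≠ E := by
      intro heq
      obtain ⟨z, hz, hxz⟩ := hdiv n hn x hxE
      have hzE : z ∈ En := by rw [heq]; exact hz
      obtain ⟨z', hz', hzz⟩ := hzE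
      have h1 : χ z' ^ n = 1 := hz'
      apply hχx
      have h2 : (⟨x, hxE⟩ : E) = z' ^ n := by
        apply Subtype.ext
        change x = (z' : K) ^ n
        rw [hxz, ← hzz]; rfl
      rw [h2, map_pow, h1]
    by_contra heS
    exact hne (hmin En hEnE hEnc trivial (fun hle => heS (hle ⟨e, he, rfl⟩)))
  -- images
  have himg : ∀ T : Subgroup E, IsClosed (T : Set E) → IsClosed ((T.map χ : Subgroup Circle) : Set Circle) := by
    intro T hT
    rw [Subgroup.coe_map]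
    exact (hT.isCompact.image hχ).isClosed
  have hScl : IsClosed ((S.subgroupOf E : Subgroup E) : Set E) := hS.preimage continuous_subtype_val
  rcases circle_sub _ (himg _ hScl) with ⟨n, hn, hz⟩ | htop
  · rcases circle_sub ((⊤ : Subgroup E).map χ) (himg _ isClosed_univ) with ⟨m, hm, hz'⟩ | htop
    · exact hxS (hker m hm ⟨x, hxE⟩ (hz' _ ⟨_, trivial, rfl⟩))
    · -- a root of unity of order `2 n`
      have hmem : Circle.exp (Real.pi / n) ∈ (⊤ : Subgroup E).map χ := by rw [htop]; trivial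
      obtain ⟨e, -, he⟩ := hmem
      have hn0 : (n : ℝ) ≠ 0 := by
        have : (0 : ℝ) < n := by exact_mod_cast hn
        exact this.ne'
      have h1 : Circle.exp (Real.pi / n) ^ n = Circle.exp Real.pi := by
        rw [← Circle.exp_nsmul]
        congr 1
        rw [nsmul_eq_mul]
        field_simp
      have h2 : χ e ^ (2 * n) = 1 := by
        rw [he, mul_comm, pow_mul, h1, ← Circle.exp_nsmul]
        have : (2 : ℕ) • Real.pi = 2 * Real.pi := by rw [nsmul_eq_mul]; norm_num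
        rw [this, Circle.exp_two_pi]
      have h3 := hker (2 * n) (by omega) e h2
      have h4 := hz (χ e) ⟨e, h3, rfl⟩
      rw [he, h1] at h4
      have h5 := congrArg (fun z : Circle => (z : ℂ)) h4
      simp only [Circle.coe_exp, Circle.coe_one] at h5
      rw [Complex.exp_pi_mul_I] at h5
      norm_num at h5
  · have hmem : χ ⟨x, hxE⟩ ∈ (S.subgroupOf E).map χ := by rw [htop]; trivial
    obtain ⟨s, hs, hsx⟩ := hmem
    have h1 : χ (s⁻¹ * ⟨x, hxE⟩) ^ 1 = 1 := by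
      rw [pow_one, map_mul, map_inv, hsx, inv_mul_cancel]
    have h2 := hker 1 le_rfl _ h1
    have h3 : (s : K) ∈ S := hs
    have h4 := S.mul_mem h3 h2
    have h5 : (s : K) * ((s⁻¹ * ⟨x, hxE⟩ : E) : K) = x := by
      change (s : K) * ((s : K)⁻¹ * x) = x
      rw [mul_inv_cancel_left]
    rw [h5] at h4
    exact hxS h4

end H658.ZM
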