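import Pool.Agent.H658R3.ZM2

set_option autoImplicit false
set_option linter.style.haveILetI false
set_option linter.unusedSectionVars false

open Filter Topology Pointwise

noncomputable section

namespace H658.ZM

open H645.MC

section cc

variable {K : Type} [Group K] [TopologicalSpace K] [IsTopologicalGroup K]

theorem cc_aux (A : Subgroup K) (x y : K) (hx : x ∈ connectedComponentIn (A : Set K) 1)
    (hy : y ∈ connectedComponentIn (A : Set K) 1) : x⁻¹ * y ∈ connectedComponentIn (A : Set K) 1 := by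
  have h1 : IsPreconnected ((fun z => x⁻¹ * z) '' connectedComponentIn (A : Set K) 1) :=
    isPreconnected_connectedComponentIn.image _ (by fun_prop)
  have h2 : (fun z => x⁻¹ * z) '' connectedComponentIn (A : Set K) 1 ⊆ A := by
    rintro _ ⟨z, hz, rfl⟩
    exact A.mul_mem (A.inv_mem (connectedComponentIn_subset _ _ hx)) (connectedComponentIn_subset _ _ hz)
  have h3 : (1 : K) ∈ (fun z => x⁻¹ * z) '' connectedComponentIn (A : Set K) 1 :=
    ⟨x, hx, inv_mul_cancel x⟩
  exact h1.subset_connectedComponentIn h3 h2 ⟨y, hy, rfl⟩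

/-- the identity component of a subgroup -/
def cc (A : Subgroup K) : Subgroup K where
  carrier := connectedComponentIn (A : Set K) 1
  one_mem' := mem_connectedComponentIn A.one_mem
  inv_mem' := by
    intro x hx
    have := cc_aux A x 1 hx (mem_connectedComponentIn A.one_mem)
    rwa [mul_one] at this
  mul_mem' := by
    intro x y hx hy
    have h1 := cc_aux A x 1 hx (mem_connectedComponentIn A.one_mem)
    rw [mul_one] at h1
    have := cc_aux A x⁻¹ y h1 hy
    rwa [inv_inv] at this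

theorem cc_le (A : Subgroup K) : cc A ≤ A := connectedComponentIn_subset _ _

theorem cc_preconnected (A : Subgroup K) : IsPreconnected (cc A : Set K) :=
  isPreconnected_connectedComponentIn

theorem subset_cc (A : Subgroup K) (P : Set K) (hP : IsPreconnected P) (h1 : (1 : K) ∈ P)
    (hPA : P ⊆ A) : P ⊆ cc A := hP.subset_connectedComponentIn h1 hPA

theorem cc_CN {A : Subgroup K} (hA : CN A) : CN (cc A) := by
  refine ⟨?_, ⟨fun a ha b => ?_⟩⟩
  · have h1 : IsPreconnected (closure (cc A : Set K)) := (cc_preconnected A).closure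
    have h2 : closure (cc A : Set K) ⊆ A := closure_minimal (cc_le A) hA.closed
    have h3 := subset_cc A _ h1 (subset_closure (one_mem (cc A))) h2
    exact closure_subset_iff_isClosed.1 h3
  · have h1 : IsPreconnected ((fun z => b * z * b⁻¹) '' (cc A : Set K)) :=
      (cc_preconnected A).image _ (by fun_prop)
    have h2 : (fun z => b * z * b⁻¹) '' (cc A : Set K) ⊆ A := by
      rintro _ ⟨z, hz, rfl⟩
      exact hA.normal.conj_mem z (cc_le A hz) b
    exact subset_cc A _ h1 ⟨1, one_mem (cc A), by simp⟩ h2 ⟨a, ha, rfl⟩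

/-- connected sets centralize totally disconnected normal subgroups -/
theorem centralize_of_cc_eq_bot (A : Subgroup K) (hA : A.Normal) (h : cc A = ⊥) (P : Set K)
    (hP : IsPreconnected P) (h1P : (1 : K) ∈ P) (p a : K) (hp : p ∈ P) (ha : a ∈ A) :
    p * a = a * p := by
  have h1 : IsPreconnected ((fun z => z * a * z⁻¹ * a⁻¹) '' P) := hP.image _ (by fun_prop)
  have h2 : (fun z => z * a * z⁻¹ * a⁻¹) '' P ⊆ A := by
    rintro _ ⟨z, hz, rfl⟩
    exact A.mul_mem (hA.conj_mem a ha z) (A.inv_mem ha)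
  have h3 := subset_cc A _ h1 ⟨1, h1P, by simp⟩ h2 ⟨p, hp, rfl⟩
  rw [h, Subgroup.coe_bot, Set.mem_singleton_iff] at h3
  have h4 : p * a * p⁻¹ * a⁻¹ = 1 := h3
  rw [mul_inv_eq_one, mul_inv_eq_iff_eq_mul] at h4
  exact h4

theorem td_of_cc (A : Subgroup K) (h : cc A = ⊥) : TotallyDisconnectedSpace A := by
  rw [totallyDisconnectedSpace_iff_connectedComponent_singleton]
  intro x
  refine Set.Subset.antisymm (fun y hy => ?_) (by
    rw [Set.singleton_subset_iff]; exact mem_connectedComponent)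
  have h1 : IsPreconnected ((fun z : A => (x : K)⁻¹ * (z : K)) '' connectedComponent x) :=
    isPreconnected_connectedComponent.image _ (by fun_prop)
  have h2 : (fun z : A => (x : K)⁻¹ * (z : K)) '' connectedComponent x ⊆ A := by
    rintro _ ⟨z, hz, rfl⟩
    exact A.mul_mem (A.inv_mem x.2) z.2
  have h3 := subset_cc A _ h1 ⟨x, mem_connectedComponent, by simp⟩ h2 ⟨y, hy, rfl⟩
  rw [h, Subgroup.coe_bot, Set.mem_singleton_iff] at h3
  have h4 : (x : K)⁻¹ * (y : K) = 1 := h3
  rw [inv_mul_eq_one] at h4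
  exact Set.mem_singleton_iff.2 (Subtype.ext h4.symm)

end cc

variable {K : Type} [Group K] [TopologicalSpace K]

/-- finite modulo every kernel -/
def FM (D : Subgroup K) : Prop :=
  ∀ L ∈ LK K, ∃ F : Set K, F.Finite ∧ (D : Set K) ⊆ F * (L : Set K)

theorem FM.mono {D D' : Subgroup K} (h : FM D') (hle : D ≤ D') : FM D := by
  intro L hL
  obtain ⟨F, hF, hD⟩ := h L hL
  exact ⟨F, hF, (show (D : Set K) ⊆ D' from hle).trans hD⟩

theorem FM.sup {D D' : Subgroup K} (h : FM D) (h' : FM D') (hn : D'.Normal) : FM (D ⊔ D') := by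
  intro L hL
  have := LK.normal hL
  obtain ⟨F, hF, hD⟩ := h L hL
  obtain ⟨F', hF', hD'⟩ := h' L hL
  refine ⟨F * F', hF.mul hF', ?_⟩
  rw [Subgroup.mul_normal]
  intro x hx
  obtain ⟨d, hd, d', hd', rfl⟩ := hx
  obtain ⟨f, hf, l, hl, rfl⟩ := hD hd
  obtain ⟨f', hf', l', hl', rfl⟩ := hD' hd'
  refine ⟨f * f', Set.mul_mem_mul hf hf', f'⁻¹ * l * f' * l', L.mul_mem ?_ hl', ?_⟩
  · have := (LK.normal hL).conj_mem l hl f'⁻¹
    simpa using this
  · simp only
    group

variable [IsTopologicalGroup K]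

theorem fin_mod (A : Subgroup K) (hA : IsCompact (A : Set K)) (L : Subgroup K) (W : Set K)
    (hW : W ∈ 𝓝 (1 : K)) (h : ∀ x ∈ A, x ∈ W → x ∈ L) :
    ∃ F : Set K, F.Finite ∧ (A : Set K) ⊆ F * (L : Set K) := by
  obtain ⟨t, htA, ht⟩ := hA.elim_nhds_subcover (fun x => x • W) (fun x _ => by
    have hc : ContinuousAt (fun y : K => x⁻¹ * y) x := by fun_prop
    have h1 : (fun y : K => x⁻¹ * y) ⁻¹' W ∈ 𝓝 x := by
      apply hc
      simpa using hW
    refine mem_of_superset h1 fun y hy => ?_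
    rw [Set.mem_smul_set_iff_inv_smul_mem]
    exact hy)
  refine ⟨t, t.finite_toSet, fun x hx => ?_⟩
  obtain ⟨y, hy, hxy⟩ := Set.mem_iUnion₂.1 (ht hx)
  have h1 := Set.mem_smul_set_iff_inv_smul_mem.1 hxy
  rw [smul_eq_mul] at h1
  exact ⟨y, hy, y⁻¹ * x, h _ (A.mul_mem (A.inv_mem (htA y hy)) hx) h1, mul_inv_cancel_left y x⟩

variable [CompactSpace K] [T2Space K]

theorem FM_of_cc (A : Subgroup K) (hA : IsClosed (A : Set K)) (h : cc A = ⊥) : FM A := by
  intro L hL
  have htd := td_of_cc A h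
  have hAc : CompactSpace A := isCompact_iff_compactSpace.1 hA.isCompact
  obtain ⟨U, hU, -, hnss⟩ := nss L hL
  obtain ⟨V, hVU, hVo, h1V⟩ := mem_nhds_iff.1 hU
  obtain ⟨C, hC, h1C, hCV⟩ := compact_exists_isClopen_in_isOpen (X := A)
    (hVo.preimage continuous_subtype_val) (x := 1) h1V
  obtain ⟨H, hH⟩ := IsTopologicalGroup.exist_openSubgroup_sub_clopen_nhds_of_one hC h1C
  have hHL : (H : Subgroup A).map A.subtype ≤ L := by
    apply hnss
    rintro _ ⟨x, hx, rfl⟩
    exact hVU (hCV (hH hx))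
  have hHn : (H : Set A) ∈ 𝓝 (1 : A) := H.isOpen.mem_nhds (one_mem H)
  rw [nhds_subtype_eq_comap] at hHn
  obtain ⟨W, hW, hWH⟩ := mem_comap.1 hHn
  exact fin_mod A hA.isCompact L W (by simpa using hW) (fun x hx hxW =>
    hHL ⟨⟨x, hx⟩, hWH (by simpa using hxW), rfl⟩)

theorem fin_mod_of_exponent (L : Subgroup K) (hL : L ∈ LK K) (B : Subgroup K)
    (hB : IsClosed (B : Set K)) (n : ℕ) (hn : 1 ≤ n) (h : ∀ b ∈ B, b ^ n ∈ L) :
    ∃ F : Set K, F.Finite ∧ (B : Set K) ⊆ F * (L : Set K) := by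
  obtain ⟨U, hU, hUL, hnss⟩ := nss L hL
  have hW : (⋂ k ∈ Finset.range n, (fun x : K => x ^ k) ⁻¹' U) ∈ 𝓝 (1 : K) := by
    rw [Finset.iInter_mem_sets]
    intro k _
    have hc : ContinuousAt (fun x : K => x ^ k) 1 := by fun_prop
    apply hc
    simpa using hU
  refine fin_mod B hB.isCompact L _ hW fun x hx hxW => ?_
  have h1 : ((Subgroup.zpowers x : Subgroup K) : Set K) ⊆ U := by
    rintro _ ⟨m, rfl⟩
    simp only
    have hn0 : (n : ℤ) ≠ 0 := by exact_mod_cast (by omega : n ≠ 0)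
    have e1 : x ^ m = x ^ (m % n).toNat * (x ^ n) ^ (m / n) := by
      rw [← zpow_natCast x, ← zpow_natCast x, ← zpow_mul, ← zpow_add,
        Int.toNat_of_nonneg (Int.emod_nonneg _ hn0), Int.emod_add_mul_ediv]
    rw [e1]
    apply hUL _ _ _ (L.zpow_mem (h x hx) _)
    have h2 := Set.mem_iInter₂.1 hxW (m % n).toNat (by
      rw [Finset.mem_range]
      have := Int.emod_lt_of_pos m (by exact_mod_cast hn : (0 : ℤ) < n)
      omega)
    exact h2
  exact hnss _ h1 (Subgroup.mem_zpowers x)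

/-- nontrivial abelian closed normal subgroups contain nontrivial profinite ones -/
theorem abelian_FM (A : Subgroup K) (hA : CN A) (hc : ∀ x ∈ A, ∀ y ∈ A, x * y = y * x)
    (hne : A ≠ ⊥) : ∃ B ≤ A, CN B ∧ B ≠ ⊥ ∧ FM B := by
  obtain ⟨a, ha, ha1⟩ := exists_ne_one hne
  obtain ⟨N, hN, haN⟩ := LK.sep ha1
  obtain ⟨B, hBA, hBc, hBn, hBN, hmin⟩ := exists_min_not_le (fun D : Subgroup K => D.Normal) (by
    intro c hc
    refine ⟨fun a ha b => ?_⟩
    rw [Subgroup.mem_sInf] at ha ⊢
    intro A hA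
    exact (hc A hA).conj_mem _ (ha A hA) b) N hN N A inf_le_left hA.closed hA.normal
    (fun h => haN (h ha))
  have hBCN : CN B := ⟨hBc, hBn⟩
  have hBcomm : ∀ x ∈ B, ∀ y ∈ B, x * y = y * x := fun x hx y hy => hc x (hBA hx) y (hBA hy)
  refine ⟨B, hBA, hBCN, ?_, ?_⟩
  · rintro rfl
    exact hBN bot_le
  · intro L hL
    have hLN := LK.inf hL hN
    have hfin : ∃ F : Set K, F.Finite ∧ (B : Set K) ⊆ F * ((L ⊓ N : Subgroup K) : Set K) := by
      by_contra hnf
      apply hBN
      have h1 : B ≤ B ⊓ N := by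
        refine tdens (L ⊓ N) hLN B (B ⊓ N) hBc hBcomm (hBc.inter (LK.closed hN)) inf_le_left ?_
        intro b hb n hn hbn
        refine ⟨hb, ?_⟩
        let Bn : Subgroup K :=
          { carrier := {x | x ∈ B ∧ x ^ n ∈ L ⊓ N}
            one_mem' := ⟨one_mem _, by rw [one_pow]; exact one_mem _⟩
            mul_mem' := by
              rintro x y ⟨hx, hx'⟩ ⟨hy, hy'⟩
              refine ⟨mul_mem hx hy, ?_⟩
              have : Commute x y := hBcomm x hx y hy
              rw [this.mul_pow]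
              exact mul_mem hx' hy'
            inv_mem' := by
              rintro x ⟨hx, hx'⟩
              refine ⟨inv_mem hx, ?_⟩
              rw [inv_pow]
              exact inv_mem hx' }
        have hBnc : IsClosed (Bn : Set K) := by
          have h2 : IsClosed ((fun x : K => x ^ n) ⁻¹' ((L ⊓ N : Subgroup K) : Set K)) :=
            (LK.closed hLN).preimage (by fun_prop)
          exact hBc.inter h2
        have hBnn : Bn.Normal := by
          refine ⟨fun x hx y => ⟨hBn.conj_mem x hx.1 y, ?_⟩⟩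
          rw [conj_pow]
          exact (LK.normal hLN).conj_mem _ hx.2 y
        by_contra hbN
        have hBnB : Bn = B := hmin Bn (fun x hx => hx.1) hBnc hBnn (fun hle => hbN (hle ⟨hb, hbn⟩))
        exact hnf (fin_mod_of_exponent (L ⊓ N) hLN B hBc n hn (fun x hx => by
          rw [← hBnB] at hx
          exact hx.2))
      exact h1.trans inf_le_right
    obtain ⟨F, hF, hBF⟩ := hfin
    exact ⟨F, hF, hBF.trans (Set.mul_subset_mul_left (fun x hx => hx.1))⟩

end H658.ZM
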