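import Pool.Agent.H658R3.ZM3
import Pool.Agent.H241R3.NilA

set_option autoImplicit false
set_option linter.style.haveILetI false
set_option linter.unusedSectionVars false

open Filter Topology Pointwise

noncomputable section

namespace H658.ZM

open H645.MC

theorem countable_closure {D : Type} [Group D] (h : ℕ → D) :
    ((Subgroup.closure (Set.range h) : Subgroup D) : Set D).Countable := by
  have h1 : Subgroup.closure (Set.range h) ≤ (FreeGroup.lift h).range := by
    rw [Subgroup.closure_le]
    rintro _ ⟨n, rfl⟩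
    exact ⟨FreeGroup.of n, by simp⟩
  have h2 : (((FreeGroup.lift h).range : Subgroup D) : Set D).Countable := by
    rw [MonoidHom.coe_range]
    exact Set.countable_range _
  exact h2.mono h1

theorem count_aux {D : Type} [Group D] [Countable D] (h : ℕ → D)
    (hD : Subgroup.closure (Set.range h) = ⊤) :
    {V : Subgroup D | V.Normal ∧ V.FiniteIndex ∧ ∃ n, ∀ k ≥ n, h k ∈ V}.Countable := by
  classical
  let f : ℕ × Finset D → Subgroup D := fun p =>
    Subgroup.closure (p.2 : Set D) ⊔ Subgroup.normalClosure (h '' Set.Ici p.1)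
  refine (Set.countable_range f).mono ?_
  rintro V ⟨hVn, hVf, n, hn⟩
  let N := Subgroup.normalClosure (h '' Set.Ici n)
  have hNV : N ≤ V := Subgroup.normalClosure_le_normal (by
    rintro _ ⟨k, hk, rfl⟩
    exact hn k hk)
  have hhN : ∀ k ≥ n, h k ∈ N := fun k hk => Subgroup.subset_normalClosure ⟨k, hk, rfl⟩
  let π : D →* D ⧸ N := QuotientGroup.mk' N
  have hπs : Function.Surjective π := QuotientGroup.mk'_surjective N
  have hπk : π.ker = N := QuotientGroup.ker_mk' N
  have hFG : Group.FG (D ⧸ N) := by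
    refine ⟨⟨(Finset.range n).image (fun k => π (h k)), ?_⟩⟩
    rw [eq_top_iff]
    have h1 : (⊤ : Subgroup (D ⧸ N)) = (Subgroup.closure (Set.range h)).map π := by
      rw [hD, ← MonoidHom.range_eq_map, MonoidHom.range_eq_top.2 hπs]
    rw [h1, MonoidHom.map_closure, Subgroup.closure_le]
    rintro _ ⟨_, ⟨k, rfl⟩, rfl⟩
    by_cases hk : k < n
    · apply Subgroup.subset_closure
      simp only [Finset.coe_image, Set.mem_image]
      exact ⟨k, by simpa using hk, rfl⟩
    · have : π (h k) = 1 := by
        rw [← MonoidHom.mem_ker, hπk]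
        exact hhN k (not_lt.1 hk)
      rw [this]
      exact one_mem _
  have hfi : (V.map π).FiniteIndex := by
    refine ⟨?_⟩
    rw [Subgroup.index_map_eq _ hπs (by rw [hπk]; exact hNV)]
    exact hVf.index_ne_zero
  have hfg : Group.FG (V.map π) := Subgroup.fg_of_index_ne_zero _
  obtain ⟨S, hS⟩ := (Group.fg_iff_subgroup_fg (V.map π)).1 hfg
  have hlift : ∀ s : S, ∃ v ∈ V, π v = s := by
    intro s
    have : (s : D ⧸ N) ∈ V.map π := by
      rw [← hS]
      exact Subgroup.subset_closure s.2
    exact this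
  choose v hv hvs using hlift
  refine ⟨(n, Finset.univ.image v), le_antisymm ?_ ?_⟩
  · refine sup_le ?_ hNV
    rw [Subgroup.closure_le]
    intro x hx
    simp only [Finset.coe_image, Finset.coe_univ, Set.image_univ, Set.mem_range] at hx
    obtain ⟨s, rfl⟩ := hx
    exact hv s
  · intro x hx
    have h1 : π x ∈ (Subgroup.closure ((Finset.univ.image v : Finset D) : Set D)).map π := by
      rw [MonoidHom.map_closure]
      have h2 : π x ∈ V.map π := ⟨x, hx, rfl⟩
      rw [← hS] at h2
      refine (Subgroup.closure_mono ?_) h2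
      intro s hs
      exact ⟨v ⟨s, hs⟩, by simp, hvs ⟨s, hs⟩⟩
    obtain ⟨w, hw, hwx⟩ := h1
    have h3 : w⁻¹ * x ∈ N := by
      rw [← hπk, MonoidHom.mem_ker, map_mul, map_inv, hwx, inv_mul_cancel]
    have h4 := Subgroup.mul_mem_sup hw h3
    rwa [mul_inv_cancel_left] at h4

theorem zd_of_nhds {Y : Type} [Group Y] [TopologicalSpace Y] [IsTopologicalGroup Y]
    (h : ∀ U ∈ 𝓝 (1 : Y), ∃ C : Set Y, IsClopen C ∧ 1 ∈ C ∧ C ⊆ U) :
    TopologicalSpace.IsTopologicalBasis {s : Set Y | IsClopen s} := by
  refine TopologicalSpace.isTopologicalBasis_of_isOpen_of_nhds (fun u hu => hu.2) ?_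
  intro a u ha hu
  have h1 : (fun y => a * y) ⁻¹' u ∈ 𝓝 (1 : Y) := by
    have hc : ContinuousAt (fun y : Y => a * y) 1 := by fun_prop
    apply hc
    simpa using hu.mem_nhds ha
  obtain ⟨C, hC, h1C, hCu⟩ := h _ h1
  refine ⟨(fun y => a⁻¹ * y) ⁻¹' C, hC.preimage (by fun_prop), ?_, ?_⟩
  · simpa using h1C
  · intro y hy
    have := hCu hy
    simpa using this

variable {K : Type} [Group K] [TopologicalSpace K] [IsTopologicalGroup K] [CompactSpace K]
  [T2Space K]

/-- the conclusion we are aiming at -/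
def Bad (G : Type) [Group G] [TopologicalSpace G] : Prop :=
  ∃ H : Subgroup G, IsClosed (H : Set G) ∧
    TopologicalSpace.IsTopologicalBasis {s : Set H | IsClopen s} ∧
    TopologicalSpace.MetrizableSpace H ∧ ¬ DiscreteTopology H

theorem mul_closed (F : Set K) (hF : F.Finite) (L : Subgroup K) (hL : IsClosed (L : Set K)) :
    IsClosed (F * (L : Set K)) := by
  exact (hF.isCompact.mul hL.isCompact).isClosed

/-- profinite metrizable closed subgroups from strongly null sequences -/
theorem lemmaA {G : Type} [Group G] [TopologicalSpace G] [IsTopologicalGroup G] [T2Space G]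
    (i : G →* K) (hi : IsInducing i) (g : ℕ → G) (hg1 : ∀ n, g n ≠ 1)
    (hgn : ∀ L ∈ LK K, ∀ᶠ n in atTop, i (g n) ∈ L)
    (hfm : ∀ n, FM (Subgroup.closure ((fun k => i (g k)) '' Set.Iio n))) : Bad G := by
  classical
  let h : ℕ → K := fun k => i (g k)
  let D : Subgroup K := Subgroup.closure (Set.range h)
  have hhD : ∀ k, h k ∈ D := fun k => Subgroup.subset_closure ⟨k, rfl⟩
  have hFMD : FM D := by
    intro L hL
    have hLn := LK.normal hL
    obtain ⟨n, hn⟩ := eventually_atTop.1 (hgn L hL)
    obtain ⟨F, hF, hFL⟩ := hfm n L hL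
    refine ⟨F, hF, ?_⟩
    have h1 : D ≤ Subgroup.closure (h '' Set.Iio n) ⊔ L := by
      rw [Subgroup.closure_le]
      rintro _ ⟨k, rfl⟩
      by_cases hk : k < n
      · exact Subgroup.mem_sup_left (Subgroup.subset_closure ⟨k, hk, rfl⟩)
      · exact Subgroup.mem_sup_right (hn k (not_lt.1 hk))
    intro x hx
    have h2 := h1 hx
    rw [← SetLike.mem_coe, Subgroup.mul_normal] at h2
    obtain ⟨y, hy, l, hl, rfl⟩ := h2
    obtain ⟨f, hf, l', hl', rfl⟩ := hFL hy
    exact ⟨f, hf, l' * l, L.mul_mem hl' hl, by simp only [mul_assoc]⟩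
  let B : Subgroup K := D.topologicalClosure
  have hDB : D ≤ B := Subgroup.le_topologicalClosure D
  have hBc : IsClosed (B : Set K) := Subgroup.isClosed_topologicalClosure D
  have hBD : (B : Set K) = closure (D : Set K) := rfl
  have hFMB : FM B := by
    intro L hL
    obtain ⟨F, hF, hFL⟩ := hFMD L hL
    refine ⟨F, hF, ?_⟩
    rw [hBD]
    exact closure_minimal hFL (mul_closed F hF L (LK.closed hL))
  -- complement of a kernel in `B`
  have hcompl : ∀ L ∈ LK K, ∃ C : Set K, IsClosed C ∧ ∀ x ∈ B, x ∈ L ↔ x ∉ C := by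
    intro L hL
    obtain ⟨F, hF, hFL⟩ := hFMB L hL
    refine ⟨(F \ L) * (L : Set K), mul_closed _ (hF.subset Set.sdiff_subset) L (LK.closed hL),
      fun x hx => ?_⟩
    constructor
    · rintro hxL ⟨f, hf, l, hl, rfl⟩
      apply hf.2
      have := L.mul_mem hxL (L.inv_mem hl)
      simpa using this
    · intro hxC
      by_contra hxL
      obtain ⟨f, hf, l, hl, rfl⟩ := hFL hx
      exact hxC ⟨f, ⟨hf, fun hfL => hxL (L.mul_mem hfL hl)⟩, l, hl, rfl⟩
  let H : Subgroup G := B.comap i
  have hgH : ∀ k, g k ∈ H := fun k => hDB (hhD k)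
  have hHc : IsClosed (H : Set G) := hBc.preimage hi.continuous
  let V : Subgroup K → Set H := fun L => {x | i (x : G) ∈ L}
  have hVclopen : ∀ L ∈ LK K, IsClopen (V L) := by
    intro L hL
    have hic : Continuous fun x : H => i (x : G) := hi.continuous.comp continuous_subtype_val
    obtain ⟨C, hC, hCL⟩ := hcompl L hL
    refine ⟨(LK.closed hL).preimage hic, ?_⟩
    have : V L = (fun x : H => i (x : G)) ⁻¹' Cᶜ := by
      ext x
      exact hCL _ x.2
    rw [this]
    exact hC.isOpen_compl.preimage hic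
  have hVone : ∀ L : Subgroup K, (1 : H) ∈ V L := by
    intro L
    change i ((1 : H) : G) ∈ L
    rw [Subgroup.coe_one, map_one]
    exact one_mem _
  have hbase : ∀ U ∈ 𝓝 (1 : H), ∃ L ∈ LK K, V L ⊆ U := by
    intro U hU
    rw [nhds_subtype_eq_comap] at hU
    obtain ⟨U', hU', hUU⟩ := mem_comap.1 hU
    rw [Subgroup.coe_one, hi.nhds_eq_comap, map_one] at hU'
    obtain ⟨W, hW, hWU⟩ := mem_comap.1 hU'
    obtain ⟨L, hL, hLW⟩ := exists_LK_subset W hW
    exact ⟨L, hL, fun x hx => hUU (hWU (hLW hx))⟩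
  refine ⟨H, hHc, zd_of_nhds fun U hU => ?_, ?_, ?_⟩
  · obtain ⟨L, hL, hLU⟩ := hbase U hU
    exact ⟨V L, hVclopen L hL, hVone L, hLU⟩
  · apply Pool.Agent.H241R3.Nil.metrizable_of
    -- countability
    have hcD : Countable D := (countable_closure h).to_subtype
    let h' : ℕ → D := fun k => ⟨h k, hhD k⟩
    have hh' : Subgroup.closure (Set.range h') = ⊤ := by
      apply Subgroup.map_injective D.subtype_injective
      rw [MonoidHom.map_closure, ← MonoidHom.range_eq_map, D.range_subtype]
      congr 1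
      ext x
      constructor
      · rintro ⟨_, ⟨k, rfl⟩, rfl⟩
        exact ⟨k, rfl⟩
      · rintro ⟨k, rfl⟩
        exact ⟨h' k, ⟨k, rfl⟩, rfl⟩
    have hcount := count_aux h' hh'
    let 𝒱 : Set (Set H) := V '' LK K
    have hmemc : ∀ L ∈ LK K, L.subgroupOf D ∈ {V : Subgroup D | V.Normal ∧ V.FiniteIndex ∧
        ∃ n, ∀ k ≥ n, h' k ∈ V} := by
      intro L hL
      have hLn := LK.normal hL
      refine ⟨inferInstance, ?_, ?_⟩
      · refine ⟨?_⟩
        obtain ⟨F, hF, hFL⟩ := hFMD L hL
        have hfin : Finite (D ⧸ L.subgroupOf D) := by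
          let φ : D ⧸ L.subgroupOf D → K ⧸ L := Quotient.lift (fun d : D => (QuotientGroup.mk (d : K) : K ⧸ L)) (by
            intro a b hab
            rw [QuotientGroup.eq]
            have := QuotientGroup.leftRel_apply.1 hab
            exact this)
          have hφ : Function.Injective φ := by
            intro a b
            induction a using QuotientGroup.induction_on with
            | _ a =>
            induction b using QuotientGroup.induction_on with
            | _ b =>
            intro hab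
            have h1 : (QuotientGroup.mk (a : K) : K ⧸ L) = QuotientGroup.mk (b : K) := hab
            rw [QuotientGroup.eq] at h1 ⊢
            exact h1
          have hr : (Set.range φ).Finite := by
            refine (hF.image (fun f => (QuotientGroup.mk f : K ⧸ L))).subset ?_
            rintro _ ⟨a, rfl⟩
            induction a using QuotientGroup.induction_on with
            | _ a =>
            obtain ⟨f, hf, l, hl, hfl⟩ := hFL a.2
            refine ⟨f, hf, ?_⟩
            change (QuotientGroup.mk f : K ⧸ L) = QuotientGroup.mk (a : K)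
            rw [QuotientGroup.eq, ← hfl]
            simpa using hl
          have := hr.to_subtype
          exact Finite.of_injective (fun a => (⟨φ a, a, rfl⟩ : Set.range φ))
            (fun a b hab => hφ (congrArg Subtype.val hab))
        exact Subgroup.index_ne_zero_of_finite
      · obtain ⟨n, hn⟩ := eventually_atTop.1 (hgn L hL)
        exact ⟨n, fun k hk => hn k hk⟩
    have hdet : ∀ L ∈ LK K, ∀ L' ∈ LK K, L.subgroupOf D = L'.subgroupOf D → V L ⊆ V L' := by
      intro L hL L' hL' heq x hx
      by_contra hx'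
      obtain ⟨C, hC, hCL⟩ := hcompl L hL
      have hxcl : i (x : G) ∈ closure (D : Set K) := x.2
      rw [mem_closure_iff] at hxcl
      obtain ⟨d, hd, hdD⟩ := hxcl (Cᶜ ∩ ((L' : Set K))ᶜ)
        (hC.isOpen_compl.inter (LK.closed hL').isOpen_compl) ⟨(hCL _ x.2).1 hx, hx'⟩
      have h1 : d ∈ L := (hCL d (hDB hdD)).2 hd.1
      have h2 : (⟨d, hdD⟩ : D) ∈ L.subgroupOf D := h1
      rw [heq] at h2
      exact hd.2 h2
    have h𝒱 : 𝒱.Countable := by
      have hinj : ∀ v : 𝒱, ∃ L ∈ LK K, V L = v := fun v => v.2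
      choose Lf hLf hLv using hinj
      let φ : 𝒱 → {V : Subgroup D | V.Normal ∧ V.FiniteIndex ∧ ∃ n, ∀ k ≥ n, h' k ∈ V} :=
        fun v => ⟨(Lf v).subgroupOf D, hmemc _ (hLf v)⟩
      have hφ : Function.Injective φ := by
        intro a b hab
        have h1 : (Lf a).subgroupOf D = (Lf b).subgroupOf D := congrArg Subtype.val hab
        apply Subtype.ext
        rw [← hLv a, ← hLv b]
        exact Set.Subset.antisymm (hdet _ (hLf a) _ (hLf b) h1) (hdet _ (hLf b) _ (hLf a) h1.symm)
      have := hcount.to_subtype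
      exact Set.countable_coe_iff.1 hφ.countable
    refine ⟨⟨𝒱, h𝒱, le_antisymm ?_ ?_⟩⟩
    · rw [le_generate_iff]
      rintro _ ⟨L, hL, rfl⟩
      exact (hVclopen L hL).2.mem_nhds (hVone L)
    · intro U hU
      obtain ⟨L, hL, hLU⟩ := hbase U hU
      exact mem_of_superset (mem_generate_of_mem ⟨L, hL, rfl⟩) hLU
  · intro hdis
    have h1 : ({1} : Set H) ∈ 𝓝 (1 : H) := (isOpen_discrete _).mem_nhds rfl
    obtain ⟨L, hL, hLU⟩ := hbase _ h1
    obtain ⟨n, hn⟩ := (hgn L hL).exists
    have h2 : (⟨g n, hgH n⟩ : H) ∈ ({1} : Set H) := hLU hn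
    exact hg1 n (congrArg Subtype.val (Set.mem_singleton_iff.1 h2))

end H658.ZM
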