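import Pool.Agent.H658R3.ZM4

set_option autoImplicit false
set_option linter.style.haveILetI false
set_option linter.unusedSectionVars false

open Filter Topology Pointwise

noncomputable section

namespace H658.ZM

open H645.MC

theorem circle_pow_eq_one (z : Circle) (n : ℕ) (hn : 1 ≤ n)
    (h : (z : ℂ).re = Real.cos (2 * Real.pi / n)) : z ^ n = 1 := by
  obtain ⟨φ, rfl⟩ := Circle.exp_surjective z
  have hn0 : (n : ℝ) ≠ 0 := by
    have : (0 : ℝ) < n := by exact_mod_cast hn
    exact this.ne'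
  rw [Circle.coe_exp, Complex.exp_ofReal_mul_I_re, Real.cos_eq_cos_iff] at h
  obtain ⟨k, hk⟩ := h
  rw [← Circle.exp_nsmul]
  rcases hk with hk | hk
  · have h1 : φ = 2 * Real.pi / n - 2 * k * Real.pi := by linarith
    have h2 : n • φ = ((1 - n * k : ℤ) : ℝ) * (2 * Real.pi) := by
      rw [h1, nsmul_eq_mul]
      push_cast
      field_simp
    rw [h2]
    exact Circle.exp_int_mul_two_pi _
  · have h1 : φ = 2 * k * Real.pi - 2 * Real.pi / n := by linarith
    have h2 : n • φ = ((n * k - 1 : ℤ) : ℝ) * (2 * Real.pi) := by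
      rw [h1, nsmul_eq_mul]
      push_cast
      field_simp
    rw [h2]
    exact Circle.exp_int_mul_two_pi _

theorem circle_exists_n (z : Circle) (hz : z ≠ 1) :
    ∃ n : ℕ, 2 ≤ n ∧ (z : ℂ).re < Real.cos (2 * Real.pi / n) := by
  have h1 : (z : ℂ).re < 1 := by
    have h2 : (z : ℂ).re ≤ 1 := by
      have := Complex.re_le_norm (z : ℂ)
      rwa [Circle.norm_coe] at this
    refine lt_of_le_of_ne h2 fun h3 => hz ?_
    apply Circle.ext
    have h4 := Circle.normSq_coe z
    rw [Complex.normSq_apply, h3] at h4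
    apply Complex.ext
    · rw [h3]; rfl
    · have h5 : (z : ℂ).im * (z : ℂ).im = 0 := by linarith
      have h6 := mul_self_eq_zero.1 h5
      rw [h6]; rfl
  have hlim : Tendsto (fun n : ℕ => Real.cos (2 * Real.pi / n)) atTop (𝓝 1) := by
    have h3 : Tendsto (fun n : ℕ => 2 * Real.pi / (n : ℝ)) atTop (𝓝 0) :=
      tendsto_const_div_atTop_nhds_zero_nat _
    have := (Real.continuous_cos.tendsto 0).comp h3
    rwa [Real.cos_zero] at this
  obtain ⟨n, hn, hn2⟩ := ((hlim.eventually (lt_mem_nhds h1)).and (eventually_ge_atTop 2)).exists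
  exact ⟨n, hn2, hn⟩

theorem cos_lt_one (n : ℕ) (hn : 2 ≤ n) : Real.cos (2 * Real.pi / n) < 1 := by
  have hn0 : (0 : ℝ) < n := by exact_mod_cast (by omega : 0 < n)
  have h1 : 0 < 2 * Real.pi / n := by positivity
  have h2 : 2 * Real.pi / n ≤ Real.pi := by
    rw [div_le_iff₀ hn0]
    have : (2 : ℝ) ≤ n := by exact_mod_cast hn
    nlinarith [Real.pi_pos]
  have := Real.cos_lt_cos_of_nonneg_of_le_pi le_rfl h2 h1
  rwa [Real.cos_zero] at this

variable {K : Type} [Group K] [TopologicalSpace K] [IsTopologicalGroup K] [CompactSpace K]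
  [T2Space K]

theorem exists_pow_mem (x : K) (W : Set K) (hW : W ∈ 𝓝 (1 : K)) : ∃ n : ℕ, 1 ≤ n ∧ x ^ n ∈ W := by
  obtain ⟨V, hV, hVW⟩ := exists_nhds_split_inv hW
  obtain ⟨t, -, ht⟩ := isCompact_univ.elim_nhds_subcover (fun y : K => (fun z => z * y⁻¹) ⁻¹' V)
    (fun y _ => by
      have hc : ContinuousAt (fun z : K => z * y⁻¹) y := by fun_prop
      apply hc
      simpa using hV)
  have hex : ∀ n : ℕ, ∃ y : t, x ^ n * (y : K)⁻¹ ∈ V := by
    intro n
    obtain ⟨y, hy, hxy⟩ := Set.mem_iUnion₂.1 (ht (Set.mem_univ (x ^ n)))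
    exact ⟨⟨y, hy⟩, hxy⟩
  choose f hf using hex
  obtain ⟨m, n, hmn, hfmn⟩ := Finite.exists_ne_map_eq_of_infinite f
  have key : ∀ m n : ℕ, m < n → f m = f n → ∃ n : ℕ, 1 ≤ n ∧ x ^ n ∈ W := by
    intro m n hlt hfe
    refine ⟨n - m, by omega, ?_⟩
    have h1 := hVW _ (hf n) _ (hf m)
    rw [hfe] at h1
    have h2 : x ^ n * (f n : K)⁻¹ / (x ^ m * (f n : K)⁻¹) = x ^ (n - m) := by
      rw [div_eq_mul_inv, mul_inv_rev, inv_inv, mul_assoc, inv_mul_cancel_left, pow_sub _ hlt.le]
    rwa [h2] at h1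
  rcases lt_or_gt_of_ne hmn with h | h
  · exact key m n h hfmn
  · exact key n m h hfmn.symm

/-- torsion elements in Lie subgroups -/
theorem lie_torsion {G : Type} [Group G] [TopologicalSpace G] [IsTopologicalGroup G] [T2Space G]
    (i : G →* K) (hi : IsInducing i) (hbad : ¬ Bad G) (Q : Subgroup K) (hQ : IsClosed (Q : Set K))
    (N : Subgroup K) (hN : N ∈ LK K) (hQN : Q ⊓ N = ⊥) (hex : ∃ g : G, g ≠ 1 ∧ i g ∈ Q) :
    ∃ g : G, g ≠ 1 ∧ i g ∈ Q ∧ ∃ n : ℕ, 1 ≤ n ∧ g ^ n = 1 := by
  classical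
  by_contra hT
  push Not at hT
  apply hbad
  obtain ⟨g1, hg1, hg1Q⟩ := hex
  let S : Set (Subgroup K) := {T | IsClosed (T : Set K) ∧ T ≤ Q ∧ (∀ x ∈ T, ∀ y ∈ T, x * y = y * x) ∧
    ∃ g : G, g ≠ 1 ∧ i g ∈ T}
  have hM0 : (Subgroup.zpowers (i g1)).topologicalClosure ∈ S := by
    refine ⟨Subgroup.isClosed_topologicalClosure _, ?_, ?_, g1, hg1,
      Subgroup.le_topologicalClosure _ (Subgroup.mem_zpowers _)⟩
    · exact Subgroup.topologicalClosure_minimal _ (by
        rw [Subgroup.zpowers_le]; exact hg1Q) hQ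
    · let cG := Subgroup.commGroupTopologicalClosure (Subgroup.zpowers (i g1)) (by
        rintro ⟨_, a, rfl⟩ ⟨_, b, rfl⟩
        apply Subtype.ext
        change i g1 ^ a * i g1 ^ b = i g1 ^ b * i g1 ^ a
        rw [← zpow_add, ← zpow_add, add_comm])
      intro x hx y hy
      have := cG.mul_comm ⟨x, hx⟩ ⟨y, hy⟩
      exact congrArg Subtype.val this
  obtain ⟨T, ⟨hTc, hTQ, hTcomm, g0, hg0, hg0T⟩, -, hmin⟩ := exists_min S _ hM0 (by
    intro c hc hne hch
    obtain ⟨N0, hN0, hle⟩ := dcc_le c hne hch (fun A hA => (hc hA).1) N hN Q (sInf c)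
      (fun A hA => (hc hA).2.1) (by rw [inf_comm, hQN]; exact bot_le) le_rfl
    have : sInf c = N0 := le_antisymm (sInf_le hN0) hle
    rw [this]
    exact hc hN0)
  let _ : CommGroup T := { (inferInstance : Group T) with
    mul_comm := fun a b => Subtype.ext (hTcomm a a.2 b b.2) }
  have hTcomp : CompactSpace T := isCompact_iff_compactSpace.1 hTc.isCompact
  -- kernels of characters
  have hchar : ∀ χ : T →* Circle, Continuous χ → (∃ y, χ y ≠ 1) → ∀ n : ℕ, 1 ≤ n → ∀ g : G,
      ∀ hg : i g ∈ T, χ ⟨i g, hg⟩ ^ n = 1 → g = 1 := by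
    intro χ hχ hnt n hn g hg hgn
    have hE : ∀ n : ℕ, ∃ E : Subgroup K, IsClosed (E : Set K) ∧ E ≤ T ∧
        ∀ x, ∀ hx : x ∈ T, x ∈ E ↔ χ ⟨x, hx⟩ ^ n = 1 := by
      intro n
      refine ⟨((χ ^ n).ker).map T.subtype, ?_, ?_, ?_⟩
      · have h1 : IsClosed (((χ ^ n).ker : Subgroup T) : Set T) := by
          have : (((χ ^ n).ker : Subgroup T) : Set T) = {e | χ e ^ n = 1} := by
            ext e
            rw [SetLike.mem_coe, MonoidHom.mem_ker]
            rfl
          rw [this]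
          exact isClosed_eq (hχ.pow n) continuous_const
        rw [Subgroup.coe_map]
        exact (h1.isCompact.image continuous_subtype_val).isClosed
      · rintro _ ⟨e, _, rfl⟩
        exact e.2
      · intro x hx
        constructor
        · rintro ⟨e, he, rfl⟩
          exact he
        · intro h
          exact ⟨⟨x, hx⟩, h, rfl⟩
    by_contra hg1
    obtain ⟨E, hEc, hET, hEm⟩ := hE n
    have hEeq : E = T := hmin E ⟨hEc, hET.trans hTQ, fun x hx y hy => hTcomm x (hET hx) y (hET hy),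
      g, hg1, (hEm _ hg).2 hgn⟩ hET
    obtain ⟨E1, hE1c, hE1T, hE1m⟩ := hE 1
    have hg0n : i (g0 ^ n) ∈ T := by
      rw [map_pow]; exact T.pow_mem hg0T n
    have h2 : i (g0 ^ n) ∈ E1 := by
      rw [hE1m _ hg0n, pow_one]
      have h3 : χ ⟨i g0, hg0T⟩ ^ n = 1 := by
        rw [← hEm _ hg0T, hEeq]; exact hg0T
      rw [← map_pow] at h3
      rw [← h3]
      congr 1
      apply Subtype.ext
      change i (g0 ^ n) = (i g0) ^ n
      rw [map_pow]
    have h4 : E1 = T := hmin E1 ⟨hE1c, hE1T.trans hTQ, fun x hx y hy =>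
      hTcomm x (hE1T hx) y (hE1T hy), g0 ^ n, hT g0 hg0 (hTQ hg0T) n hn, h2⟩ hE1T
    obtain ⟨y, hy⟩ := hnt
    apply hy
    have h5 : (y : K) ∈ E1 := by rw [h4]; exact y.2
    have h6 := (hE1m _ y.2).1 h5
    rwa [pow_one] at h6
  refine ⟨T.comap i, hTc.preimage hi.continuous, zd_of_nhds fun U hU => ?_, ?_, ?_⟩
  · rw [nhds_subtype_eq_comap] at hU
    obtain ⟨U', hU', hUU⟩ := mem_comap.1 hU
    rw [Subgroup.coe_one, hi.nhds_eq_comap, map_one] at hU'
    obtain ⟨W', hW', hWU⟩ := mem_comap.1 hU'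
    obtain ⟨W, hWW', hWo, h1W⟩ := mem_nhds_iff.1 hW'
    let ι : Type := {p : (T →* Circle) × ℕ // Continuous p.1 ∧ 2 ≤ p.2 ∧ ∃ y, p.1 y ≠ 1}
    have hcomp : IsCompact ((Subtype.val : T → K) ⁻¹' Wᶜ) :=
      (hWo.isClosed_compl.preimage continuous_subtype_val).isCompact
    have hre : ∀ p : ι, Continuous fun t : T => ((p.1.1 t : Circle) : ℂ).re := fun p =>
      Complex.continuous_re.comp (continuous_subtype_val.comp p.2.1)
    obtain ⟨t, ht⟩ := hcomp.elim_finite_subcover
      (fun p : ι => {t : T | ((p.1.1 t : Circle) : ℂ).re < Real.cos (2 * Real.pi / p.1.2)})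
      (fun p => isOpen_lt (hre p) continuous_const) (by
        intro y hy
        have hy1 : y ≠ 1 := by
          rintro rfl
          exact hy h1W
        obtain ⟨χ, hχ, hχy⟩ := H645.char_sep_mul T y hy1
        obtain ⟨n, hn, hlt⟩ := circle_exists_n _ hχy
        exact Set.mem_iUnion.2 ⟨⟨(χ, n), hχ, hn, y, hχy⟩, hlt⟩)
    let φ : T.comap i → T := fun x => ⟨i x, x.2⟩
    have hφ : Continuous φ := (hi.continuous.comp continuous_subtype_val).subtype_mk _
    refine ⟨⋂ p ∈ t, {x : T.comap i | Real.cos (2 * Real.pi / p.1.2) <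
      ((p.1.1 (φ x) : Circle) : ℂ).re}, ?_, ?_, ?_⟩
    · refine isClopen_biInter_finset fun p _ => ⟨?_, isOpen_lt continuous_const ((hre p).comp hφ)⟩
      have heq : {x : T.comap i | Real.cos (2 * Real.pi / p.1.2) < ((p.1.1 (φ x) : Circle) : ℂ).re} =
          {x : T.comap i | Real.cos (2 * Real.pi / p.1.2) ≤ ((p.1.1 (φ x) : Circle) : ℂ).re} := by
        ext x
        constructor
        · intro h
          rw [Set.mem_ofPred_eq] at h ⊢
          exact le_of_lt h
        · intro h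
          rw [Set.mem_ofPred_eq] at h ⊢
          refine lt_of_le_of_ne h fun h' => ?_
          have h1 := circle_pow_eq_one _ p.1.2 (by have := p.2.2.1; omega) h'.symm
          have h2 := hchar p.1.1 p.2.1 p.2.2.2 p.1.2 (by have := p.2.2.1; omega) x x.2 h1
          have h3 : φ x = 1 := by
            apply Subtype.ext
            change i (x : G) = 1
            rw [h2, map_one]
          rw [h3, map_one] at h'
          have h4 := cos_lt_one p.1.2 p.2.2.1
          rw [h'] at h4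
          simp at h4
      rw [heq]
      exact isClosed_le continuous_const ((hre p).comp hφ)
    · rw [Set.mem_iInter₂]
      intro p _
      have h3 : φ 1 = 1 := by
        apply Subtype.ext
        change i ((1 : T.comap i) : G) = 1
        rw [Subgroup.coe_one, map_one]
      change Real.cos (2 * Real.pi / p.1.2) < ((p.1.1 (φ 1) : Circle) : ℂ).re
      rw [h3, map_one]
      have h4 := cos_lt_one p.1.2 p.2.2.1
      simpa using h4
    · intro x hx
      apply hUU
      apply hWU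
      apply hWW'
      by_contra hxW
      obtain ⟨p, hp, hlt⟩ := Set.mem_iUnion₂.1 (ht (show φ x ∈ (Subtype.val : T → K) ⁻¹' Wᶜ from hxW))
      have := Set.mem_iInter₂.1 hx p hp
      rw [Set.mem_ofPred_eq] at this hlt
      exact lt_asymm this hlt
  · apply Pool.Agent.H241R3.Nil.metrizable_of
    obtain ⟨ι, _, _, ρ, hρ, rfl⟩ := hN
    let ψ : T → Matrix ι ι ℂ := fun x => ρ x
    have hψ : Continuous ψ := hρ.comp continuous_subtype_val
    have hψi : Function.Injective ψ := by
      intro a b hab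
      have h1 : (a : K)⁻¹ * b ∈ Q ⊓ ρ.ker := by
        have hab' : ρ a = ρ b := hab
        rw [Subgroup.mem_inf, MonoidHom.mem_ker, map_mul, ← hab', ← map_mul, inv_mul_cancel, map_one]
        exact ⟨Q.mul_mem (Q.inv_mem (hTQ a.2)) (hTQ b.2), rfl⟩
      rw [hQN, Subgroup.mem_bot, inv_mul_eq_one] at h1
      exact Subtype.ext h1
    have hψe : IsInducing ψ := (hψ.isClosedEmbedding hψi).isInducing
    let φ : T.comap i → T := fun x => ⟨i x, x.2⟩
    have hφ : Continuous φ := (hi.continuous.comp continuous_subtype_val).subtype_mk _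
    have hφi : IsInducing φ := by
      have h1 : IsInducing ((Subtype.val : T → K) ∘ φ) := hi.comp IsInducing.subtypeVal
      exact IsInducing.of_comp hφ continuous_subtype_val h1
    have hfc : FirstCountableTopology (Matrix ι ι ℂ) :=
      (inferInstance : FirstCountableTopology (ι → ι → ℂ))
    rw [(hψe.comp hφi).nhds_eq_comap]
    infer_instance
  · intro hdis
    have h1 : ({1} : Set (T.comap i)) ∈ 𝓝 (1 : T.comap i) := (isOpen_discrete _).mem_nhds rfl
    rw [nhds_subtype_eq_comap] at h1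
    obtain ⟨U', hU', hUU⟩ := mem_comap.1 h1
    rw [Subgroup.coe_one, hi.nhds_eq_comap, map_one] at hU'
    obtain ⟨W, hW, hWU⟩ := mem_comap.1 hU'
    obtain ⟨n, hn, hnW⟩ := exists_pow_mem (i g0) W hW
    have hmem : g0 ^ n ∈ T.comap i := by
      rw [Subgroup.mem_comap, map_pow]
      exact T.pow_mem hg0T n
    have h2 : (⟨g0 ^ n, hmem⟩ : T.comap i) ∈ ({1} : Set (T.comap i)) := by
      apply hUU
      apply hWU
      change i (g0 ^ n) ∈ W
      rw [map_pow]
      exact hnW
    exact hT g0 hg0 (hTQ hg0T) n hn (congrArg Subtype.val (Set.mem_singleton_iff.1 h2))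

end H658.ZM
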