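import Pool.Agent.H658R3.ZM5
import Pool.Agent.H645R3.MC3

set_option autoImplicit false
set_option linter.style.haveILetI false
set_option linter.unusedSectionVars false

open Filter Topology Pointwise

noncomputable section

namespace H658.ZM

open H645.MC

theorem finite_extend {K : Type} [Group K] (F : Subgroup K) (hF : (F : Set K).Finite) (x : K)
    (hx : ∀ f ∈ F, x * f = f * x) (n : ℕ) (hn : 1 ≤ n) (hxn : x ^ n = 1) :
    ∃ F' : Subgroup K, (F' : Set K).Finite ∧ F ≤ F' ∧ x ∈ F' ∧
      ∀ y, (∀ f ∈ F, y * f = f * y) → y * x = x * y → ∀ f ∈ F', y * f = f * y := by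
  have hcx : ∀ f ∈ F, ∀ k : ℤ, x ^ k * f = f * x ^ k := fun f hf k =>
    ((show Commute x f from hx f hf).zpow_left k).eq
  refine ⟨{ carrier := {z | ∃ f ∈ F, ∃ k : ℤ, z = f * x ^ k}
            one_mem' := ⟨1, one_mem _, 0, by simp⟩
            mul_mem' := ?_
            inv_mem' := ?_ }, ?_, ?_, ?_, ?_⟩
  · rintro _ _ ⟨f, hf, k, rfl⟩ ⟨f', hf', k', rfl⟩
    refine ⟨f * f', mul_mem hf hf', k + k', ?_⟩
    rw [zpow_add, mul_assoc f, ← mul_assoc (x ^ k), hcx f' hf' k]
    simp only [mul_assoc]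
  · rintro _ ⟨f, hf, k, rfl⟩
    refine ⟨f⁻¹, inv_mem hf, -k, ?_⟩
    rw [mul_inv_rev, ← zpow_neg, hcx _ (inv_mem hf)]
  · have hfo : IsOfFinOrder x := isOfFinOrder_iff_pow_eq_one.2 ⟨n, hn, hxn⟩
    have hz : ((Subgroup.zpowers x : Subgroup K) : Set K).Finite := by
      have := hfo.finite_zpowers
      exact this
    refine (hF.mul hz).subset ?_
    rintro _ ⟨f, hf, k, rfl⟩
    exact ⟨f, hf, x ^ k, ⟨k, rfl⟩, rfl⟩
  · intro f hf
    exact ⟨f, hf, 0, by simp⟩
  · exact ⟨1, one_mem _, 1, by simp⟩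
  · rintro y hy hyx _ ⟨f, hf, k, rfl⟩
    have h1 : y * x ^ k = x ^ k * y := ((show Commute y x from hyx).zpow_right k).eq
    rw [← mul_assoc, hy f hf, mul_assoc, h1, mul_assoc]

theorem finite_commuting {K : Type} [Group K] (h : ℕ → K)
    (hc : ∀ m n, m < n → h m * h n = h n * h m) (ht : ∀ m, ∃ n : ℕ, 1 ≤ n ∧ h m ^ n = 1) (n : ℕ) :
    ∃ F : Subgroup K, (F : Set K).Finite ∧ (∀ k < n, h k ∈ F) ∧
      ∀ m ≥ n, ∀ f ∈ F, h m * f = f * h m := by
  induction n with
  | zero =>
    refine ⟨⊥, by rw [Subgroup.coe_bot]; exact Set.finite_singleton _, by simp, ?_⟩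
    rintro m - f hf
    rw [Subgroup.mem_bot.1 hf, mul_one, one_mul]
  | succ n ih =>
    obtain ⟨F, hF, hk, hm⟩ := ih
    obtain ⟨e, he, hne⟩ := ht n
    obtain ⟨F', hF', hle, hn, hcomm⟩ := finite_extend F hF (h n) (hm n le_rfl) e he hne
    refine ⟨F', hF', fun k hkn => ?_, fun m hmn => ?_⟩
    · rcases Nat.lt_succ_iff_lt_or_eq.1 hkn with h | h
      · exact hle (hk k h)
      · rw [h]; exact hn
    · exact hcomm (h m) (hm m (by omega)) (hc n m (by omega)).symm

theorem centralizer_CN {K : Type} [Group K] [TopologicalSpace K] [IsTopologicalGroup K] [T2Space K]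
    (R : Subgroup K) (hR : R.Normal) : CN (Subgroup.centralizer (R : Set K)) := by
  refine ⟨?_, inferInstance⟩
  have : ((Subgroup.centralizer (R : Set K) : Subgroup K) : Set K) = ⋂ r ∈ R, {x | r * x = x * r} := by
    ext x
    simp [Subgroup.mem_centralizer_iff]
  rw [this]
  exact isClosed_biInter fun r _ => isClosed_eq (by fun_prop) (by fun_prop)

variable {K : Type} [Group K] [TopologicalSpace K] [IsTopologicalGroup K] [CompactSpace K]
  [T2Space K]

theorem FM_of_finite (D : Subgroup K) (hD : (D : Set K).Finite) : FM D := fun L _ =>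
  ⟨D, hD, fun x hx => ⟨x, hx, 1, one_mem L, mul_one x⟩⟩

/-- a strongly null sequence of profinite closed normal subgroups gives the bad subgroup -/
theorem caseFM {G : Type} [Group G] [TopologicalSpace G] [IsTopologicalGroup G] [T2Space G]
    (i : G →* K) (hi : IsInducing i)
    (hess : ∀ N : Subgroup K, CN N → N ≠ ⊥ → ∃ g : G, g ≠ 1 ∧ i g ∈ N)
    (B : ℕ → Subgroup K) (hB : ∀ n, CN (B n)) (hB1 : ∀ n, B n ≠ ⊥) (hBF : ∀ n, FM (B n))
    (hnull : ∀ L ∈ LK K, ∀ᶠ n in atTop, B n ≤ L) : Bad G := by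
  choose g hg1 hg using fun n => hess (B n) (hB n) (hB1 n)
  have hsup : ∀ n : ℕ, ∃ D : Subgroup K, D.Normal ∧ FM D ∧ ∀ k < n, B k ≤ D := by
    intro n
    induction n with
    | zero => exact ⟨⊥, inferInstance, FM_of_finite _ (by
        rw [Subgroup.coe_bot]; exact Set.finite_singleton _), by simp⟩
    | succ n ih =>
      obtain ⟨D, hD, hDF, hk⟩ := ih
      have := (hB n).normal
      refine ⟨D ⊔ B n, inferInstance, hDF.sup (hBF n) (hB n).normal, fun k hkn => ?_⟩
      rcases Nat.lt_succ_iff_lt_or_eq.1 hkn with h | h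
      · exact (hk k h).trans le_sup_left
      · rw [h]; exact le_sup_right
  refine lemmaA i hi g hg1 (fun L hL => ?_) (fun n => ?_)
  · filter_upwards [hnull L hL] with n hn
    exact hn (hg n)
  · obtain ⟨D, -, hDF, hk⟩ := hsup n
    refine hDF.mono ?_
    rw [Subgroup.closure_le]
    rintro _ ⟨k, hkn, rfl⟩
    exact hk k hkn (hg k)

theorem main {G : Type} [Group G] [TopologicalSpace G] [IsTopologicalGroup G] [T2Space G]
    (i : G →* K) (hi : IsInducing i)
    (hess : ∀ N : Subgroup K, CN N → N ≠ ⊥ → ∃ g : G, g ≠ 1 ∧ i g ∈ N)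
    (hK : (⊥ : Subgroup K) ∉ LK K) : Bad G := by
  classical
  by_contra hbad
  apply hbad
  have htop : CN (⊤ : Subgroup K) := ⟨by rw [Subgroup.coe_top]; exact isClosed_univ, inferInstance⟩
  let K0 : Subgroup K := cc ⊤
  have hK0 : CN K0 := cc_CN htop
  have hK0c : IsPreconnected (K0 : Set K) := cc_preconnected _
  let C : Subgroup K := Subgroup.centralizer (K0 : Set K)
  have hC : CN C := centralizer_CN K0 hK0.normal
  by_cases hcase : ∀ L ∈ LK K, L ⊓ C ≠ ⊥
  · -- many profinite normal subgroups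
    obtain ⟨A, hAC, hA1, hACN, hnull⟩ := exists_null_normal C hC hcase
    have hex : ∀ n, ∃ B ≤ A n, CN B ∧ B ≠ ⊥ ∧ FM B := by
      intro n
      by_cases hcc : cc (A n) = ⊥
      · exact ⟨A n, le_rfl, hACN n, hA1 n, FM_of_cc _ (hACN n).closed hcc⟩
      · obtain ⟨B, hB, h1, h2, h3⟩ := abelian_FM (cc (A n)) (cc_CN (hACN n)) (by
          intro x hx y hy
          have h1 : y ∈ C := hAC n (cc_le _ hy)
          have h2 : x ∈ K0 := subset_cc ⊤ _ (cc_preconnected (A n)) (one_mem (cc (A n)))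
            (fun _ _ => trivial) hx
          exact (Subgroup.mem_centralizer_iff.1 h1 x h2)) hcc
        exact ⟨B, hB.trans (cc_le _), h1, h2, h3⟩
    choose B hBA hB hB1 hBF using hex
    exact caseFM i hi hess B hB hB1 hBF (fun L hL => by
      filter_upwards [hnull L hL] with n hn
      exact (hBA n).trans hn)
  · push Not at hcase
    obtain ⟨L0, hL0, hL0C⟩ := hcase
    have hL0CN : CN L0 := CN.of_LK hL0
    have triv1 : ∀ A : Subgroup K, CN A → A ≤ L0 → cc A = ⊥ → A = ⊥ := by
      intro A hA hAL hcc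
      rw [eq_bot_iff, ← hL0C]
      refine le_inf hAL ?_
      intro a ha
      refine Subgroup.mem_centralizer_iff.2 fun p hp => ?_
      exact centralize_of_cc_eq_bot A hA.normal hcc (K0 : Set K) hK0c (one_mem K0) p a hp ha
    have triv2 : ∀ A : Subgroup K, CN A → A ≤ L0 → IsPreconnected (A : Set K) →
        (∀ x ∈ A, ∀ y ∈ A, x * y = y * x) → A = ⊥ := by
      intro A hA hAL hAc hcomm
      rw [eq_bot_iff, ← hL0C]
      refine le_inf hAL ?_
      intro a ha
      refine Subgroup.mem_centralizer_iff.2 fun p hp => ?_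
      obtain ⟨r, hr, h⟩ := inner A hA hAc (K0 : Set K) hK0c (one_mem K0) p hp
      have h1 := h a ha
      rw [mul_assoc, hcomm r hr a ha, ← mul_assoc, ← mul_assoc] at h1
      exact mul_right_cancel h1
    obtain ⟨A, hAL, hA1, hACN, hnull⟩ := exists_null_normal L0 hL0CN (fun L hL h => hK (by
      rw [← h]; exact LK.inf hL hL0))
    have hex : ∀ n, ∃ Q N : Subgroup K, CN Q ∧ Q ≠ ⊥ ∧ Q ≤ A n ∧ N ∈ LK K ∧ Q ⊓ N = ⊥ := by
      intro n
      let P : Subgroup K := cc (A n)
      have hP : CN P := cc_CN (hACN n)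
      have hPA : P ≤ A n := cc_le _
      have hP1 : P ≠ ⊥ := fun h => hA1 n (triv1 (A n) (hACN n) (hAL n) h)
      have hPc : IsPreconnected (P : Set K) := cc_preconnected _
      obtain ⟨y, hy, hy1⟩ := exists_ne_one hP1
      obtain ⟨N, hN, hyN⟩ := LK.sep hy1
      have hPN : CN (P ⊓ N) := hP.inf (CN.of_LK hN)
      let R : Subgroup K := cc (P ⊓ N)
      have hR : CN R := cc_CN hPN
      have hRPN : R ≤ P ⊓ N := cc_le _
      have hRc : IsPreconnected (R : Set K) := cc_preconnected _
      have hZ := centralizer_CN R hR.normal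
      have hQ : CN (P ⊓ Subgroup.centralizer (R : Set K)) := hP.inf hZ
      refine ⟨P ⊓ Subgroup.centralizer (R : Set K), N, hQ, ?_, inf_le_left.trans hPA, hN, ?_⟩
      · obtain ⟨r, hr, h⟩ := inner R hR hRc (P : Set K) hPc (one_mem P) y hy
        have h1 : y * r ∈ P ⊓ Subgroup.centralizer (R : Set K) :=
          Subgroup.mem_inf.2 ⟨P.mul_mem hy (hRPN hr).1, Subgroup.mem_centralizer_iff.2
            (fun q hq => (h q hq).symm)⟩
        intro hbot
        rw [hbot, Subgroup.mem_bot] at h1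
        apply hyN
        have h2 := N.mul_mem (show y * r ∈ N by rw [h1]; exact one_mem _)
          (N.inv_mem (Subgroup.mem_inf.1 (hRPN hr)).2)
        rwa [mul_inv_cancel_right] at h2
      · have hQN : CN (P ⊓ Subgroup.centralizer (R : Set K) ⊓ N) := hQ.inf (CN.of_LK hN)
        have hQL : P ⊓ Subgroup.centralizer (R : Set K) ⊓ N ≤ L0 :=
          (inf_le_left.trans inf_le_left).trans (hPA.trans (hAL n))
        apply triv1 _ hQN hQL
        have hle : cc (P ⊓ Subgroup.centralizer (R : Set K) ⊓ N) ≤ R :=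
          subset_cc (P ⊓ N) _ (cc_preconnected _) (one_mem _) (fun x hx => by
            have h1 := cc_le _ hx
            rw [Subgroup.mem_inf, Subgroup.mem_inf] at h1
            exact ⟨h1.1.1, h1.2⟩)
        refine triv2 _ (cc_CN hQN) ((cc_le _).trans hQL) (cc_preconnected _) ?_
        intro x hx z hz
        have h1 := cc_le _ hz
        rw [Subgroup.mem_inf, Subgroup.mem_inf] at h1
        exact Subgroup.mem_centralizer_iff.1 h1.1.2 x (hle hx)
    choose Q N hQ hQ1 hQA hN hQN using hex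
    choose g hg1 hgQ hgt using fun n => lie_torsion i hi hbad (Q n) (hQ n).closed (N n) (hN n)
      (hQN n) (hess (Q n) (hQ n) (hQ1 n))
    obtain ⟨φ, -, hφ⟩ := exists_seq_of_forall_finset_exists (fun _ : ℕ => True)
      (fun x y => Q y ≤ N x) (by
        intro s _
        have h1 : ∀ᶠ n in atTop, ∀ x ∈ s, A n ≤ N x := by
          rw [Filter.eventually_all_finset]
          intro x _
          exact hnull (N x) (hN x)
        obtain ⟨y, hy⟩ := h1.exists
        exact ⟨y, trivial, fun x hx => (hQA y).trans (hy x hx)⟩)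
    have hφi : Function.Injective φ := by
      have h1 : ∀ m n, m < n → φ m ≠ φ n := by
        intro m n hmn heq
        have h2 := hφ m n hmn
        simp only [heq] at h2
        apply hQ1 (φ n)
        rw [← hQN (φ n)]
        exact (inf_eq_left.2 h2).symm
      intro m n hmn
      rcases lt_trichotomy m n with h | h | h
      · exact absurd hmn (h1 m n h)
      · exact h
      · exact absurd hmn.symm (h1 n m h)
    have hφt : Tendsto φ atTop atTop := Nat.cofinite_eq_atTop ▸ hφi.tendsto_cofinite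
    have hcomm : ∀ m n, m < n → i (g (φ m)) * i (g (φ n)) = i (g (φ n)) * i (g (φ m)) := by
      intro m n hmn
      have hx := hgQ (φ m)
      have hy := hφ m n hmn (hgQ (φ n))
      obtain ⟨x, hxd⟩ : ∃ x, x = i (g (φ m)) := ⟨_, rfl⟩
      obtain ⟨y, hyd⟩ : ∃ y, y = i (g (φ n)) := ⟨_, rfl⟩
      rw [← hxd] at hx ⊢
      rw [← hyd] at hy ⊢
      have h1 : x * y * x⁻¹ * y⁻¹ ∈ Q (φ m) ⊓ N (φ m) := by
        rw [Subgroup.mem_inf]
        constructor
        · have h2 := (Q (φ m)).mul_mem hx ((hQ (φ m)).normal.conj_mem _ ((Q (φ m)).inv_mem hx) y)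
          have h3 : x * y * x⁻¹ * y⁻¹ = x * (y * x⁻¹ * y⁻¹) := by group
          rwa [h3]
        · exact (N (φ m)).mul_mem ((LK.normal (hN (φ m))).conj_mem _ hy x) ((N (φ m)).inv_mem hy)
      rw [hQN, Subgroup.mem_bot, mul_inv_eq_one, mul_inv_eq_iff_eq_mul] at h1
      exact h1
    refine lemmaA i hi (fun n => g (φ n)) (fun n => hg1 _) (fun L hL => ?_) (fun n => ?_)
    · filter_upwards [hφt.eventually (hnull L hL)] with n hn
      exact hn (hQA _ (hgQ _))
    · obtain ⟨F, hF, hk, -⟩ := finite_commuting (fun n => i (g (φ n))) hcomm (fun m => by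
        obtain ⟨e, he, hge⟩ := hgt (φ m)
        exact ⟨e, he, by rw [← map_pow, hge, map_one]⟩) n
      refine (FM_of_finite F hF).mono ?_
      rw [Subgroup.closure_le]
      rintro _ ⟨k, hkn, rfl⟩
      exact hk k hkn

open Pool.Agent.H241R3.Nil in
/-- precompact minimal groups without bad subgroups are metrizable -/
theorem metrizable_of_not_bad {G : Type} [Group G] [TopologicalSpace G] [IsTopologicalGroup G]
    [T2Space G] (hP : Precompact G) (hm : Minimal G) (hbad : ¬ Bad G) :
    TopologicalSpace.MetrizableSpace G := by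
  obtain ⟨K, _, _, _, _, _, i, hi, hd⟩ := exists_completion G hP
  by_cases hK : (⊥ : Subgroup K) ∈ LK K
  · obtain ⟨ι, _, _, ρ, hρ, hker⟩ := hK
    have hinj : Function.Injective ρ := by
      intro a b hab
      have : a⁻¹ * b ∈ ρ.ker := by
        rw [MonoidHom.mem_ker, map_mul, ← hab, ← map_mul, inv_mul_cancel, map_one]
      rw [← hker, Subgroup.mem_bot, inv_mul_eq_one] at this
      exact this
    have hemb : IsInducing ρ := (hρ.isClosedEmbedding hinj).isInducing
    apply metrizable_of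
    have hfc : FirstCountableTopology (Matrix ι ι ℂ) :=
      (inferInstance : FirstCountableTopology (ι → ι → ℂ))
    rw [hi.nhds_eq_comap, hemb.nhds_eq_comap]
    infer_instance
  · exact absurd (main i hi (fun N hN hN1 => by
      have := hN.normal
      exact essential hm i hi hd N hN.closed hN1) hK) hbad

end H658.ZM
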