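import Pool.Agent.H658R3.ZM6

set_option autoImplicit false
set_option linter.style.haveILetI false
set_option linter.unusedSectionVars false

open Filter Topology Pointwise

noncomputable section

namespace H658.ZM

open Pool.Agent.H241R3.Nil

/-- pseudocompact topological groups are precompact -/
theorem precompact_of_pseudocompact (G : Type) [Group G] [TopologicalSpace G] [IsTopologicalGroup G]
    (h : ∀ f : G → ℝ, Continuous f → ∃ M : ℝ, ∀ x, |f x| ≤ M) : Precompact G := by
  classical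
  by_contra hcon
  unfold Precompact at hcon
  push Not at hcon
  obtain ⟨U, hU, hF⟩ := hcon
  obtain ⟨u, -, hu⟩ := exists_seq_of_forall_finset_exists (fun _ : G => True)
    (fun x y => y ∉ x • U) (by
      intro s _
      obtain ⟨y, hy⟩ := hF s
      exact ⟨y, trivial, hy⟩)
  obtain ⟨V, hV, hVU⟩ := exists_nhds_one_split4 hU
  obtain ⟨W, hWV, hWo, h1W⟩ := mem_nhds_iff.1 (inter_mem hV (inv_mem_nhds_one G hV))
  have hloc : ∀ x w1 w2 w3 w4 : G, ∀ m n, w1 ∈ W → w2 ∈ W → w3 ∈ W → w4 ∈ W →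
      x * w1 = u m * w2 → x * w3 = u n * w4 → m = n := by
    have key : ∀ x w1 w2 w3 w4 : G, ∀ m n, w1 ∈ W → w2 ∈ W → w3 ∈ W → w4 ∈ W →
      x * w1 = u m * w2 → x * w3 = u n * w4 → ¬ m < n := by
      intro x w1 w2 w3 w4 m n h1 h2 h3 h4 e1 e2 hmn
      apply hu m n hmn
      rw [Set.mem_smul_set_iff_inv_smul_mem, smul_eq_mul]
      have e3 : (u m)⁻¹ * u n = w2 * w1⁻¹ * w3 * w4⁻¹ := by
        have e4 : u n = x * w3 * w4⁻¹ := by rw [e2, mul_inv_cancel_right]
        have e5 : (u m)⁻¹ = w2 * w1⁻¹ * x⁻¹ := by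
          have : u m = x * w1 * w2⁻¹ := by rw [e1, mul_inv_cancel_right]
          rw [this]; group
        rw [e4, e5]; group
      rw [e3]
      exact hVU (hWV h2).1 (by simpa using (hWV h1).2) (hWV h3).1 (by simpa using (hWV h4).2)
    intro x w1 w2 w3 w4 m n h1 h2 h3 h4 e1 e2
    rcases lt_trichotomy m n with h | h | h
    · exact absurd h (key x w1 w2 w3 w4 m n h1 h2 h3 h4 e1 e2)
    · exact h
    · exact absurd h (key x w3 w4 w1 w2 n m h3 h4 h1 h2 e2 e1)
  let _ : UniformSpace G := IsTopologicalGroup.rightUniformSpace G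
  obtain ⟨φ, hφ, hφ1, hφW⟩ := CompletelyRegularSpace.completely_regular_isOpen (1 : G) W hWo h1W
  let f : ℕ → G → ℝ := fun n x => n * (1 - (φ ((u n)⁻¹ * x) : ℝ))
  have hfc : ∀ n, Continuous (f n) := by
    intro n
    have : Continuous fun x => (φ ((u n)⁻¹ * x) : ℝ) :=
      continuous_subtype_val.comp (hφ.comp (continuous_const_mul _))
    exact continuous_const.mul (continuous_const.sub this)
  have hsupp : ∀ n x, f n x ≠ 0 → ∃ w ∈ W, x = u n * w := by
    intro n x hx
    by_contra hcon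
    apply hx
    have h1 : (u n)⁻¹ * x ∈ Wᶜ := fun hw => hcon ⟨_, hw, by rw [mul_inv_cancel_left]⟩
    have h2 := hφW h1
    change (n : ℝ) * (1 - (φ ((u n)⁻¹ * x) : ℝ)) = 0
    rw [h2]
    simp
  have hlf : LocallyFinite fun n => Function.support (f n) := by
    intro x
    refine ⟨(fun y => x⁻¹ * y) ⁻¹' W, ?_, ?_⟩
    · have hc : ContinuousAt (fun y : G => x⁻¹ * y) x := by fun_prop
      apply hc
      simpa using hWo.mem_nhds h1W
    · apply Set.Subsingleton.finite
      rintro m ⟨y, hy, hyW⟩ n ⟨z, hz, hzW⟩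
      obtain ⟨w2, hw2, e1⟩ := hsupp m y hy
      obtain ⟨w4, hw4, e2⟩ := hsupp n z hz
      exact hloc x (x⁻¹ * y) w2 (x⁻¹ * z) w4 m n hyW hw2 hzW hw4
        (by rw [mul_inv_cancel_left, e1]) (by rw [mul_inv_cancel_left, e2])
  obtain ⟨M, hM⟩ := h (fun x => ∑ᶠ n, f n x) (continuous_finsum hfc hlf)
  obtain ⟨k, hk⟩ := exists_nat_gt M
  have h1 : ∑ᶠ n, f n (u k) = k := by
    rw [finsum_eq_single _ k]
    · change (k : ℝ) * (1 - (φ ((u k)⁻¹ * u k) : ℝ)) = k
      rw [inv_mul_cancel, hφ1]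
      simp
    · intro n hn
      by_contra hne
      obtain ⟨w, hw, e⟩ := hsupp n (u k) hne
      apply hn
      exact (hloc (u k) 1 1 1 w k n h1W h1W h1W hw rfl (by rw [mul_one, e])).symm
  have h2 := hM (u k)
  rw [h1] at h2
  have h3 := le_abs_self (k : ℝ)
  linarith

/-- countably compact groups are precompact -/
theorem precompact_of_countablyCompact (G : Type) [Group G] [TopologicalSpace G]
    [IsTopologicalGroup G]
    (h : ∀ U : ℕ → Set G, (∀ n, IsOpen (U n)) → (⋃ n, U n) = Set.univ →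
      ∃ t : Finset ℕ, (⋃ n ∈ t, U n) = Set.univ) : Precompact G := by
  apply H645.MC.precompact_of_cc
  intro u
  by_contra hcon
  push Not at hcon
  obtain ⟨t, ht⟩ := h (fun n => (closure (u '' Set.Ici n))ᶜ) (fun n => isClosed_closure.isOpen_compl) (by
    rw [Set.eq_univ_iff_forall]
    intro x
    have h1 := hcon x
    rw [mapClusterPt_iff_frequently] at h1
    push Not at h1
    obtain ⟨s, hs, hsn⟩ := h1
    obtain ⟨n, hn⟩ := eventually_atTop.1 hsn
    refine Set.mem_iUnion.2 ⟨n, fun hx => ?_⟩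
    rw [mem_closure_iff_nhds] at hx
    obtain ⟨_, hy, k, hk, rfl⟩ := hx s hs
    exact hn k hk hy)
  have h2 : u (t.sup id) ∈ (⋃ n ∈ t, (closure (u '' Set.Ici n))ᶜ) := by rw [ht]; trivial
  obtain ⟨n, hn, hx⟩ := Set.mem_iUnion₂.1 h2
  exact hx (subset_closure ⟨t.sup id, Finset.le_sup (f := id) hn, rfl⟩)

/-- minimality in terms of isomorphisms -/
theorem minimal_of (G : Type) [Group G] [t : TopologicalSpace G] [IsTopologicalGroup G]
    (h : ∀ (H : Type) [Group H] [TopologicalSpace H] [IsTopologicalGroup H] [T2Space H]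
      (f : G ≃* H), Continuous f → Continuous f.symm) : Minimal G := by
  intro t' hle hg h2
  refine le_antisymm ?_ hle
  have h1 := @h G _ t' hg h2 (MulEquiv.refl G) (continuous_id_iff_le.2 hle)
  exact continuous_id_iff_le.1 h1

end H658.ZM
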