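import Pool.Agent.H658R3.ZM7

set_option autoImplicit false
set_option linter.style.haveILetI false
set_option linter.unusedSectionVars false

open Filter Topology Pointwise

noncomputable section

namespace H658.ZM

open H645.MC Pool.Agent.H241R3.Nil

/-- the completion of a precompact minimal group without bad subgroups is a compact Lie group -/
theorem exists_lie_completion {G : Type} [Group G] [TopologicalSpace G] [IsTopologicalGroup G]
    [T2Space G] (hP : Precompact G) (hm : Minimal G) (hbad : ¬ Bad G) :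
    ∃ (K : Type) (_ : Group K) (_ : TopologicalSpace K) (_ : IsTopologicalGroup K)
      (_ : CompactSpace K) (_ : T2Space K) (i : G →* K), IsInducing i ∧ DenseRange i ∧
      (⊥ : Subgroup K) ∈ LK K := by
  obtain ⟨K, _, _, _, _, _, i, hi, hd⟩ := exists_completion G hP
  refine ⟨K, _, _, inferInstance, inferInstance, inferInstance, i, hi, hd, ?_⟩
  by_contra hK
  exact hbad (main i hi (fun N hN hN1 => by
      have := hN.normal
      exact essential hm i hi hd N hN.closed hN1) hK)

theorem fin_rep {K : Type} [Group K] [TopologicalSpace K] {L : Subgroup K} (hL : L ∈ UK K) :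
    ∃ (n : ℕ) (ρ : K →* Matrix.unitaryGroup (Fin n) ℂ), Continuous ρ ∧ L = ρ.ker := by
  obtain ⟨ι, _, _, ρ, hρ, rfl⟩ := hL
  let e : Fin (Fintype.card ι) ≃ ι := (Fintype.equivFin ι).symm
  have hun : ∀ x, (ρ x : Matrix ι ι ℂ).submatrix e e ∈ Matrix.unitaryGroup (Fin (Fintype.card ι)) ℂ := by
    intro x
    rw [Matrix.mem_unitaryGroup_iff', Matrix.star_eq_conjTranspose, Matrix.conjTranspose_submatrix,
      Matrix.submatrix_mul_equiv]
    have h1 := Matrix.mem_unitaryGroup_iff'.1 (ρ x).2
    rw [Matrix.star_eq_conjTranspose] at h1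
    rw [h1, Matrix.submatrix_one_equiv]
  refine ⟨Fintype.card ι,
    { toFun := fun x => ⟨(ρ x : Matrix ι ι ℂ).submatrix e e, hun x⟩
      map_one' := by
        apply Subtype.ext
        change (ρ 1 : Matrix ι ι ℂ).submatrix e e = 1
        rw [map_one]
        exact Matrix.submatrix_one_equiv e
      map_mul' := fun x y => by
        apply Subtype.ext
        change (ρ (x * y) : Matrix ι ι ℂ).submatrix e e =
          (ρ x : Matrix ι ι ℂ).submatrix e e * (ρ y : Matrix ι ι ℂ).submatrix e e
        rw [map_mul, Matrix.submatrix_mul_equiv]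
        rfl }, ?_, ?_⟩
  · apply Continuous.subtype_mk
    exact (continuous_subtype_val.comp hρ).matrix_submatrix e e
  · ext x
    rw [MonoidHom.mem_ker, MonoidHom.mem_ker]
    constructor
    · intro h
      apply Subtype.ext
      change (ρ x : Matrix ι ι ℂ).submatrix e e = 1
      rw [h]
      exact Matrix.submatrix_one_equiv e
    · intro h
      have h1 : (ρ x : Matrix ι ι ℂ).submatrix e e = 1 := congrArg Subtype.val h
      apply Subtype.ext
      have h2 : (ρ x : Matrix ι ι ℂ) = ((ρ x : Matrix ι ι ℂ).submatrix e e).submatrix e.symm e.symm := by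
        ext a b
        simp
      rw [h2, h1, Matrix.submatrix_one_equiv]
      rfl

theorem UK_bot {K : Type} [Group K] [TopologicalSpace K] [IsTopologicalGroup K] [CompactSpace K]
    [T2Space K] (h : (⊥ : Subgroup K) ∈ LK K) : (⊥ : Subgroup K) ∈ UK K := by
  classical
  obtain ⟨U, hU, -, hnss⟩ := nss ⊥ h
  obtain ⟨V, hVU, hVo, h1V⟩ := mem_nhds_iff.1 hU
  have hcomp : IsCompact (Vᶜ : Set K) := hVo.isClosed_compl.isCompact
  obtain ⟨t, ht⟩ := hcomp.elim_finite_subcover (fun L : UK K => ((L.1 : Set K))ᶜ)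
    (fun L => (LK.closed (UK.sub L.2)).isOpen_compl) (by
      intro y hy
      have hy1 : y ≠ 1 := by
        rintro rfl
        exact hy h1V
      obtain ⟨L, hL, hyL⟩ := UK.sep hy1
      exact Set.mem_iUnion.2 ⟨⟨L, hL⟩, hyL⟩)
  have hfin : ∀ t : Finset (UK K), (t.inf (fun L => L.1)) ∈ UK K := by
    intro t
    induction t using Finset.induction_on with
    | empty => exact UK.top
    | insert a s ha ih => rw [Finset.inf_insert]; exact UK.inf a.2 ih
  have hle : t.inf (fun L => L.1) ≤ (⊥ : Subgroup K) := by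
    apply hnss
    intro x hx
    apply hVU
    by_contra hV
    obtain ⟨L, hL, hgL⟩ := Set.mem_iUnion₂.1 (ht hV)
    exact hgL ((Finset.inf_le hL : t.inf (fun L => L.1) ≤ L.1) hx)
  have heq : t.inf (fun L => L.1) = (⊥ : Subgroup K) := le_antisymm hle bot_le
  rw [← heq]
  exact hfin t

/-- pseudocompact minimal groups without bad subgroups are compact linear groups -/
theorem lie_of_pseudocompact (G : Type) [Group G] [TopologicalSpace G] [IsTopologicalGroup G]
    [T2Space G] (h : ∀ f : G → ℝ, Continuous f → ∃ M : ℝ, ∀ x, |f x| ≤ M) (hm : Minimal G)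
    (hbad : ¬ Bad G) : CompactSpace G ∧
      ∃ (n : ℕ) (ρ : G →* Matrix.unitaryGroup (Fin n) ℂ), IsClosedEmbedding ρ := by
  obtain ⟨K, _, _, _, _, _, i, hi, hd, hK⟩ :=
    exists_lie_completion (precompact_of_pseudocompact G h) hm hbad
  obtain ⟨n, ρ, hρ, hker⟩ := fin_rep (UK_bot hK)
  have hinj : Function.Injective ρ := (MonoidHom.ker_eq_bot_iff ρ).1 hker.symm
  have hii : Function.Injective i := by
    intro a b hab
    by_contra hne
    obtain ⟨U, V, hU, hV, ha, hb, hdis⟩ := t2_separation hne
    obtain ⟨U', hU', rfl⟩ := hi.isOpen_iff.1 hU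
    have hbU : b ∈ i ⁻¹' U' := by
      change i b ∈ U'
      rw [← hab]
      exact ha
    exact Set.disjoint_left.1 hdis hbU hb
  have hsurj : Function.Surjective i := by
    intro y
    by_contra hy
    push Not at hy
    -- the distance to `y`
    let d : G → ℝ := fun x => ∑ a, ∑ b, ‖(ρ (i x) : Matrix (Fin n) (Fin n) ℂ) a b -
      (ρ y : Matrix (Fin n) (Fin n) ℂ) a b‖
    let d' : K → ℝ := fun x => ∑ a, ∑ b, ‖(ρ x : Matrix (Fin n) (Fin n) ℂ) a b -
      (ρ y : Matrix (Fin n) (Fin n) ℂ) a b‖
    have hd'c : Continuous d' := by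
      refine continuous_finsetSum _ fun a _ => continuous_finsetSum _ fun b _ => ?_
      apply Continuous.norm
      have h1 : Continuous fun x : K => (ρ x : Matrix (Fin n) (Fin n) ℂ) :=
        continuous_subtype_val.comp hρ
      exact (h1.matrix_elem a b).sub continuous_const
    have hd'0 : d' y = 0 := by simp [d']
    have hdpos : ∀ x, d x ≠ 0 := by
      intro x hx
      apply hy x
      apply hinj
      apply Subtype.ext
      ext a b
      have h1 := (Finset.sum_eq_zero_iff_of_nonneg (fun a _ =>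
        Finset.sum_nonneg fun b _ => norm_nonneg _)).1 hx a (Finset.mem_univ a)
      have h2 := (Finset.sum_eq_zero_iff_of_nonneg (fun b _ => norm_nonneg _)).1 h1 b (Finset.mem_univ b)
      exact sub_eq_zero.1 (norm_eq_zero.1 h2)
    have hdc : Continuous d := hd'c.comp hi.continuous
    obtain ⟨M, hM⟩ := h (fun x => (d x)⁻¹) (hdc.inv₀ hdpos)
    have hdn : ∀ x, 0 ≤ d x := fun x => Finset.sum_nonneg fun a _ =>
      Finset.sum_nonneg fun b _ => norm_nonneg _
    have hopen : IsOpen {z : K | d' z < (|M| + 1)⁻¹} := isOpen_lt hd'c continuous_const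
    obtain ⟨x, hx⟩ := hd.exists_mem_open hopen ⟨y, by
      change d' y < (|M| + 1)⁻¹
      rw [hd'0]
      positivity⟩
    have h1 : d x < (|M| + 1)⁻¹ := hx
    have h2 : 0 < d x := lt_of_le_of_ne (hdn x) (Ne.symm (hdpos x))
    have h3 : |M| + 1 < (d x)⁻¹ := by
      rw [lt_inv_comm₀ (by positivity) h2]
      exact h1
    have h4 := hM x
    rw [abs_of_pos (inv_pos.2 h2)] at h4
    have h5 := le_abs_self M
    linarith
  have hcomp : CompactSpace G := by
    have hemb : IsHomeomorph i := by
      rw [isHomeomorph_iff_isEmbedding_surjective]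
      exact ⟨⟨hi, hii⟩, hsurj⟩
    exact hemb.homeomorph.symm.compactSpace
  refine ⟨hcomp, n, ρ.comp i, ?_⟩
  exact (hρ.comp hi.continuous).isClosedEmbedding (hinj.comp hii)

/-- countably compact spaces are pseudocompact -/
theorem pseudocompact_of_countablyCompact (G : Type) [TopologicalSpace G]
    (h : ∀ U : ℕ → Set G, (∀ n, IsOpen (U n)) → (⋃ n, U n) = Set.univ →
      ∃ t : Finset ℕ, (⋃ n ∈ t, U n) = Set.univ) :
    ∀ f : G → ℝ, Continuous f → ∃ M : ℝ, ∀ x, |f x| ≤ M := by
  intro f hf
  obtain ⟨t, ht⟩ := h (fun n => {x | |f x| < n}) (fun n => isOpen_lt hf.abs continuous_const) (by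
    rw [Set.eq_univ_iff_forall]
    intro x
    obtain ⟨n, hn⟩ := exists_nat_gt |f x|
    exact Set.mem_iUnion.2 ⟨n, hn⟩)
  refine ⟨(t.sup id : ℕ), fun x => ?_⟩
  have hx : x ∈ (⋃ n ∈ t, {x | |f x| < (n : ℝ)}) := by rw [ht]; trivial
  obtain ⟨n, hn, hxn⟩ := Set.mem_iUnion₂.1 hx
  have h1 : |f x| < n := hxn
  have h2 : (n : ℝ) ≤ (t.sup id : ℕ) := by exact_mod_cast Finset.le_sup (f := id) hn
  linarith

end H658.ZM
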